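import Pool.Agent.W_448w6_h53.WeF

/-!
**Level 12 without joins of level 13** (case B): no (C) (input HCC at `m = 6`, no hypothesis on the
other components), no `{03}` and no doubled `{01}` in the strips `La6` (MP_448cb3_co).
-/

namespace Pool.Agent.GaussPoset.W6

set_option linter.unusedSectionVars false

open Polynomial Finset Dd Wd Cl J8

universe u

variable {P : Type u} [Fintype P] [PartialOrder P] [DecidableEq P] {r : ℕ}

/-- elements below two tops -/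
lemma jn_of {z x x' : P} (hzx : z ⋖ x) (hzx' : z ⋖ x') (hne : topOf x ≠ topOf x') :
    Hul.Jn z :=
  ⟨topOf x, topOf x', (topOf x).2, (topOf x').2, fun h => hne (Subtype.ext h),
    hzx.1.le.trans (le_topOf x), hzx'.1.le.trans (le_topOf x')⟩

section

variable (h : Win.GoodTo P r 12) {lo hi : Tops P → ℕ → ℕ} {e : Tops P → ℕ → ℕ → P}
  (C : ∀ t : Tops P, Cp.Comp 12 (t : P) (lo t) (hi t) (e t))
  (hS : ∀ t, Wd.Shape 12 (lo t) (hi t))
  (hnj : ∀ z : P, lev z = 13 → ¬ Hul.Jn z)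

include h C hS hnj in
/-- **case B at level 12.** -/
theorem caseB :
    (∀ t z, StairShape 12 (lo t) (hi t) → lo t 12 = 0 → z ⋖ e t 12 6 → z ⋖ e t 12 0 → False) ∧
    (∀ t z, WordD 12 6 wa6 (lo t) (hi t) → z ⋖ e t 12 6 → z ⋖ e t 12 3 → False) ∧
    (∀ t z z', WordD 12 6 wa6 (lo t) (hi t) → z ≠ z' → z ⋖ e t 12 6 → z ⋖ e t 12 5 →
      z' ⋖ e t 12 6 → z' ⋖ e t 12 5 → False) ∧
    (∀ z x : P, Pend z x → lev x = 12 → (Win.uc x).card = 1 → 3 ≤ nab 6 x → False) := by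
  have K : Sm.Ctx P r 12 lo hi e := ⟨h, by norm_num, by norm_num, C, hS⟩
  obtain ⟨-, h2, h3, h4⟩ := level12 K fun z x x' hlz hzx hzx' hne _ =>
    absurd (jn_of hzx hzx' hne) (hnj z hlz)
  obtain ⟨-, h5, -⟩ := level12a K fun z x x' hlz hzx hzx' hne _ =>
    absurd (jn_of hzx hzx' hne) (hnj z hlz)
  exact ⟨h2, h3, h4, h5⟩

end

/-- **there is no element (C) for `m = 6`**, no hypothesis on the other components -/
theorem no_cc_six (h : Win.GoodTo P r (2 * 6)) {lo hi : Tops P → ℕ → ℕ}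
    {e : Tops P → ℕ → ℕ → P} (C : ∀ t : Tops P, Cp.Comp (2 * 6) (t : P) (lo t) (hi t) (e t))
    (hS : ∀ t, Wd.Shape (2 * 6) (lo t) (hi t))
    (hnj : ∀ z : P, lev z = 2 * 6 + 1 → ¬ Hul.Jn z) {t : Tops P} {z : P}
    (S : StairShape (2 * 6) (lo t) (hi t)) (h0 : lo t (2 * 6) = 0)
    (hz1 : z ⋖ e t (2 * 6) 6) (hz2 : z ⋖ e t (2 * 6) 0) : False :=
  (caseB h C hS hnj).1 t z S h0 hz1 hz2

end Pool.Agent.GaussPoset.W6
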