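import Pool.Agent.W_448w6_h53.WeE

/-!
**Level 12, window 6**: `level12a` (no (C), no pendants below fold ends, no joins `(5, 4)`,
`(6, 4)` of small cost) and `level12` (no fold join, no `{03}`, no doubled `{01}`)
(MP_448cb3_co, `j = 12`).
-/

namespace Pool.Agent.GaussPoset.W6

set_option linter.unusedSectionVars false

open Polynomial Finset Dd Wd Cl J8

universe u

variable {P : Type u} [Fintype P] [PartialOrder P] [DecidableEq P] {r : ℕ}
variable {lo hi : Tops P → ℕ → ℕ} {e : Tops P → ℕ → ℕ → P}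

/-- **Level 12, window 6, up to the energy 20.** -/
theorem level12a (K : Sm.Ctx P r 12 lo hi e)
    (hJ1 : ∀ z x x' : P, lev z = 13 → z ⋖ x → z ⋖ x' → topOf x ≠ topOf x' →
      ((nab 6 x = 2 ∧ nab 7 x = 1) ∨ 3 ≤ nab 6 x) →
      21 ≤ S13 z ∨ (nab 6 z = 5 ∧ nab 7 z = 4) ∨ (nab 6 z = 6 ∧ nab 7 z = 4 ∧ S13 z = 19) ∨
      (nab 6 z = 5 ∧ nab 7 z = 5)) :
    (∀ t z, StairShape 12 (lo t) (hi t) → lo t 12 = 0 → z ⋖ e t 12 6 → z ⋖ e t 12 0 → False) ∧
    (∀ z x : P, Pend z x → lev x = 12 → (Win.uc x).card = 1 → 3 ≤ nab 6 x → False) ∧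
    (∀ z x x' : P, lev z = 13 → z ⋖ x → z ⋖ x' → topOf x ≠ topOf x' → 3 ≤ nab 6 x →
      ¬ (nab 6 z = 5 ∧ nab 7 z = 4 ∧ S13 z ≤ 20) ∧
      ¬ (nab 6 z = 6 ∧ nab 7 z = 4 ∧ S13 z ≤ 20)) := by
  classical
  have H := K.gt.H
  choose Y θ B ρ hts hρ hcom hcx h03 using fun t : Tops P => exists_A K.gt (K.comp t) (K.shape t)
  have W : C12 P r lo hi e 24 23 True ρ Y θ B := ⟨K, hts⟩
  obtain ⟨h713, hX, hjn⟩ := W.upto20 (by norm_num) (by norm_num) (by
    intro z x x' hj hx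
    refine hJ1 z x x' hj.lz hj.cov hj.cov' hj.ne ?_
    rcases hx with hx | hx
    · right
      have := hx.1
      omega
    · left
      exact ⟨hx.1, hx.2.1⟩)
  refine ⟨?_, ?_, ?_⟩
  · intro t z S h0 hz6 hz0
    obtain ⟨hzY, hx⟩ := hcx t S h0 z hz6 hz0
    have h1 := W.cx_mem hzY hx
    rw [hX] at h1
    exact absurd h1 (Finset.notMem_empty _)
  · intro z x hp hl hu h3
    obtain ⟨h4, h5⟩ := ((W.ts (topOf x)).cost.ends x (le_topOf x) hl hu).1 h3
    have hlz := (H.covBy_iff.mp hp.1).2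
    have hzR : z ∈ unnat (N12 Y) := by
      rw [mem_unnat]
      intro s hs
      have h6 : topOf x = s := W.sys.topOf_eq (W.sys.up s z hs x hp.1.1.le)
      unfold N12 at hs
      rw [mem_union, mem_lowPart] at hs
      rcases hs with hs | hs
      · have := hs.2
        omega
      · have := (W.ts s).cost.Yp z hs x hp hl
        omega
    have hzb : z ∈ bdR (unnat (N12 Y)) := by
      unfold bdR
      rw [mem_filter]
      exact ⟨hzR, x, W.nat12 hl.le, hp.1⟩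
    have h7 := W.h_le hp.1 (le_topOf x) hl.le
    have h8 := W.lad.one_le hzb
    have h8' : 1 ≤ h12 Y θ z := h8
    have h9 := ((pen_cost (h := h12 Y θ) H hp hl (by omega)).1 h5).1
    exact (h713 z hzb).2 h9
  · intro z x x' hlz hzx hzx' hne h3
    have l1 := (H.covBy_iff.mp hzx).2
    have l2 := (H.covBy_iff.mp hzx').2
    have hon : ∀ v : P, lev v = 12 → v ∈ onlyB (topOf v) := fun v hv =>
      only_low K.gt v (le_topOf v) hv.le
    have hcg : Sm.Cg z x x' := Sm.Cg.mk' hzx hzx' (hon x (by omega)) (hon x' (by omega)) hne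
    obtain ⟨u1, u2⟩ := K.ends hcg hlz
    obtain ⟨h4, h5⟩ := ((W.ts (topOf x)).cost.ends x (le_topOf x) (by omega) u1).1 h3
    obtain ⟨hh, hj⟩ := W.jn_jo hlz hzx hzx' hne h4
    have hzb := W.jn_bd hlz hzx hzx' hne
    have h6 := hjn z hzb hh
    rwa [cst_S13 hh hlz] at h6

/-- **Level 12, window 6, the energies 23, 24, 25 and 27.** -/
theorem level12 (K : Sm.Ctx P r 12 lo hi e)
    (hJ2 : ∀ z x x' : P, lev z = 13 → z ⋖ x → z ⋖ x' → topOf x ≠ topOf x' →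
      ((nab 6 x = 2 ∧ nab 7 x = 1) ∨ 3 ≤ nab 6 x) →
      (nab 6 z = 6 ∧ nab 7 z = 5 ∧ (S13 z = 23 ∨ S13 z = 24)) ∨
      (nab 6 z = 8 ∧ nab 7 z = 6 ∧ S13 z = 25)) :
    (∀ z x x' : P, lev z = 13 → z ⋖ x → z ⋖ x' → topOf x ≠ topOf x' →
      ¬ ((nab 6 x = 2 ∧ nab 7 x = 1) ∨ 3 ≤ nab 6 x)) ∧
    (∀ t z, StairShape 12 (lo t) (hi t) → lo t 12 = 0 → z ⋖ e t 12 6 → z ⋖ e t 12 0 → False) ∧
    (∀ t z, WordD 12 6 wa6 (lo t) (hi t) → z ⋖ e t 12 6 → z ⋖ e t 12 3 → False) ∧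
    (∀ t z z', WordD 12 6 wa6 (lo t) (hi t) → z ≠ z' → z ⋖ e t 12 6 → z ⋖ e t 12 5 →
      z' ⋖ e t 12 6 → z' ⋖ e t 12 5 → False) := by
  classical
  have H := K.gt.H
  choose Y θ B ρ hts hρ hcom hcx h03 using fun t : Tops P => exists_A K.gt (K.comp t) (K.shape t)
  have W : C12 P r lo hi e 24 23 True ρ Y θ B := ⟨K, hts⟩
  -- the joins
  have hside : ∀ x : P, (Fp x ∨ Qp x) → ((nab 6 x = 2 ∧ nab 7 x = 1) ∨ 3 ≤ nab 6 x) := by
    intro x hx
    rcases hx with hx | hx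
    · right
      have := hx.1
      omega
    · left
      exact ⟨hx.1, hx.2.1⟩
  obtain ⟨h713, hX, -⟩ := W.upto20 (by norm_num) (by norm_num) (by
    intro z x x' hj hx
    rcases hJ2 z x x' hj.lz hj.cov hj.cov' hj.ne (hside x hx) with ⟨-, -, h⟩ | ⟨-, -, h⟩
    · left
      omega
    · left
      omega)
  -- the energy 23
  have key : ∀ z ∈ bdR (unnat (N12 Y)), 24 ≤ cst 6 (h12 Y θ) z ∨
      (h12 Y θ z = 1 ∧ nab 6 z = 6 ∧ nab 7 z = 5 ∧ cst 6 (h12 Y θ) z = 23) := by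
    intro z hz
    obtain ⟨n7, n13⟩ := h713 z hz
    rcases W.kd hz with h1 | ⟨-, h1, -⟩ | ⟨-, h1, -⟩ | ⟨h1, h2, x, x', hj, hx⟩ | ⟨-, h1⟩
    · exact Or.inl h1
    · exact absurd h1 n7
    · exact absurd h1 n13
    · rcases hJ2 z x x' hj.lz hj.cov hj.cov' hj.ne (hside x hx) with ⟨a, b, h⟩ | ⟨a, b, h⟩
      · rcases h with h | h
        · exact Or.inr ⟨h1, a, b, by omega⟩
        · exact Or.inl (by omega)
      · exact Or.inl (by omega)
    · rw [hX] at h1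
      exact absurd h1 (Finset.notMem_empty _)
  obtain ⟨r1, r2⟩ := W.last (by norm_num) hX (σ := 1) one_ne_zero (fun t => by
      rw [one_mul]
      exact hρ t) (by norm_num)
    (fun z hz => by rcases key z hz with h1 | ⟨-, -, -, h1⟩ <;> omega)
    (fun _ => 1) (fun z hz hc => by
      rcases key z hz with h1 | ⟨h1, h2, h3, -⟩
      · omega
      · have h4 := lv_lt (h := h12 Y θ) (z := z) h1 (B' := (lv P 6).card) (by omega)
        rw [h2] at h4
        have h5 : (-1 : ℤ) ^ (below P 6 + 6) = (-1) ^ below P 6 := by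
          rw [pow_add]
          norm_num
        rw [h5] at h4
        rw [Nat.cast_one, one_mul, one_mul]
        exact h4)
  have hC : ∀ t z, StairShape 12 (lo t) (hi t) → lo t 12 = 0 → z ⋖ e t 12 6 → z ⋖ e t 12 0 →
      False := by
    intro t z S h0 hz6 hz0
    obtain ⟨hzY, hx⟩ := hcx t S h0 z hz6 hz0
    have h1 := W.cx_mem hzY hx
    rw [hX] at h1
    exact absurd h1 (Finset.notMem_empty _)
  have hno : ∀ t z, WordD 12 6 wa6 (lo t) (hi t) → z ⋖ e t 12 6 → z ⋖ e t 12 3 → False := by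
    intro t z D h6 h3
    have h1 := h03 t D ⟨z, h6, h3⟩
    rw [r1 t] at h1
    exact lt_irrefl _ h1
  -- the second ladder
  have hq : ∀ t z, z ∉ Y t → ¬ IsCx t (hi t 6 - lo t 6 + 1) (θ t) z := by
    intro t z hzY hx
    have h1 := W.cx_mem hzY hx
    rw [hX] at h1
    exact absurd h1 (Finset.notMem_empty _)
  have hex : ∀ t : Tops P, ∃ Y θ B ρ, TS 28 27 False t (hi t 6 - lo t 6 + 1) ρ Y θ B ∧ ρ ≤ 0 ∧
      (WordD 12 6 wa6 (lo t) (hi t) → ∀ z z', z ≠ z' → z ⋖ e t 12 6 → z ⋖ e t 12 5 →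
        z' ⋖ e t 12 6 → z' ⋖ e t 12 5 → ρ < 0) := by
    intro t
    by_cases D : WordD 12 6 wa6 (lo t) (hi t)
    · obtain ⟨Y, θ, B, ρ, g1, g2, g3⟩ := la6C_ts D (K.comp t) K.gt False (hno t · D)
      exact ⟨Y, θ, B, ρ, g1, g2, fun _ => g3⟩
    · obtain ⟨g1, g2⟩ := hcom t D
      exact ⟨Y t, θ t, B t, 0, TS.of (g1.noq (fun z hz _ => hq t z hz)) g2 le_rfl le_rfl, le_rfl,
        fun hD => absurd hD D⟩
  choose Y' θ' B' ρ' hts' hρ' h01 using hex
  have W' : C12 P r lo hi e 28 27 False ρ' Y' θ' B' := ⟨K, hts'⟩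
  obtain ⟨h713', hX', -⟩ := W'.upto20 (by norm_num) (by norm_num) (by
    intro z x x' hj hx
    rcases hJ2 z x x' hj.lz hj.cov hj.cov' hj.ne (hside x hx) with ⟨-, -, h⟩ | ⟨-, -, h⟩
    · left
      omega
    · left
      omega)
  have key' : ∀ z ∈ bdR (unnat (N12 Y')), 28 ≤ cst 6 (h12 Y' θ') z ∨
      (h12 Y' θ' z = 1 ∧ nab 6 z = 6 ∧ nab 7 z = 5 ∧ (cst 6 (h12 Y' θ') z = 23 ∨
        cst 6 (h12 Y' θ') z = 24)) ∨
      (h12 Y' θ' z = 1 ∧ nab 6 z = 8 ∧ nab 7 z = 6 ∧ cst 6 (h12 Y' θ') z = 25) := by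
    intro z hz
    obtain ⟨n7, n13⟩ := h713' z hz
    rcases W'.kd hz with h1 | ⟨-, h1, -⟩ | ⟨-, h1, -⟩ | ⟨h1, h2, x, x', hj, hx⟩ | ⟨h1, -⟩
    · exact Or.inl h1
    · exact absurd h1 n7
    · exact absurd h1 n13
    · rcases hJ2 z x x' hj.lz hj.cov hj.cov' hj.ne (hside x hx) with ⟨a, b, h⟩ | ⟨a, b, h⟩
      · exact Or.inr (Or.inl ⟨h1, a, b, by omega⟩)
      · exact Or.inr (Or.inr ⟨h1, a, b, by omega⟩)
    · exact h1.elim
  have hX0 : ∀ z, z ∉ CX lo hi Y' θ' := by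
    rw [hX']
    exact fun z => Finset.notMem_empty _
  -- the energies 23 and 24
  have h65 : ∀ n, n = 23 ∨ n = 24 → (∀ z ∈ bdR (unnat (N12 Y')), n ≤ cst 6 (h12 Y' θ') z) →
      ∀ z ∈ bdR (unnat (N12 Y')), cst 6 (h12 Y' θ') z ≠ n := by
    intro n hn hcost z hz hzn
    refine absurd (W'.step (n := n) (s := below P 6 + 6) (by omega) (by norm_num)
      (Or.inr (Or.inr hX')) (W'.card_pos (topOf z)) le_rfl (fun y hy _ => hcost y hy)
      (fun _ => 1) ?_ z hz (hX0 z) hzn) one_ne_zero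
    intro y hy _ hc
    rcases key' y hy with h1 | ⟨h1, h2, h3, -⟩ | ⟨-, -, -, h1⟩
    · omega
    · have h4 := lv_lt (h := h12 Y' θ') (z := y) h1 (B' := (lv P 6).card) (by omega)
      rw [h2] at h4
      rw [Nat.cast_one, one_mul]
      exact h4
    · omega
  have n23 := h65 23 (Or.inl rfl) (fun z hz => by
    rcases key' z hz with h1 | ⟨-, -, -, h1⟩ | ⟨-, -, -, h1⟩ <;> omega)
  have n24 := h65 24 (Or.inr rfl) (fun z hz => by
    have := n23 z hz
    rcases key' z hz with h1 | ⟨-, -, -, h1⟩ | ⟨-, -, -, h1⟩ <;> omega)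
  -- the energy 25
  have n25 : ∀ z ∈ bdR (unnat (N12 Y')), cst 6 (h12 Y' θ') z ≠ 25 := by
    intro z hz hzn
    have hz8 : nab 6 z = 8 := by
      rcases key' z hz with h1 | ⟨-, -, -, h1⟩ | ⟨-, h1, -⟩
      · omega
      · omega
      · exact h1
    have hle := nab_le z 6
    refine absurd (W'.step (n := 25) (s := below P 6 + 8) (B' := (lv P 6).card - 1)
      (by norm_num) (by norm_num)
      (Or.inr (Or.inr hX')) (by omega) (by omega) (fun y hy _ => ?_)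
      (fun _ => 1) ?_ z hz (hX0 z) hzn) one_ne_zero
    · have := n23 y hy
      have := n24 y hy
      rcases key' y hy with h1 | ⟨-, -, -, h1⟩ | ⟨-, -, -, h1⟩ <;> omega
    · intro y hy _ hc
      rcases key' y hy with h1 | ⟨-, -, -, h1⟩ | ⟨h1, h2, h3, -⟩
      · omega
      · omega
      · have hle := nab_le y 6
        have h4 := lv_lt (h := h12 Y' θ') (z := y) h1 (B' := (lv P 6).card - 1) (by omega)
        rw [h2] at h4
        rw [Nat.cast_one, one_mul]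
        exact h4
  have h28 : ∀ z ∈ bdR (unnat (N12 Y')), 28 ≤ cst 6 (h12 Y' θ') z := by
    intro z hz
    have h1 := n23 z hz
    have h2 := n24 z hz
    have h3 := n25 z hz
    rcases key' z hz with h4 | ⟨-, -, -, h4⟩ | ⟨-, -, -, h4⟩ <;> omega
  -- the energy 27
  obtain ⟨s1, -⟩ := W'.last (by norm_num) hX' (σ := -1) (by norm_num) (fun t => by
      have := hρ' t
      omega) (by norm_num) (fun z hz => (h28 z hz).trans' (by norm_num)) (fun _ => 0)
    (fun z hz hc => by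
      have := h28 z hz
      omega)
  refine ⟨?_, hC, hno, ?_⟩
  · intro z x x' hlz hzx hzx' hne hx
    have hzb := W'.jn_bd hlz hzx hzx' hne
    have l1 := (H.covBy_iff.mp hzx).2
    have l2 := (H.covBy_iff.mp hzx').2
    have hon : ∀ v : P, lev v = 12 → v ∈ onlyB (topOf v) := fun v hv =>
      only_low K.gt v (le_topOf v) hv.le
    have hcg : Sm.Cg z x x' := Sm.Cg.mk' hzx hzx' (hon x (by omega)) (hon x' (by omega)) hne
    obtain ⟨u1, u2⟩ := K.ends hcg hlz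
    have hj2 := hJ2 z x x' hlz hzx hzx' hne hx
    have hsum6 : nab 6 z = nab 6 x + nab 6 x' := hcg.sum H (by omega)
    -- a fold side
    have hfold : ∃ y y', z ⋖ y ∧ z ⋖ y' ∧ topOf y ≠ topOf y' ∧ lev y = 12 ∧
        (Win.uc y).card = 1 ∧ 3 ≤ nab 6 y := by
      rcases Nat.lt_or_ge (nab 6 x) 3 with h3 | h3
      · refine ⟨x', x, hzx', hzx, Ne.symm hne, by omega, u2, ?_⟩
        rcases hj2 with ⟨h4, -⟩ | ⟨h4, -⟩ <;> omega
      · exact ⟨x, x', hzx, hzx', hne, by omega, u1, h3⟩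
    obtain ⟨y, y', c1, c2, hne', hl, hu, h3⟩ := hfold
    have h4 := (((W'.ts (topOf y)).cost.ends y (le_topOf y) hl hu).1 h3).1
    obtain ⟨hh, -⟩ := W'.jn_jo hlz c1 c2 hne' h4
    have h5 := h28 z hzb
    rw [cst_S13 hh hlz] at h5
    rcases hj2 with ⟨-, -, h6⟩ | ⟨-, -, h6⟩ <;> omega
  · intro t z z' D hne h6 h5 h6' h5'
    have h1 := h01 t D z z' hne h6 h5 h6' h5'
    rw [s1 t] at h1
    exact lt_irrefl _ h1

end Pool.Agent.GaussPoset.W6
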