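import Pool.Agent.W_448w6_h53.WbA

/-!
The strip `La6` with elements of level 13 below the first two cells.
-/

namespace Pool.Agent.GaussPoset.W6

open Cl Dd Sg

/-- the up-sets -/
def Qaus : List ℕ := [67108863, 66060287, 65011711, 63963135, 63832063, 63815679, 50331647, 49283071, 48234495, 47185919, 47054847, 47038463, 33554431, 32505855, 31457279, 30408703, 30277631, 30261247, 16777215, 15728639, 14680063, 13631487, 13500415, 13484031, 12582911, 11534335, 10485759, 10223615, 9437183, 9306111, 9289727, 9175039, 9043967, 9027583, 9011199, 8994815, 8990719, 8989695, 8989439, 8388607, 7340031, 6291455, 5242879, 5111807, 5095423, 4194303, 3670015, 3145727, 2621439, 2097151, 1835007, 1572863, 1310719, 1245183, 1048575, 917503, 901119, 786431, 655359, 638975, 622591, 606207, 602111, 601087, 600831, 524287, 393215, 376831, 262143, 196607, 131071, 114687, 98303, 81919, 77823, 76799, 76543, 65535, 49151, 32767, 24575, 16383, 12287, 11263, 11007, 8191, 4095, 3071,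 2815, 2047, 1023, 767, 511, 383, 255, 191, 127, 63, 31, 15, 7, 3, 1, 0]

/-- the covers -/
def Qacv : List ℕ := [0, 1, 2, 4, 8, 16, 32, 32, 64, 192, 768, 512, 3072, 2048, 4096, 12288, 8192, 49152, 98304, 65536, 131072, 393216, 786432, 524288, 12582912, 12582912]

/-- the levels -/
def Qalv : List ℕ := [0, 1, 2, 3, 4, 5, 6, 6, 7, 7, 8, 8, 9, 9, 10, 10, 10, 11, 11, 11, 12, 12, 12, 12, 13, 13]

/-- the cells above -/
def Qaum : List ℕ := [1, 3, 7, 15, 31, 63, 127, 191, 383, 767, 2047, 2815, 8191, 11007, 24575, 49151, 76543, 196607, 376831, 600831, 1245183, 2621439, 5095423, 8989439, 30261247, 47038463]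

/-- the thresholds -/
def Qath : List ℕ := [0, 0, 0, 0, 0, 0, 0, 0, 1, 0, 1, 0, 1, 0, 2, 1, 0, 2, 1, 0, 3, 2, 1, 0, 1, 1]

/-- the up-sets above the base: code, `ℓ`, `M`, exponent, coefficient -/
def QaL : List (ℕ × ℕ × ℕ × ℕ × ℕ) := [(67108863, 14, 12, 176, 0), (66060287, 14, 11, 158, 0), (65011711, 14, 11, 158, 0), (63963135, 14, 10, 141, 0), (63832063, 14, 9, 125, 0), (63815679, 14, 8, 110, 0), (50331647, 14, 11, 158, 0), (49283071, 14, 10, 141, 0), (48234495, 14, 10, 141, 0), (47185919, 14, 9, 125, 0), (47054847, 14, 8, 110, 0), (47038463, 14, 7, 96, 0), (33554431, 14, 11, 158, 0), (32505855, 14, 10, 141, 0), (31457279, 14, 10, 141, 0), (30408703, 14, 9, 125, 0), (30277631, 14, 8, 110, 0), (30261247, 14, 7, 96, 0), (16777215, 13, 11, 158, 0), (15728639, 13, 10, 141, 0), (14680063, 13, 10, 141, 0), (13631487, 13, 9, 125, 0), (13500415, 13, 8, 110, 0), (13484031, 13, 7, 96, 0), (12582911, 13, 10, 141, 0), (11534335, 13, 9, 125, 0), (10485759, 13, 9, 125,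 0), (10223615, 13, 8, 110, 0), (9437183, 13, 8, 110, 0), (9306111, 13, 7, 96, 0), (9289727, 13, 6, 83, 0), (9175039, 13, 7, 96, 0), (9043967, 13, 6, 83, 0), (9027583, 13, 5, 71, 0), (9011199, 13, 5, 71, 0), (8994815, 13, 4, 60, 0), (8990719, 13, 3, 50, 0), (8989695, 13, 2, 41, 0), (8989439, 13, 1, 33, 0)]

/-- the complete up-sets -/
def QaF : List (ℕ × ℕ × ℕ × ℕ × ℕ) := [(67108863, 14, 12, 177, 1)]

theorem Qa_us : UsOK 26 (fun a => Qacv.getD a 0) Qaus :=
  usOK_of_chk (by decide +kernel)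

theorem Qa_pol1 : polF1 26 (2 ^ 100) 12 Qaus 6 (QaL) = true := by
  decide +kernel

theorem Qa_pol2 : polF2 26 (2 ^ 100) 12 Qaus (QaL) = true := by
  decide +kernel

theorem Qa_pol : polC 26 (2 ^ 100) 12 Qaus 6 (QaL) = true :=
  polC_of_fast Qa_pol1 Qa_pol2

theorem Qa_low : lowC 26 12 6 26 (fun a => Qalv.getD a 0) Qaus 8989439 QaL = true := by
  decide +kernel

theorem Qa_th : thChk 26 6 23 (fun a => Qalv.getD a 0) (fun a => Qacv.getD a 0)
    (fun a => Qaum.getD a 0) (fun a => Qath.getD a 0) = true := by decide +kernel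

theorem Qa_bm : bmC 26 6 23 8989439 (fun a => Qalv.getD a 0)
    (fun a => Qaum.getD a 0) = true := by decide +kernel

theorem Qa_neg1 : polG1 26 (2 ^ 100) 12 Qaus 6 QaF = true := by
  decide +kernel

theorem Qa_neg2 : polF2 26 (2 ^ 100) 12 Qaus QaF = true := by
  decide +kernel

theorem Qa_neg : polN 26 (2 ^ 100) 12 Qaus 6 QaF = true :=
  polN_of_fast Qa_neg1 Qa_neg2

theorem Qa_num : ∀ x ∈ QaF, numC 26 12 6 27 (fun a => Qalv.getD a 0) x = true := by
  decide +kernel

theorem Qa_mem : ∀ x ∈ QaF, x.1 ∈ Qaus := by decide +kernel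

end Pool.Agent.GaussPoset.W6
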