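import Pool.Agent.W_448w6_h53.WbA

/-!
The strip `La6`: one element below the first two cells, pendants below it.
-/

namespace Pool.Agent.GaussPoset.W6

open Cl Dd Sg

/-- the up-sets -/
def Qgus : List ℕ := [134217727, 133169151, 132120575, 131071999, 130940927, 130924543, 100663295, 99614719, 98566143, 97517567, 97386495, 97370111, 67108863, 66060287, 65011711, 63963135, 63832063, 63815679, 33554431, 32505855, 31457279, 30408703, 30277631, 30261247, 16777215, 15728639, 14680063, 13631487, 13500415, 13484031, 12582911, 11534335, 10485759, 10223615, 9437183, 9306111, 9289727, 9175039, 9043967, 9027583, 9011199, 8994815, 8990719, 8989695, 8989439, 8388607, 7340031, 6291455, 5242879, 5111807, 5095423, 4194303, 3670015, 3145727, 2621439, 2097151, 1835007, 1572863, 1310719, 1245183, 1048575, 917503, 901119, 786431, 655359, 638975, 622591, 606207, 602111, 601087, 600831, 524287, 393215, 376831, 262143, 196607, 131071, 114687, 98303, 81919, 77823, 76799, 76543, 65535, 49151,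 32767, 24575, 16383, 12287, 11263, 11007, 8191, 4095, 3071, 2815, 2047, 1023, 767, 511, 383, 255, 191, 127, 63, 31, 15, 7, 3, 1, 0]

/-- the covers -/
def Qgcv : List ℕ := [0, 1, 2, 4, 8, 16, 32, 32, 64, 192, 768, 512, 3072, 2048, 4096, 12288, 8192, 49152, 98304, 65536, 131072, 393216, 786432, 524288, 12582912, 16777216, 16777216]

/-- the levels -/
def Qglv : List ℕ := [0, 1, 2, 3, 4, 5, 6, 6, 7, 7, 8, 8, 9, 9, 10, 10, 10, 11, 11, 11, 12, 12, 12, 12, 13, 14, 14]

/-- the cells above -/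
def Qgum : List ℕ := [1, 3, 7, 15, 31, 63, 127, 191, 383, 767, 2047, 2815, 8191, 11007, 24575, 49151, 76543, 196607, 376831, 600831, 1245183, 2621439, 5095423, 8989439, 30261247, 63815679, 97370111]

/-- the thresholds -/
def Qgth : List ℕ := [0, 0, 0, 0, 0, 0, 0, 0, 1, 0, 1, 0, 1, 0, 2, 1, 0, 2, 1, 0, 3, 2, 1, 0, 1, 2, 2]

/-- the up-sets above the base: code, `ℓ`, `M`, exponent, coefficient -/
def QgL : List (ℕ × ℕ × ℕ × ℕ × ℕ) := [(134217727, 15, 12, 177, 0), (133169151, 15, 11, 159, 0), (132120575, 15, 11, 159, 0), (131071999, 15, 10, 142, 0), (130940927, 15, 9, 126, 0), (130924543, 15, 8, 111, 0), (100663295, 15, 11, 159, 0), (99614719, 15, 10, 142, 0), (98566143, 15, 10, 142, 0), (97517567, 15, 9, 126, 0), (97386495, 15, 8, 111, 0), (97370111, 15, 7, 97, 0), (67108863, 15, 11, 159, 0), (66060287, 15, 10, 142, 0), (65011711, 15, 10, 142, 0), (63963135, 15, 9, 126, 0), (63832063, 15, 8, 111, 0), (63815679, 15, 7, 97, 0), (33554431, 14, 11, 159, 0), (32505855, 14,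 10, 142, 0), (31457279, 14, 10, 142, 0), (30408703, 14, 9, 126, 0), (30277631, 14, 8, 111, 0), (30261247, 14, 7, 97, 0), (16777215, 13, 11, 159, 0), (15728639, 13, 10, 142, 0), (14680063, 13, 10, 142, 0), (13631487, 13, 9, 126, 0), (13500415, 13, 8, 111, 0), (13484031, 13, 7, 97, 0), (12582911, 13, 10, 142, 0), (11534335, 13, 9, 126, 0), (10485759, 13, 9, 126, 0), (10223615, 13, 8, 111, 0), (9437183, 13, 8, 111, 0), (9306111, 13, 7, 97, 0), (9289727, 13, 6, 84, 0), (9175039, 13, 7, 97, 0), (9043967, 13, 6, 84, 0), (9027583, 13, 5, 72, 0), (9011199, 13, 5, 72, 0), (8994815, 13, 4, 61, 0), (8990719, 13, 3, 51, 0), (8989695, 13, 2, 42, 0), (8989439, 13, 1, 34, 0)]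

/-- the complete up-sets -/
def QgF : List (ℕ × ℕ × ℕ × ℕ × ℕ) := []

theorem Qg_us : UsOK 27 (fun a => Qgcv.getD a 0) Qgus :=
  usOK_of_chk (by decide +kernel)

theorem Qg_pol1 : polF1 27 (2 ^ 100) 12 Qgus 6 (QgL ++ QgF) = true := by
  decide +kernel

theorem Qg_pol2 : polF2 27 (2 ^ 100) 12 Qgus (QgL ++ QgF) = true := by
  decide +kernel

theorem Qg_pol : polC 27 (2 ^ 100) 12 Qgus 6 (QgL ++ QgF) = true :=
  polC_of_fast Qg_pol1 Qg_pol2

theorem Qg_low : lowC 27 12 6 27 (fun a => Qglv.getD a 0) Qgus 8989439 QgL = true := by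
  decide +kernel

theorem Qg_th : thChk 27 6 23 (fun a => Qglv.getD a 0) (fun a => Qgcv.getD a 0)
    (fun a => Qgum.getD a 0) (fun a => Qgth.getD a 0) = true := by decide +kernel

theorem Qg_bm : bmC 27 6 23 8989439 (fun a => Qglv.getD a 0)
    (fun a => Qgum.getD a 0) = true := by decide +kernel

end Pool.Agent.GaussPoset.W6
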