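import Pool.Agent.W_448w6_h53.WbA

/-!
The strip `La5`, pendants below the last cell.
-/

namespace Pool.Agent.GaussPoset.W6

open Cl Dd Sg

/-- the up-sets -/
def Qhus : List ℕ := [134217727, 130023423, 125829119, 121634815, 121110527, 100663295, 96468991, 92274687, 88080383, 87556095, 67108863, 62914559, 58720255, 54525951, 54001663, 33554431, 29360127, 25165823, 20971519, 20447231, 16777215, 14680063, 14417919, 12582911, 10485759, 10223615, 8388607, 7340031, 6291455, 6029311, 5242879, 5111807, 4980735, 4849663, 4816895, 4194303, 3670015, 3145727, 2621439, 2555903, 2547711, 2097151, 1835007, 1572863, 1310719, 1048575, 917503, 786431, 655359, 622591, 524287, 458751, 450559, 393215, 327679, 319487, 311295, 303103, 301055, 300543, 300415, 262143, 196607, 188415, 131071, 98303, 65535, 57343, 49151, 40959, 38911, 38399, 38271, 32767, 24575, 16383, 12287, 8191, 6143, 5631, 5503, 4095, 2047, 1535, 1407, 1023, 511, 383, 255, 191, 127, 95, 63, 31, 15, 7, 3, 1, 0]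

/-- the covers -/
def Qhcv : List ℕ := [0, 1, 2, 4, 8, 16, 16, 32, 96, 384, 256, 1536, 1024, 2048, 6144, 4096, 24576, 49152, 32768, 65536, 196608, 393216, 524288, 1572864, 3145728, 16777216, 16777216]

/-- the levels -/
def Qhlv : List ℕ := [0, 1, 2, 3, 4, 5, 5, 6, 6, 7, 7, 8, 8, 9, 9, 9, 10, 10, 10, 11, 11, 11, 12, 12, 12, 13, 13]

/-- the cells above -/
def Qhum : List ℕ := [1, 3, 7, 15, 31, 63, 95, 191, 383, 1023, 1407, 4095, 5503, 12287, 24575, 38271, 98303, 188415, 300415, 622591, 1310719, 2547711, 4816895, 10223615, 20447231, 54001663, 87556095]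

/-- the thresholds -/
def Qhth : List ℕ := [0, 0, 0, 0, 0, 0, 0, 0, 0, 0, 0, 0, 0, 1, 0, 0, 1, 0, 0, 2, 1, 0, 3, 2, 1, 2, 2]

/-- the up-sets above the base: code, `ℓ`, `M`, exponent, coefficient -/
def QhL : List (ℕ × ℕ × ℕ × ℕ × ℕ) := [(134217727, 14, 13, 195, 0), (130023423, 14, 12, 176, 0), (125829119, 14, 12, 176, 0), (121634815, 14, 11, 158, 0), (121110527, 14, 10, 141, 0), (100663295, 14, 12, 176, 0), (96468991, 14, 11, 158, 0), (92274687, 14, 11, 158, 0), (88080383, 14, 10, 141, 0), (87556095, 14, 9, 125, 0), (67108863, 14, 12, 176, 0), (62914559, 14, 11, 158, 0), (58720255, 14, 11, 158, 0), (54525951, 14, 10, 141, 0), (54001663, 14, 9, 125, 0), (33554431, 13, 12, 176, 0), (29360127, 13, 11, 158, 0), (25165823, 13, 11, 158, 0), (20971519, 13, 10, 141, 0), (20447231, 13, 9, 125, 0), (16777215, 13, 11, 158, 0), (12582911, 13, 10, 141, 0), (8388607, 13, 10, 141, 0), (7340031, 13, 9, 125, 0), (4194303, 12, 10, 141, 0), (3670015, 12, 9, 125, 0), (3145727, 12,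 9, 125, 0), (2621439, 12, 8, 110, 0), (2555903, 12, 7, 96, 0), (2547711, 12, 6, 83, 0)]

/-- the complete up-sets -/
def QhF : List (ℕ × ℕ × ℕ × ℕ × ℕ) := []

theorem Qh_us : UsOK 27 (fun a => Qhcv.getD a 0) Qhus :=
  usOK_of_chk (by decide +kernel)

theorem Qh_pol1 : polF1 27 (2 ^ 100) 13 Qhus 6 (QhL ++ QhF) = true := by
  decide +kernel

theorem Qh_pol2 : polF2 27 (2 ^ 100) 13 Qhus (QhL ++ QhF) = true := by
  decide +kernel

theorem Qh_pol : polC 27 (2 ^ 100) 13 Qhus 6 (QhL ++ QhF) = true :=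
  polC_of_fast Qh_pol1 Qh_pol2

theorem Qh_low : lowC 27 13 6 27 (fun a => Qhlv.getD a 0) Qhus 2547711 QhL = true := by
  decide +kernel

theorem Qh_th : thChk 27 6 21 (fun a => Qhlv.getD a 0) (fun a => Qhcv.getD a 0)
    (fun a => Qhum.getD a 0) (fun a => Qhth.getD a 0) = true := by decide +kernel

theorem Qh_bm : bmC 27 6 21 2547711 (fun a => Qhlv.getD a 0)
    (fun a => Qhum.getD a 0) = true := by decide +kernel

end Pool.Agent.GaussPoset.W6
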