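import Pool.Agent.W_448j8_h67.JaR
import Pool.Agent.W_448s14_h94.SgN
import Pool.Agent.W_448hcc_h53.HcH
import Pool.Agent.W_448w6_h53.WbA

/-!
The components at the window 6, level 12: data of one component; light and rectangle-like
components, quadric, `E7` (MP_448cb3_co, `j = 12`).
-/

namespace Pool.Agent.GaussPoset.W6

set_option linter.unusedSectionVars false

open Polynomial Finset Dd Wd Cl

universe u

variable {P : Type u} [Fintype P] [PartialOrder P] [DecidableEq P] {r : ℕ}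
variable {t : Tops P} {lo hi : ℕ → ℕ} {e : ℕ → ℕ → P}

/-- numbers of elements of the levels 6, ..., 11 above `x`: the fold end -/
def Fp (x : P) : Prop := nab 6 x = 4 ∧ nab 7 x = 3 ∧ nab 8 x = 3 ∧ nab 9 x = 2 ∧ nab 10 x = 2 ∧
  nab 11 x = 1

/-- two elements of the level 6, one of the levels 7, ..., 11 -/
def Qp (x : P) : Prop := nab 6 x = 2 ∧ nab 7 x = 1 ∧ nab 8 x = 1 ∧ nab 9 x = 1 ∧ nab 10 x = 1 ∧
  nab 11 x = 1

/-- `z` covers exactly the fold end and the straight end of the stair `t` -/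
def IsCx (t : Tops P) (b : ℕ) (θ : P → ℕ) (z : P) : Prop :=
  ∃ Nc co F S, CEl (P := P) t Nc co 6 z F S ∧ b = 4 ∧ θ F = 0

/-- the costs of one component -/
structure TB (T : ℕ) (q : Prop) (t : Tops P) (b : ℕ) (Y : Finset P) (θ : P → ℕ) : Prop where
  b_one : 1 ≤ b
  Ylev : ∀ y ∈ Y, 12 < lev y
  Yup : ∀ y ∈ Y, ∀ v, y ⋖ v → v ∈ lowPart 12 (t : P) ∪ Y
  costY : ∀ y ∈ Y, ∀ z, z ⋖ y → z ∉ Y → T ≤ ct 6 (θ y + 1) z
  pend : ∀ x z, x ≤ (t : P) → lev x = 12 → z ⋖ x → (∀ y, z ⋖ y → y = x) → z ∉ Y →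
    T ≤ ct 6 (θ x + 1) z ∨ (θ x = 0 ∧ (Fp x ∨ Qp x))
  own : ∀ x x' z, x ≠ x' → x ≤ (t : P) → x' ≤ (t : P) → lev x = 12 → lev x' = 12 → z ⋖ x →
    z ⋖ x' → z ∉ Y → θ x ≤ θ x' → T ≤ ct 6 (θ x + 1) z ∨ (q ∧ IsCx t b θ z)
  ends : ∀ x, x ≤ (t : P) → lev x = 12 → (Win.uc x).card = 1 →
    (3 ≤ nab 6 x → θ x = 0 ∧ Fp x) ∧ (θ x = 0 → Fp x ∨ Qp x)
  endc : ∀ x, x ≤ (t : P) → lev x = 12 → (Win.uc x).card = 1 → θ x ≠ 0 →
    T ≤ ct 6 (θ x + 1) x + 13
  Yp : ∀ y ∈ Y, ∀ x, Pend y x → lev x = 12 → nab 6 x ≤ 2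

/-- the orders below the energy `n0` -/
def DT (n0 : ℕ) (t : Tops P) (b : ℕ) (Y : Finset P) (θ : P → ℕ) (B : P → Prop) : Prop :=
  ∀ N : Tops P → Finset P, NatSys N → (∀ s : Tops P, lowPart 12 (s : P) ⊆ N s) →
    N t = lowPart 12 (t : P) ∪ Y → ∀ θ' B', (∀ x ∈ N t, θ' x = θ x) →
    (∀ x ∈ N t, (B' x ↔ B x)) → CompDataL (unnat N) topOf t 6 b n0 θ' B'

/-- the value at the energy `n0` -/
def PT (n0 : ℕ) (t : Tops P) (b : ℕ) (ρ : ℤ) (Y : Finset P) : Prop :=
  ∀ N : Tops P → Finset P, NatSys N → (∀ s : Tops P, lowPart 12 (s : P) ⊆ N s) →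
    N t = lowPart 12 (t : P) ∪ Y →
    (ρ = 0 ∧ (1 + X : ℤ[X]) ^ b ∣ Z {x : {x : P // x ∉ unnat N} // topOf (x : P) = t} 6 n0) ∨
    ∀ f, (∀ n, exq n f = Z {x : {x : P // x ∉ unnat N} // topOf (x : P) = t} 6 n) → Pl n0 b ρ f

/-- the data of one component -/
structure TS (T n0 : ℕ) (q : Prop) (t : Tops P) (b : ℕ) (ρ : ℤ) (Y : Finset P) (θ : P → ℕ)
    (B : P → Prop) : Prop where
  cost : TB T q t b Y θ
  data : DT n0 t b Y θ B
  pl : PT n0 t b ρ Y

lemma TB.mono {T T' : ℕ} {q : Prop} {b : ℕ} {Y : Finset P} {θ : P → ℕ} (h : TB T q t b Y θ)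
    (hT : T' ≤ T) : TB T' q t b Y θ where
  b_one := h.b_one
  Ylev := h.Ylev
  Yup := h.Yup
  costY := fun y hy z hz hzY => hT.trans (h.costY y hy z hz hzY)
  pend := fun x z h1 h2 h3 h4 h5 => (h.pend x z h1 h2 h3 h4 h5).imp_left fun g => hT.trans g
  own := fun x x' z h1 h2 h3 h4 h5 h6 h7 h8 h9 =>
    (h.own x x' z h1 h2 h3 h4 h5 h6 h7 h8 h9).imp_left fun g => hT.trans g
  ends := h.ends
  endc := fun x h1 h2 h3 h4 => hT.trans (h.endc x h1 h2 h3 h4)
  Yp := h.Yp

lemma TB.noq {T : ℕ} {q q' : Prop} {b : ℕ} {Y : Finset P} {θ : P → ℕ} (h : TB T q t b Y θ)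
    (hq : ∀ z, z ∉ Y → q → ¬ IsCx t b θ z) : TB T q' t b Y θ where
  b_one := h.b_one
  Ylev := h.Ylev
  Yup := h.Yup
  costY := h.costY
  pend := h.pend
  own := fun x x' z h1 h2 h3 h4 h5 h6 h7 h8 h9 => by
    rcases h.own x x' z h1 h2 h3 h4 h5 h6 h7 h8 h9 with g | ⟨g1, g2⟩
    · exact Or.inl g
    · exact absurd g2 (hq z h8 g1)
  ends := h.ends
  endc := h.endc
  Yp := h.Yp

lemma DT.mono {n0 n1 : ℕ} {b : ℕ} {Y : Finset P} {θ : P → ℕ} {B : P → Prop}
    (h : DT n0 t b Y θ B) (hn : n1 ≤ n0) : DT n1 t b Y θ B :=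
  fun N HN hlow hN θ' B' hθ hB => J8.CompDataL.of_le (h N HN hlow hN θ' B' hθ hB) hn

lemma unnat_lev12 {N : Tops P → Finset P} (hlow : ∀ s : Tops P, lowPart 12 (s : P) ⊆ N s)
    {x : P} (hx : x ∈ unnat N) : 12 < lev x := by
  by_contra hcon
  exact mem_unnat.mp hx (topOf x) (hlow _ (mem_lowPart.mpr ⟨le_topOf x, by omega⟩))

lemma DT.pt {n0 n1 : ℕ} {b : ℕ} {Y : Finset P} {θ : P → ℕ} {B : P → Prop}
    (h : DT n0 t b Y θ B) (hn : n1 < n0) : PT n1 t b 0 Y := by
  classical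
  intro N HN hlow hN
  left
  refine ⟨rfl, ?_⟩
  have h1 := h N HN hlow hN θ (fun x => x ∉ unnat N ∧ B x) (fun _ _ => rfl)
    (fun x hx => and_iff_right (HN.mem_iff.mp hx).1)
  exact h1.clean (unnat N) ⟨HN.lower, Subset.refl _, fun x hx => by
    have := unnat_lev12 hlow hx
    omega, fun x hx h => h.1 hx⟩ inferInstance n1 hn

/-- the common types -/
lemma TS.of {T n0 : ℕ} {q : Prop} {b : ℕ} {Y : Finset P} {θ : P → ℕ} {B : P → Prop}
    (h1 : TB 28 q t b Y θ) (h2 : DT 28 t b Y θ B) (hT : T ≤ 28) (hn : n0 ≤ 27) :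
    TS T n0 q t b 0 Y θ B :=
  ⟨h1.mono hT, h2.mono (by omega), h2.pt (by omega)⟩

/-! ### general bounds -/

/-- the lower bound of the costs from one element above of every level -/
lemma ct_ge13 {x : P} (hl : lev x = 13) (k : ℕ) :
    ∑ l ∈ range 14, min k (l - 6) ≤ ct 6 k x := by
  unfold ct
  rw [cst_eq, hl]
  refine Finset.sum_le_sum fun l hl2 => ?_
  rw [mem_range] at hl2
  have := one_le_nab (z := x) (l := l) (by omega)
  calc min k (l - 6) = min k (l - 6) * 1 := (Nat.mul_one _).symm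
    _ ≤ _ := Nat.mul_le_mul_left _ this


/-- the same at level 12 -/
lemma ct_ge12 {x : P} (hl : lev x = 12) (k : ℕ) :
    ∑ l ∈ range 13, min k (l - 6) ≤ ct 6 k x := by
  unfold ct
  rw [cst_eq, hl]
  refine Finset.sum_le_sum fun l hl2 => ?_
  rw [mem_range] at hl2
  have := one_le_nab (z := x) (l := l) (by omega)
  calc min k (l - 6) = min k (l - 6) * 1 := (Nat.mul_one _).symm
    _ ≤ _ := Nat.mul_le_mul_left _ this

lemma ct_three {x : P} (hl : lev x = 12) {k : ℕ} (hk : 3 ≤ k) : 28 ≤ ct 6 k x + 13 := by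
  have h1 := ct_ge12 hl 3
  have h2 : ∑ l ∈ range 13, min 3 (l - 6) = 15 := by decide +kernel
  have h3 := ct_mono (i := 6) (le_refl x) hk
  omega

lemma ct_two {x : P} (hl : lev x = 12) {k : ℕ} (hk : 2 ≤ k) : 24 ≤ ct 6 k x + 13 := by
  have h1 := ct_ge12 hl 2
  have h2 : ∑ l ∈ range 13, min 2 (l - 6) = 11 := by decide +kernel
  have h3 := ct_mono (i := 6) (le_refl x) hk
  omega

lemma light_k : ∑ l ∈ range 14, min 7 (l - 6) = 28 := by decide +kernel

lemma rect_k : ∀ s < 13, s ≠ 6 → 28 ≤ (∑ a ∈ range (s + 1),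
    rowW false (fun k => min ((s - 6) + (12 - s - 6) + 1) (k - 6)) (12 - s) 12 a) +
      min ((s - 6) + (12 - s - 6) + 1) 7 := by decide +kernel

/-- at most as many elements above as in the row -/
lemma nab_le_row (h : Win.GoodTo P r 12) (C : Cp.Comp 12 (t : P) lo hi e) {x : P}
    (hx : x ≤ (t : P)) (hl : lev x ≤ 12) {l : ℕ} (hl2 : l ≤ 12) : nab l x + lo l ≤ hi l + 1 := by
  classical
  have h1 : (lv P l).filter (fun y => x ≤ y) ⊆ (Finset.Icc (lo l) (hi l)).image (e l) := by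
    intro y hy
    rw [mem_filter, mem_lv] at hy
    have h2 := Cp.up_le h.H h.good t.2 hx hl hy.2
    obtain ⟨s, s1, s2, hs⟩ := C.surj y h2 (by omega)
    rw [hy.1] at s1 s2 hs
    exact mem_image.mpr ⟨s, Finset.mem_Icc.mpr ⟨s1, s2⟩, hs⟩
  have h2 := (Finset.card_le_card h1).trans Finset.card_image_le
  rw [Nat.card_Icc] at h2
  have h3 := C.lo_le l hl2
  unfold nab
  omega

/-- the elements below a cell of level 12 -/
lemma ct_below (H : Gr P r) {x z : P} (hl : lev x = 12) (hzx : z ⋖ x) (k : ℕ) :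
    min k 7 + ct 6 k x ≤ ct 6 k z := by
  have h1 := (H.covBy_iff.mp hzx).2
  have h2 := ct_cov (i := 6) (k := k) hzx.1
  rw [h1, hl] at h2
  exact h2

/-- orders from a natural set which contains the strip -/
lemma dt_nat {b : ℕ} {N' : Finset P} {θ : P → ℕ} {B : P → Prop} (H : NatTop 6 t b N' θ B)
    (h1 : lowPart 12 (t : P) ⊆ N') (h2 : ∀ x ∈ N', B x → x ∈ lowPart 12 (t : P)) (n0 : ℕ) :
    DT n0 t b ∅ θ B := by
  intro N HN hlow hN θ' B' hθ hB
  refine J8.compL_nat HN H ?_ ?_ hθ hB n0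
  · intro x hx
    rw [hN, Finset.union_empty] at hx
    exact h1 hx
  · intro x hx hb
    rw [hN, Finset.union_empty]
    exact h2 x hx hb

/-- costs of a component without additional elements -/
lemma tb_nat {b : ℕ} {θ : P → ℕ} (h0 : 1 ≤ b)
    (h1 : ∀ x z, x ≤ (t : P) → lev x = 12 → z ⋖ x → (∀ y, z ⋖ y → y = x) →
      28 ≤ ct 6 (θ x + 1) z ∨ (θ x = 0 ∧ (Fp x ∨ Qp x)))
    (h2 : ∀ x x' z, x ≠ x' → x ≤ (t : P) → x' ≤ (t : P) → lev x = 12 → lev x' = 12 → z ⋖ x →
      z ⋖ x' → θ x ≤ θ x' → 28 ≤ ct 6 (θ x + 1) z)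
    (h3 : ∀ x, x ≤ (t : P) → lev x = 12 → (Win.uc x).card = 1 →
      (3 ≤ nab 6 x → θ x = 0 ∧ Fp x) ∧ (θ x = 0 → Fp x ∨ Qp x))
    (h4 : ∀ x, x ≤ (t : P) → lev x = 12 → (Win.uc x).card = 1 → θ x ≠ 0 → 2 ≤ θ x) :
    TB 28 True t b ∅ θ where
  b_one := h0
  Ylev := fun y hy => absurd hy (Finset.notMem_empty _)
  Yup := fun y hy => absurd hy (Finset.notMem_empty _)
  costY := fun y hy => absurd hy (Finset.notMem_empty _)
  pend := fun x z g1 g2 g3 g4 _ => h1 x z g1 g2 g3 g4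
  own := fun x x' z g1 g2 g3 g4 g5 g6 g7 _ g9 => Or.inl (h2 x x' z g1 g2 g3 g4 g5 g6 g7 g9)
  ends := h3
  endc := fun x g1 g2 g3 g4 => ct_three g2 (by have := h4 x g1 g2 g3 g4; omega)
  Yp := fun y hy => absurd hy (Finset.notMem_empty _)

/-- light components -/
theorem light_ts (h : Win.GoodTo P r 12) (C : Cp.Comp 12 (t : P) lo hi e) (h6 : hi 6 = lo 6) :
    TB 28 True t 1 ∅ (fun x => lev x - 6) ∧
      DT 28 t 1 ∅ (fun x : P => lev x - 6) (fun _ => False) := by
  have hc : ∀ x z : P, lev x = 12 → z ⋖ x → 28 ≤ ct 6 (lev x - 6 + 1) z := by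
    intro x z hl hzx
    have h1 := (h.H.covBy_iff.mp hzx).2
    have h2 := ct_ge13 (x := z) (by omega) 7
    rw [light_k] at h2
    rw [hl]
    exact h2
  refine ⟨tb_nat le_rfl (fun x z _ hl hzx _ => Or.inl (hc x z hl hzx))
    (fun x x' z _ _ _ hl _ hzx _ _ => hc x z hl hzx) ?_
    (fun x _ hl _ _ => by show 2 ≤ lev x - 6; omega), ?_⟩
  · intro x hx hl _
    have := nab_le_row h C hx hl.le (l := 6) (by norm_num)
    exact ⟨fun h3 => by omega, fun h3 => by omega⟩
  · refine dt_nat (exists_light (t := t) C h.H h.good h.H.gradedBelow (i := 6) (by norm_num))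
      ?_ (fun x _ hx => absurd hx (by simp)) 28
    intro x hx
    rw [mem_lowPart] at hx
    exact only_low h x hx.1 hx.2

/-- above an element which is not below the cell `(6, 6)` -/
lemma rect_extra {Nc : Finset P} {co : P → ℕ × ℕ} (C : Chart (t : P) (fun _ => True) Nc co)
    {x x' : P} (hx : x ∈ Nc) (hx' : x' ∈ Nc) (hcx : co x = (6, 6)) (hlx' : lev x' = 12)
    (hne : x ≠ x') {l : ℕ} (h5 : 7 ≤ l) (h8 : l ≤ 12) :
    ∃ u, x' ≤ u ∧ lev u = l ∧ ¬ x ≤ u := by
  have hl := C.lev x' hx'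
  have hne' : co x' ≠ (6, 6) := fun h => hne (C.inj x hx x' hx' (by rw [hcx, h]))
  have key : 7 ≤ (co x').1 ∨ 7 ≤ (co x').2 := by
    by_contra hcon
    push Not at hcon
    exact hne' (Prod.ext (by simp only; omega) (by simp only; omega))
  rcases key with hk | hk
  · obtain ⟨u, hu, hcu⟩ := C.low x' hx' (min l (co x').1, l - min l (co x').1)
      ⟨by simp only; omega, by simp only; omega⟩ trivial
    refine ⟨u, ?_, ?_, ?_⟩
    · rw [C.le_iff x' hx' u hu, hcu]
      exact ⟨by simp only; omega, by simp only; omega⟩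
    · rw [C.lev u hu, hcu]
      simp only
      omega
    · rw [C.le_iff x hx u hu, hcu, hcx]
      rintro ⟨h1, -⟩
      simp only at h1
      omega
  · obtain ⟨u, hu, hcu⟩ := C.low x' hx' (l - min l (co x').2, min l (co x').2)
      ⟨by simp only; omega, by simp only; omega⟩ trivial
    refine ⟨u, ?_, ?_, ?_⟩
    · rw [C.le_iff x' hx' u hu, hcu]
      exact ⟨by simp only; omega, by simp only; omega⟩
    · rw [C.lev u hu, hcu]
      simp only
      omega
    · rw [C.le_iff x hx u hu, hcu, hcx]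
      rintro ⟨-, h1⟩
      simp only at h1
      omega

/-- the cost of the label one by the numbers above -/
lemma ct_one13 {z : P} (hl : lev z = 13) : ct 6 1 z = nab 7 z + nab 8 z + nab 9 z + nab 10 z +
    nab 11 z + nab 12 z + 1 := by
  have h9 : nab 13 z = 1 := by
    have := nab_self (z := z)
    rwa [hl] at this
  unfold ct
  rw [cst_eq, hl]
  simp only [Finset.sum_range_succ, Finset.sum_range_zero, h9]
  norm_num

/-- rectangle-like components -/
theorem rect_ts (h : Win.GoodTo P r 12) (C : Cp.Comp 12 (t : P) lo hi e)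
    (h1 : lo 1 = 0 ∧ hi 1 = 1) (S : RectShape 12 lo hi) :
    ∃ θ B, TB 28 True t (hi 6 - lo 6 + 1) ∅ θ ∧ DT 28 t (hi 6 - lo 6 + 1) ∅ θ B := by
  classical
  have H := h.H
  have hg := h.good
  have hlt : lo 6 < hi 6 := by
    have g1 := C.lo_mono (l := 1) (d := 5) (by norm_num)
    have g2 := C.hi_mono (l := 1) (d := 5) (by norm_num)
    norm_num at g1 g2
    by_contra hcon
    have g3 := C.lo_le 6 (by norm_num)
    have g4 := shape_lo C S.lo (l := 6) (by omega) 6 (by norm_num)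
    have g5 := shape_hi C S.hi (l := 6) (by omega) 6 (by norm_num)
    have g6 := C.lo_le (6 + 6) (by norm_num)
    omega
  obtain ⟨Nc, co, R, -⟩ := exists_rect C H hg H.gradedBelow S (i := 6) (by norm_num) hlt
  have hnop : ∀ x z : P, x ≤ (t : P) → lev x = 12 → (Win.uc x).card = 2 → z ⋖ x →
      (∀ y, z ⋖ y → y = x) → False := fun x z hxt hxl hx2 hzx honly =>
    rectShape_no_pendant (i := 11) h (by norm_num) t.2 C S hxl hxt hx2 hzx honly
  have hR := R.natTop H.gradedBelow (by norm_num)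
  have hmem : ∀ x, x ≤ (t : P) → lev x = 12 → x ∈ Nc := fun x hx hl =>
    R.strip (mem_lowPart.mpr ⟨hx, hl.le⟩)
  have hb := R.b_le
  have hth : ∀ x ∈ Nc, lev x = 12 → thR 6 (hi 6 - lo 6 + 1) Nc co x = 6 ∨
      thR 6 (hi 6 - lo 6 + 1) Nc co x =
        ((co x).1 - (hi 6 - lo 6 + 1 - 1)) + ((co x).2 - 6) := by
    intro x hx hl
    unfold thR
    split_ifs with hj
    · left; omega
    · right; rfl
  -- cells different from `(6, 6)`
  have hcell : ∀ x z : P, x ∈ Nc → lev x = 12 → (co x).1 ≠ 6 → z ⋖ x →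
      28 ≤ ct 6 (thR 6 (hi 6 - lo 6 + 1) Nc co x + 1) z := by
    intro x z hx hl h6 hzx
    have hlc := R.chart.lev x hx
    rcases hth x hx hl with h2 | h2
    · have h3 := (H.covBy_iff.mp hzx).2
      have h4 := ct_ge13 (x := z) (by omega) 7
      rw [light_k] at h4
      rw [h2]
      exact h4
    · have h5 := rect_k (co x).1 (by omega) h6
      have h6' := ct_chart R.chart (shift := false) (by simp) hx 6
        (((co x).1 - 6) + ((co x).2 - 6) + 1)
      rw [hl, show (co x).2 = 12 - (co x).1 by omega] at h6'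
      rw [← h6'] at h5
      have h7 := ct_below H hl hzx (((co x).1 - 6) + (12 - (co x).1 - 6) + 1)
      have h8 : ct 6 (((co x).1 - 6) + (12 - (co x).1 - 6) + 1) z ≤
          ct 6 (thR 6 (hi 6 - lo 6 + 1) Nc co x + 1) z := by
        refine ct_mono le_rfl ?_
        rw [h2]
        omega
      omega
  refine ⟨thR 6 (hi 6 - lo 6 + 1) Nc co,
    fun x => x ∈ Nc ∧ co x = (hi 6 - lo 6 + 1 - 1, 6), ?_, ?_⟩
  · refine tb_nat (by omega) ?_ ?_ ?_ ?_
    · intro x z hxt hl hzx honly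
      left
      have hx := hmem x hxt hl
      have hlc := R.chart.lev x hx
      refine hcell x z hx hl ?_ hzx
      intro h6
      exact hnop x z hxt hl (chart_inner_uc R.chart H hx (by omega) (by omega)) hzx honly
    · intro x x' z hne hxt hxt' hl hl' hzx hzx' _
      have hx := hmem x hxt hl
      have hx' := hmem x' hxt' hl'
      have hlc := R.chart.lev x hx
      by_cases h6 : (co x).1 = 6
      · have hc : co x = (6, 6) := Prod.ext h6 (by simp only; omega)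
        have hlz : lev z = 13 := by
          have := (H.covBy_iff.mp hzx).2
          omega
        have hn : ∀ l, 7 ≤ l → l ≤ 12 → 14 - l ≤ nab l z := by
          intro l g1 g2
          obtain ⟨u, hu1, hu2, hu3⟩ := rect_extra R.chart hx hx' hc hl' hne g1 g2
          have h2 := J8.nab_extra hzx.1.le (hzx'.1.le.trans hu1) hu2 hu3
          have h3 := nab_chart R.chart hx l
          have h4 := card_cellsAt_true (l := l) (p := co x) (by rw [hc]; simp only; omega)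
          rw [hc] at h3 h4
          simp only at h4
          omega
        have n7 := hn 7 le_rfl (by norm_num)
        have n8 := hn 8 (by norm_num) (by norm_num)
        have n9 := hn 9 (by norm_num) (by norm_num)
        have n10 := hn 10 (by norm_num) (by norm_num)
        have n11 := hn 11 (by norm_num) (by norm_num)
        have n12 := hn 12 (by norm_num) (by norm_num)
        have h7 := ct_one13 hlz
        have h8 : ct 6 1 z ≤ ct 6 (thR 6 (hi 6 - lo 6 + 1) Nc co x + 1) z :=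
          ct_mono le_rfl (by omega)
        omega
      · exact hcell x z hx hl h6 hzx
    · intro x hxt hl hu
      have hx := hmem x hxt hl
      have hlc := R.chart.lev x hx
      have h4 := nab_chart R.chart hx 6
      have h5 := card_cellsAt_true (l := 6) (p := co x) (by omega)
      rw [← h4] at h5
      have hc : ¬ (1 ≤ (co x).1 ∧ 1 ≤ (co x).2) := fun hc => by
        have := chart_inner_uc R.chart H hx hc.1 hc.2
        omega
      refine ⟨fun h3 => by omega, fun h0 => ?_⟩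
      exfalso
      rcases hth x hx hl with h2 | h2
      · omega
      · omega
    · intro x hxt hl hu _
      have hx := hmem x hxt hl
      have hlc := R.chart.lev x hx
      have hc : ¬ (1 ≤ (co x).1 ∧ 1 ≤ (co x).2) := fun hc => by
        have := chart_inner_uc R.chart H hx hc.1 hc.2
        omega
      rcases hth x hx hl with h2 | h2
      · omega
      · omega
  · refine dt_nat hR (fun x hx => mem_natR.mpr (Or.inl (R.strip hx))) ?_ 28
    rintro x - ⟨hx, hcx⟩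
    rw [mem_lowPart]
    refine ⟨R.chart.le_t x hx, ?_⟩
    rw [R.chart.lev x hx, hcx]
    simp only
    omega

/-- the quadric -/
theorem quad_ts (h : Win.GoodTo P r 12) (C : Cp.Comp 12 (t : P) lo hi e)
    (Q : QRows 12 6 lo hi) :
    ∃ θ B, TB 28 True t (hi 6 - lo 6 + 1) ∅ θ ∧ DT 28 t (hi 6 - lo 6 + 1) ∅ θ B := by
  classical
  have hQ : QInf 6 6 t := Q.inf (m := 6) C (by norm_num)
  have hup := low_up (t := t) (m := 6) h
  have hN := natTop_quad (by norm_num) (dvd_W_Qd 6) hQ (fun x hx y hxy => hup x y hxy hx)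
  have h4 := Q.at'
  have hb : hi 6 - lo 6 + 1 = 2 := by omega
  have hprof : ∀ x, x ≤ (t : P) → lev x = 12 → Qp x := by
    intro x hx hl
    have hpr := quad_prof hQ hx (by omega) hup (by norm_num)
    have q : ∀ l, 6 ≤ l → l ≤ 12 → nab l x = 1 + Fi.gD (List.replicate 6 0 ++ [1]) (12 - l) := by
      intro l h5 h6
      have := hpr (12 - l) (by omega)
      rw [show 2 * 6 - (12 - l) = l by omega] at this
      exact this
    refine ⟨?_, ?_, ?_, ?_, ?_, ?_⟩
    · rw [q 6 le_rfl (by norm_num)]; rfl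
    · rw [q 7 (by norm_num) (by norm_num)]; rfl
    · rw [q 8 (by norm_num) (by norm_num)]; rfl
    · rw [q 9 (by norm_num) (by norm_num)]; rfl
    · rw [q 10 (by norm_num) (by norm_num)]; rfl
    · rw [q 11 (by norm_num) (by norm_num)]; rfl
  refine ⟨fun _ => 0, fun x => x ∈ lowPart 12 (t : P), ?_⟩
  rw [hb]
  refine ⟨tb_nat (by norm_num) (fun x z hxt hl _ _ => Or.inr ⟨rfl, Or.inr (hprof x hxt hl)⟩) ?_
    ?_ (fun _ _ _ _ h0 => absurd rfl h0), dt_nat hN (fun x hx => hx) (fun x hx _ => hx) 28⟩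
  · intro x x' z hne hxt hxt' hl hl' _ _ _
    exact absurd (le_antisymm (hQ.bot x hxt (by omega) x' hxt' (by omega))
      (hQ.bot x' hxt' (by omega) x hxt (by omega))) hne
  · intro x hx hl _
    have := nab_le_row h C hx hl.le (l := 6) (by norm_num)
    exact ⟨fun h3 => by omega, fun _ => Or.inr (hprof x hx hl)⟩

lemma cell_cost {a : ℕ} {w : List Ltr} (D : WordD 12 a w lo hi)
    (C : Cp.Comp 12 (t : P) lo hi e) (h : Win.GoodTo P r 12) {s : ℕ} (h1 : losW a w 12 ≤ s)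
    (h2 : s ≤ hisW a w 12) {k T : ℕ}
    (hc : T ≤ min k 7 + ∑ l ∈ range 13, min k (l - 6) * Hc.nbw a w s l) {z : P}
    (hz : z ⋖ e 12 s) : T ≤ ct 6 k z := by
  obtain ⟨r1, r2⟩ := D.rows C
  have hl := C.lev_e 12 s le_rfl (by rw [r1 12 le_rfl]; exact h1) (by rw [r2 12 le_rfl]; exact h2)
  have h4 := ct_below h.H hl hz k
  rw [Hc.ct_cell D C h.H h.good h1 h2] at h4
  omega

/-- `E7` -/
theorem e7_ts (h : Win.GoodTo P r 12) (C : Cp.Comp 12 (t : P) lo hi e)
    (D : WordD 12 4 w7 lo hi) :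
    ∃ θ B, TB 28 True t (hi 6 - lo 6 + 1) ∅ θ ∧ DT 28 t (hi 6 - lo 6 + 1) ∅ θ B := by
  have hN := natTopC_E7_6 D C h.H h.good (by norm_num) (by norm_num)
  obtain ⟨r1, r2⟩ := D.rows C
  have e1 : losW 4 w7 12 = 4 ∧ hisW 4 w7 12 = 5 ∧ losW 4 w7 6 + 1 = hisW 4 w7 6 := by
    decide +kernel
  have hb : hi 6 - lo 6 + 1 = 2 := by
    rw [r1 6 (by norm_num), r2 6 (by norm_num)]
    omega
  have l12 : lo 12 = 4 := by rw [r1 12 le_rfl, e1.1]
  have u12 : hi 12 = 5 := by rw [r2 12 le_rfl, e1.2.1]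
  have hc : ∀ x z : P, x ≤ (t : P) → lev x = 12 → z ⋖ x →
      28 ≤ ct 6 (thC lo hi e E7t6 x + 1) z := by
    intro x z hx hl hzx
    obtain ⟨s, s1, s2, hs⟩ := C.surj x hx hl.le
    rw [hl] at s1 s2 hs
    subst hs
    rw [thC_e C E7t6 le_rfl s1 s2]
    have key : ∀ s < 6, 4 ≤ s → 28 ≤ min (E7t6 12 s + 1) 7 +
        ∑ l ∈ range 13, min (E7t6 12 s + 1) (l - 6) * Hc.nbw 4 w7 s l := by decide +kernel
    exact cell_cost D C h (by rw [e1.1]; omega) (by rw [e1.2.1]; omega)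
      (key s (by omega) (by omega)) hzx
  refine ⟨thC lo hi e E7t6, fun x => x = e 10 4, ?_⟩
  rw [hb]
  refine ⟨tb_nat (by norm_num) (fun x z hx hl hzx _ => Or.inl (hc x z hx hl hzx))
    (fun x x' z _ hx _ hl _ hzx _ _ => hc x z hx hl hzx) ?_ ?_,
    dt_nat hN (fun x hx => hx) (fun x hx _ => hx) 28⟩
  swap
  · intro x hx hl _ _
    obtain ⟨s, s1, s2, hs⟩ := C.surj x hx hl.le
    rw [hl] at s1 s2 hs
    subst hs
    rw [thC_e C E7t6 le_rfl s1 s2]
    have key : ∀ s < 6, 4 ≤ s → 2 ≤ E7t6 12 s := by decide +kernel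
    exact key s (by omega) (by omega)
  intro x hx hl _
  have := nab_le_row h C hx hl.le (l := 6) (by norm_num)
  refine ⟨fun h3 => by omega, fun h0 => ?_⟩
  exfalso
  obtain ⟨s, s1, s2, hs⟩ := C.surj x hx hl.le
  rw [hl] at s1 s2 hs
  subst hs
  rw [thC_e C E7t6 le_rfl s1 s2] at h0
  have key : ∀ s < 6, 4 ≤ s → E7t6 12 s ≠ 0 := by decide +kernel
  exact key s (by omega) (by omega) h0

end Pool.Agent.GaussPoset.W6
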