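import Pool.Agent.W_448w6_h53.WdA

/-!
The components at the window 6, level 12: stair-like components (MP_448cb3_co, `j = 12`).
-/

namespace Pool.Agent.GaussPoset.W6

set_option linter.unusedSectionVars false

open Polynomial Finset Dd Wd Cl

universe u

variable {P : Type u} [Fintype P] [PartialOrder P] [DecidableEq P] {r : ℕ}
variable {t : Tops P} {lo hi : ℕ → ℕ} {e : ℕ → ℕ → P}

lemma stair_k : ∀ s < 6, 28 ≤ (∑ a ∈ range (s + 1),
    rowW true (fun k => min ((s - 6) + (12 - s - 6) + 1) (k - 6)) (12 - s) 12 a) +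
      min ((s - 6) + (12 - s - 6) + 1) 7 := by decide +kernel

lemma stair_G : (∑ a ∈ range (5 + 1), rowW true (fun k => min 2 (k - 6)) 7 12 a) = 30 ∧
    (∑ a ∈ range (5 + 1), rowW true (fun k => min 7 (k - 6)) 7 12 a) = 49 := by
  decide +kernel

/-- the own elements below the fold end and its neighbour -/
noncomputable def Ys (Nc : Finset P) (co : P → ℕ × ℕ) : Finset P := by
  classical exact univ.filter (fun y => ∃ F ∈ Nc, co F = (6, 6) ∧ y ⋖ F ∧
    ∃ G ∈ Nc, co G = (5, 7) ∧ y ⋖ G)

lemma mem_Ys {Nc : Finset P} {co : P → ℕ × ℕ} {y : P} : y ∈ Ys Nc co ↔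
    ∃ F ∈ Nc, co F = (6, 6) ∧ y ⋖ F ∧ ∃ G ∈ Nc, co G = (5, 7) ∧ y ⋖ G := by
  classical
  unfold Ys
  simp

/-- thresholds of a stair with the additional elements -/
noncomputable def thY (Nc : Finset P) (co : P → ℕ × ℕ) (x : P) : ℕ := by
  classical exact if x ∈ Ys Nc co then 1 else thS 6 Nc co x

section

variable {Nc : Finset P} {co : P → ℕ × ℕ}

lemma Ys_lev (C : Chart (t : P) (fun c => c.1 ≤ c.2) Nc co) (H : Gr P r) {y : P}
    (hy : y ∈ Ys Nc co) : lev y = 13 := by
  obtain ⟨F, hF, hcF, hyF, -⟩ := mem_Ys.mp hy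
  have h1 := (H.covBy_iff.mp hyF).2
  rw [C.lev F hF, hcF] at h1
  simp only at h1
  omega

lemma thY_low (C : Chart (t : P) (fun c => c.1 ≤ c.2) Nc co) (H : Gr P r) {x : P}
    (hl : lev x ≤ 12) : thY Nc co x = thS 6 Nc co x := by
  unfold thY
  rw [if_neg]
  intro h
  have := Ys_lev C H h
  omega

/-- the value on the level 12 -/
lemma thY_eq (C : Chart (t : P) (fun c => c.1 ≤ c.2) Nc co) (H : Gr P r) {x : P}
    (hl : lev x = 12) : thY Nc co x = 6 ∨
      thY Nc co x = ((co x).1 - 6) + ((co x).2 - 6) := by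
  rw [thY_low C H hl.le]
  unfold thS
  split_ifs with hj
  · left; omega
  · right; rfl

lemma thY_F (C : Chart (t : P) (fun c => c.1 ≤ c.2) Nc co) (H : Gr P r) {x : P} (hx : x ∈ Nc)
    (hc : co x = (6, 6)) : thY Nc co x = 0 := by
  have hl := C.lev x hx
  rw [hc] at hl
  rw [thY_low C H (by rw [hl]; decide)]
  unfold thS
  rw [if_neg (J8.not_junk C hx (by rw [hc]; norm_num)), hc]
  rfl

/-- the profile of the fold end -/
lemma fold_prof (C : Chart (t : P) (fun c => c.1 ≤ c.2) Nc co) {x : P} (hx : x ∈ Nc)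
    (hc : co x = (6, 6)) : Fp x := by
  have q : ∀ l, l ≤ 12 → nab l x + (l - 6) = min (l / 2) 6 + 1 := by
    intro l hl
    have h3 := nab_chart C hx l
    have h4 := card_cellsAt_shift (l := l) (p := co x) (by rw [hc]) (by rw [hc]; exact hl)
    rw [hc] at h3 h4
    simp only at h4
    rw [← h3] at h4
    exact h4
  have q6 := q 6 (by norm_num)
  have q7 := q 7 (by norm_num)
  have q8 := q 8 (by norm_num)
  have q9 := q 9 (by norm_num)
  have q10 := q 10 (by norm_num)
  have q11 := q 11 (by norm_num)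
  norm_num at q6 q7 q8 q9 q10 q11
  exact ⟨by omega, by omega, by omega, by omega, by omega, by omega⟩

/-- the costs of the neighbour of the fold end -/
lemma ct_G (C : Chart (t : P) (fun c => c.1 ≤ c.2) Nc co) {G : P} (hG : G ∈ Nc)
    (hc : co G = (5, 7)) : ct 6 2 G = 30 ∧ ct 6 7 G = 49 := by
  have hl : lev G = 12 := by rw [C.lev G hG, hc]; rfl
  have h2 := ct_chart C (shift := true) (by simp) hG 6 2
  have h7 := ct_chart C (shift := true) (by simp) hG 6 7
  rw [hl, hc] at h2 h7
  exact ⟨h2.trans stair_G.1, h7.trans stair_G.2⟩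

/-- own elements of level 13 below the fold end -/
theorem stair_own (h : Win.GoodTo P r 12) (R : StairNat 12 6 t Nc co)
    (hu : ∀ x ∈ Nc, lev x = 12 → (Win.uc x).card = 1 → co x = (6, 6) ∨ co x = (0, 12))
    {x x' z : P} (hx : x ∈ Nc) (hx' : x' ∈ Nc) (hl : lev x = 12) (hl' : lev x' = 12)
    (hne : x ≠ x') (hzx : z ⋖ x) (hzx' : z ⋖ x') (hz : z ∉ Ys Nc co) (hc : co x = (6, 6)) :
    IsCx t 4 (thY Nc co) z := by
  classical
  have H := h.H
  have C := R.chart
  have hlz : lev z = 11 + 2 := by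
    have := (H.covBy_iff.mp hzx).2
    omega
  have huc : ∀ y, z ⋖ y → y = x ∨ y = x' := fun y hy => uc_pair H hzx hzx' hne hy
  rcases (Win.near_level' (i := 11) h (by norm_num)).1 z x x' hlz hzx hzx' hne with
    h6 | ⟨-, h6, -⟩
  · exfalso
    obtain ⟨u, hu1, hu2⟩ := Win.exists_of_ucv (v := x) (v' := x') (by rw [h6]; exact one_pos)
    have huN := C.up x hx u hu1.1.le
    have p1 := (chart_cov C H hx huN).mp hu1
    have p2 := (chart_cov C H hx' huN).mp hu2
    have hm : (co u).1 ≤ (co u).2 := C.mem u huN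
    have hm' : (co x').1 ≤ (co x').2 := C.mem x' hx'
    rw [hc] at p1
    have hne' : co x' ≠ (6, 6) := fun hh => hne (C.inj x hx x' hx' (by rw [hc, hh]))
    have hcu : co u = (5, 6) := by
      unfold Prd at p1
      simp only at p1
      exact Prod.ext (by simp only; omega) (by simp only; omega)
    rw [hcu] at p2
    have hcx' : co x' = (5, 7) := by
      unfold Prd at p2
      simp only at p2
      rcases p2 with p2 | p2
      · exact absurd (Prod.ext p2.1 p2.2) hne'
      · exact Prod.ext p2.1 p2.2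
    exact hz (mem_Ys.mpr ⟨x, hx, hc, hzx, x', hx', hcx', hzx'⟩)
  · have hcx' : co x' = (0, 12) := by
      rcases hu x' hx' hl' h6 with h7 | h7
      · exact absurd (C.inj x hx x' hx' (by rw [hc, h7])) hne
      · exact h7
    exact ⟨Nc, co, x, x', ⟨C, R.strip, hx, hx', hc, hcx', hzx, hzx', huc⟩, rfl,
      thY_F C H hx hc⟩

/-- the data of a stair -/
theorem stair_data (h : Win.GoodTo P r 12) (R : StairNat 12 6 t Nc co) :
    DT 28 t 4 (Ys Nc co) (thY Nc co) (fun x => x ∈ Nc ∧ co x = (6, 6)) := by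
  classical
  intro N HN hlow hN θ' B' hθ hB
  have H := h.H
  have C := R.chart
  have hS := R.natTop H.gradedBelow (by norm_num) (by norm_num)
  have hbase : ∀ x ∈ natS Nc co, (x ∈ Nc ∧ co x = (6, 6)) → x ∈ N t := by
    rintro x - ⟨hx, hcx⟩
    rw [hN, mem_union, mem_lowPart]
    refine Or.inl ⟨C.le_t x hx, ?_⟩
    rw [C.lev x hx, hcx]
    decide
  have hN' : ∀ x, x ∈ N t ↔ x ∈ lowPart 12 (t : P) ∨ x ∈ Ys Nc co := by
    intro x
    rw [hN, mem_union]
  have hlN : ∀ x ∈ lowPart 12 (t : P), x ∈ natS Nc co := fun x hx =>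
    mem_natS.mpr (Or.inl (R.strip hx))
  by_cases hsub : ∀ y ∈ Ys Nc co, y ∈ natS Nc co
  · -- no additional element
    refine J8.compL_nat HN hS ?_ hbase ?_ hB 28
    · intro x hx
      rcases (hN' x).mp hx with h1 | h1
      · exact hlN x h1
      · exact hsub x h1
    · intro x hx
      rw [hθ x hx]
      unfold thY
      split_ifs with hY
      · -- the natural element
        obtain ⟨F, hF, hcF, hyF, G, hG, hcG, hyG⟩ := mem_Ys.mp hY
        have hxN : x ∈ Nc := by
          rcases mem_natS.mp (hsub x hY) with h1 | h1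
          · exact h1
          · exfalso
            obtain ⟨x1, E1, hz⟩ := mem_junk.mp h1
            rcases (mem_jset.mp hz).2 F hyF.1.le with h2 | h2
            · have h3 := (C.le_iff F hF x1 E1.mem).mp h2
              have h4 := E1.lt F hF (by rw [hcF]; norm_num)
              have h5 : (co x1).2 ≤ (co F).2 := h3.2
              omega
            · have h3 := (C.le_iff x1 E1.mem F hF).mp h2
              have h4 : (co F).1 ≤ (co x1).1 := h3.1
              rw [hcF, E1.fst] at h4
              exact absurd h4 (by norm_num)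
        have p1 := (chart_cov C H hxN hF).mp hyF
        have p2 := (chart_cov C H hxN hG).mp hyG
        rw [hcF] at p1
        rw [hcG] at p2
        have hcx : co x = (6, 7) := by
          unfold Prd at p1 p2
          simp only at p1 p2
          exact Prod.ext (by simp only; omega) (by simp only; omega)
        unfold thS
        rw [if_neg (J8.not_junk C hxN (by rw [hcx]; norm_num)), hcx]
        rfl
      · rfl
  · -- one additional twin
    push Not at hsub
    obtain ⟨y2, hy2, hy2N⟩ := hsub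
    obtain ⟨F, hF, hcF, hyF, G, hG, hcG, hyG⟩ := mem_Ys.mp hy2
    have hy2Nc : y2 ∉ Nc := fun h => hy2N (mem_natS.mpr (Or.inl h))
    obtain ⟨y1, hy1, hc1, hy1F, hy1G, hy12⟩ := max_pair C R.max H hy2Nc hF hG hyF hyG
      (s := 5) (c := 6) hcF hcG (by norm_num)
    have hFG : F ≠ G := by
      rintro rfl
      rw [hcF] at hcG
      exact absurd hcG (by decide)
    have hup12 : ∀ y, y1 < y ↔ y2 < y := by
      refine up_of_cov fun w => ?_
      constructor
      · intro hw
        rcases uc_pair H hy1F hy1G hFG hw with h1 | h1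
        · rw [h1]; exact hyF
        · rw [h1]; exact hyG
      · intro hw
        rcases uc_pair H hyF hyG hFG hw with h1 | h1
        · rw [h1]; exact hy1F
        · rw [h1]; exact hy1G
    have hlF : lev F = 12 := by rw [C.lev F hF, hcF]; rfl
    have hlG : lev G = 12 := by rw [C.lev G hG, hcG]; rfl
    have hl1 : lev y1 = 13 := by
      have := (H.covBy_iff.mp hy1F).2
      omega
    have hY1 : y1 ∈ Ys Nc co := mem_Ys.mpr ⟨F, hF, hcF, hy1F, G, hG, hcG, hy1G⟩
    have hY2 : ∀ y ∈ Ys Nc co, y = y1 ∨ y = y2 := by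
      intro y hy
      obtain ⟨F', hF', hcF', hyF', -⟩ := mem_Ys.mp hy
      have hFF : F' = F := C.inj F' hF' F hF (by rw [hcF', hcF])
      rw [hFF] at hyF'
      by_contra hcon
      push Not at hcon
      exact Win.dc_three H hyF' hy1F hyF hcon.1 hcon.2 hy12
    have hth1 : thS 6 Nc co y1 = 1 := by
      unfold thS
      rw [if_neg (J8.not_junk C hy1 (by rw [hc1]; norm_num)), hc1]
      rfl
    obtain ⟨cG2, cG7⟩ := ct_G C hG hcG
    have s1 : 49 ≤ ∑ y, (if y1 ≤ y then lev y - 6 else 0) := by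
      rw [← cG7, ct_eq_sum]
      refine Finset.sum_le_sum fun y _ => ?_
      by_cases a : G ≤ y
      · rw [if_pos a, if_pos (hy1G.1.le.trans a)]
        exact min_le_right _ _
      · rw [if_neg a]
        exact Nat.zero_le _
    have s2 : 30 ≤ ∑ y, (if y1 < y then min (1 + 1) (lev y - 6) else 0) := by
      rw [← cG2, ct_eq_sum]
      refine Finset.sum_le_sum fun y _ => ?_
      by_cases a : G ≤ y
      · rw [if_pos a, if_pos (hy1G.1.trans_le a)]
      · rw [if_neg a]
        exact Nat.zero_le _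
    have hBy2 : y2 ∈ N t := (hN' y2).mpr (Or.inr hy2)
    refine J8.compL_twin HN (i := 6) (j := 12) (by norm_num) hlow hS (y1 := y1) (y2 := y2) ?_ ?_
      hbase ((hN' y1).mpr (Or.inr hY1)) hBy2 (mem_natS.mpr (Or.inl hy1)) hy2N ?_ ?_ ?_ ?_ ?_ ?_
    · intro x hx
      rcases (hN' x).mp hx with h1 | h1
      · exact Or.inl (hlN x h1)
      · rcases hY2 x h1 with h2 | h2
        · rw [h2]; exact Or.inl (mem_natS.mpr (Or.inl hy1))
        · exact Or.inr h2
    · intro x hx hl
      exact hlN x (mem_lowPart.mpr ⟨hx, hl⟩)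
    · intro x hx hne
      rw [hθ x hx]
      unfold thY
      split_ifs with hY
      · rcases hY2 x hY with h2 | h2
        · rw [h2, hth1]
        · exact absurd h2 hne
      · rfl
    · rw [hθ y2 hBy2]
      unfold thY
      rw [if_pos hy2]
    · intro x hx _
      exact hB x hx
    · intro hb
      exact hy2Nc ((hB y2 hBy2).mp hb).1
    · refine ⟨hy12, hup12, ?_, ?_, ?_, ?_, ?_⟩
      · simp only [hy12, if_false]
        exact hth1.ge
      · simp only [hy12, if_false, if_true]
        exact hth1.symm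
      · simp only [hy12, if_false]
        rw [hth1, hl1]
        norm_num
      · simp only [hy12, if_false, hth1]
        omega
      · simp only [hy12, if_false, hth1]
        omega
    · rw [hl1]; norm_num

end

/-- stair-like components -/
theorem stair_ts (h : Win.GoodTo P r 12) (C : Cp.Comp 12 (t : P) lo hi e)
    (S : StairShape 12 lo hi) : ∃ Y θ B, (TB 28 True t (hi 6 - lo 6 + 1) Y θ ∧
      DT 28 t (hi 6 - lo 6 + 1) Y θ B) ∧
      (lo 12 = 0 → ∀ z, z ⋖ e 12 6 → z ⋖ e 12 0 → z ∉ Y ∧ IsCx t (hi 6 - lo 6 + 1) θ z) := by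
  classical
  have H := h.H
  have hg := h.good
  have e0 : lo 6 = 0 := by
    by_contra hcon
    have e1 := shape_lo C S.lo (l := 6) (by omega) 6 (by norm_num)
    have e2 := S.hi (6 + 6) (by norm_num)
    have e3 := C.lo_le (6 + 6) (by norm_num)
    omega
  have u6 := S.hi 6 (by norm_num)
  have u12 := S.hi 12 le_rfl
  norm_num at u6 u12
  have hb : hi 6 - lo 6 + 1 = 4 := by omega
  obtain ⟨Nc, co, R, hco⟩ := exists_stair' C H hg H.gradedBelow S (i := 6) (by norm_num) e0
  have CC := R.chart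
  have hmem : ∀ x, x ≤ (t : P) → lev x = 12 → x ∈ Nc := fun x hx hl =>
    R.strip (mem_lowPart.mpr ⟨hx, hl.le⟩)
  have hcl : ∀ x ∈ Nc, lev x = 12 → (co x).1 + (co x).2 = 12 ∧ (co x).1 ≤ (co x).2 := by
    intro x hx hl
    have h1 := CC.lev x hx
    exact ⟨by omega, CC.mem x hx⟩
  have hu : ∀ x ∈ Nc, lev x = 12 → (Win.uc x).card = 1 → co x = (6, 6) ∨ co x = (0, 12) := by
    intro x hx hl hu1
    obtain ⟨h1, h2⟩ := hcl x hx hl
    by_contra hcon
    push Not at hcon
    have h3 : (co x).1 ≠ 6 := fun h4 => hcon.1 (Prod.ext h4 (by simp only; omega))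
    have h4 : (co x).1 ≠ 0 := fun h4 => hcon.2 (Prod.ext h4 (by simp only; omega))
    have := chartS_inner_uc CC H hx (by omega) (by omega)
    omega
  -- cells different from the fold end
  have hcell : ∀ x z : P, x ∈ Nc → lev x = 12 → (co x).1 ≠ 6 → z ⋖ x →
      28 ≤ ct 6 (thY Nc co x + 1) z := by
    intro x z hx hl h6 hzx
    obtain ⟨h1, h2⟩ := hcl x hx hl
    rcases thY_eq CC H hl with h3 | h3
    · have h4 := (H.covBy_iff.mp hzx).2
      have h5 := ct_ge13 (x := z) (by omega) 7
      rw [light_k] at h5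
      rw [h3]
      exact h5
    · have h5 := stair_k (co x).1 (by omega)
      have h6' := ct_chart CC (shift := true) (by simp) hx 6
        (((co x).1 - 6) + ((co x).2 - 6) + 1)
      rw [hl, show (co x).2 = 12 - (co x).1 by omega] at h6'
      rw [← h6'] at h5
      have h7 := ct_below H hl hzx (((co x).1 - 6) + (12 - (co x).1 - 6) + 1)
      rw [h3, show (co x).2 = 12 - (co x).1 by omega]
      omega
  rw [hb]
  have hcx : lo 12 = 0 → ∀ z, z ⋖ e 12 6 → z ⋖ e 12 0 →
      z ∉ Ys Nc co ∧ IsCx t 4 (thY Nc co) z := by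
    intro h0 z hz4 hz0
    have m4 : e 12 6 ∈ lowPart 12 (t : P) := mem_lowPart.mpr
      ⟨C.le_t 12 6 le_rfl (by omega) (by omega), (C.lev_e 12 6 le_rfl (by omega) (by omega)).le⟩
    have m0 : e 12 0 ∈ lowPart 12 (t : P) := mem_lowPart.mpr
      ⟨C.le_t 12 0 le_rfl (by omega) (by omega), (C.lev_e 12 0 le_rfl (by omega) (by omega)).le⟩
    have c4 : co (e 12 6) = (6, 6) := by
      rw [hco _ m4]
      unfold ccoord
      rw [scoord_e C (k := 12) (s := 6) le_rfl (by omega) (by omega),
        C.lev_e 12 6 le_rfl (by omega) (by omega)]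
    have c0 : co (e 12 0) = (0, 12) := by
      rw [hco _ m0]
      unfold ccoord
      rw [scoord_e C (k := 12) (s := 0) le_rfl (by omega) (by omega),
        C.lev_e 12 0 le_rfl (by omega) (by omega)]
    have hne : e 12 6 ≠ e 12 0 := by
      intro hh
      have := C.inj 12 6 0 le_rfl (by omega) (by omega) (by omega) (by omega) hh
      omega
    refine ⟨?_, Nc, co, e 12 6, e 12 0, ⟨CC, R.strip, R.strip m4, R.strip m0, c4, c0, hz4, hz0,
      fun y hy => uc_pair H hz4 hz0 hne hy⟩, rfl, thY_F CC H (R.strip m4) c4⟩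
    intro hY
    obtain ⟨F, hF, hcF, hyF, G, hG, hcG, hyG⟩ := mem_Ys.mp hY
    rcases uc_pair H hz4 hz0 hne hyG with h1 | h1
    · rw [h1, c4] at hcG
      exact absurd hcG (by decide)
    · rw [h1, c0] at hcG
      exact absurd hcG (by decide)
  refine ⟨Ys Nc co, thY Nc co, fun x => x ∈ Nc ∧ co x = (6, 6), ⟨?_, stair_data h R⟩, hcx⟩
  constructor
  · norm_num
  · intro y hy
    have := Ys_lev CC H hy
    omega
  · intro y hy v hyv
    obtain ⟨F, hF, hcF, hyF, G, hG, hcG, hyG⟩ := mem_Ys.mp hy
    have hFG : F ≠ G := by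
      rintro rfl
      rw [hcF] at hcG
      exact absurd hcG (by decide)
    rw [mem_union, mem_lowPart]
    left
    rcases uc_pair H hyF hyG hFG hyv with h1 | h1
    · rw [h1]
      exact ⟨CC.le_t F hF, by rw [CC.lev F hF, hcF]; decide⟩
    · rw [h1]
      exact ⟨CC.le_t G hG, by rw [CC.lev G hG, hcG]; decide⟩
  · intro y hy z hzy _
    obtain ⟨F, hF, hcF, hyF, G, hG, hcG, hyG⟩ := mem_Ys.mp hy
    have h1 : thY Nc co y = 1 := by
      unfold thY
      rw [if_pos hy]
    have h2 := ct_mono (i := 6) (hzy.1.le.trans hyG.1.le) (le_refl 2)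
    rw [(ct_G CC hG hcG).1] at h2
    rw [h1]
    show 28 ≤ ct 6 2 z
    omega
  · intro x z hxt hl hzx honly _
    have hx := hmem x hxt hl
    obtain ⟨h1, h2⟩ := hcl x hx hl
    by_cases h6 : (co x).1 = 6
    · right
      have hc : co x = (6, 6) := Prod.ext h6 (by simp only; omega)
      exact ⟨thY_F CC H hx hc, Or.inl (fold_prof CC hx hc)⟩
    · left
      exact hcell x z hx hl h6 hzx
  · intro x x' z hne hxt hxt' hl hl' hzx hzx' hz _
    have hx := hmem x hxt hl
    have hx' := hmem x' hxt' hl'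
    obtain ⟨h1, h2⟩ := hcl x hx hl
    by_cases h6 : (co x).1 = 6
    · right
      exact ⟨trivial, stair_own h R hu hx hx' hl hl' hne hzx hzx' hz
        (Prod.ext h6 (by simp only; omega))⟩
    · left
      exact hcell x z hx hl h6 hzx
  · intro x hxt hl hu1
    have hx := hmem x hxt hl
    rcases hu x hx hl hu1 with h4 | h4
    · exact ⟨fun _ => ⟨thY_F CC H hx h4, fold_prof CC hx h4⟩, fun _ => Or.inl (fold_prof CC hx h4)⟩
    · have h5 := nab_chart CC hx 6
      have h6 := card_cellsAt_shift (l := 6) (p := co x) (by rw [h4]; norm_num)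
        (by rw [h4]; norm_num)
      rw [← h5, h4] at h6
      norm_num at h6
      refine ⟨fun h3 => by omega, fun h0 => ?_⟩
      exfalso
      rcases thY_eq CC H hl with h7 | h7
      · omega
      · rw [h4] at h7
        norm_num at h7
        omega
  · intro x hxt hl hu1 h0
    have hx := hmem x hxt hl
    refine ct_three hl ?_
    rcases hu x hx hl hu1 with h4 | h4
    · exact absurd (thY_F CC H hx h4) h0
    · rcases thY_eq CC H hl with h7 | h7
      · omega
      · rw [h4] at h7
        norm_num at h7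
        omega
  · intro y hy x hp _
    exfalso
    obtain ⟨F, hF, hcF, hyF, G, hG, hcG, hyG⟩ := mem_Ys.mp hy
    rw [hp.2 F hyF] at hcF
    rw [hp.2 G hyG, hcF] at hcG
    exact absurd hcG (by decide)

end Pool.Agent.GaussPoset.W6
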