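import Pool.Agent.W_448w6_h53.WdB
import Pool.Agent.W_448w6_h53.WcH

/-!
The components at the window 6, level 12: coded natural sets; `La5` (MP_448cb3_co, `j = 12`).
-/

namespace Pool.Agent.GaussPoset.W6

set_option linter.unusedSectionVars false

open Polynomial Finset Dd Wd Cl Sg

universe u

variable {P : Type u} [Fintype P] [PartialOrder P] [DecidableEq P] {r : ℕ}
variable {t : Tops P} {lo hi : ℕ → ℕ} {e : ℕ → ℕ → P}

/-- an enumeration of a set -/
lemma enum (A : Finset P) (p0 : P) : ∃ z : ℕ → P,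
    (∀ a < A.card, ∀ b < A.card, z a = z b → a = b) ∧ ∀ x, x ∈ A ↔ ∃ k < A.card, z k = x := by
  classical
  refine ⟨fun k => if h : k < A.card then (A.equivFin.symm ⟨k, h⟩ : P) else p0, ?_, ?_⟩
  · intro a ha b hb h
    simp only [ha, hb, dif_pos] at h
    have h1 := A.equivFin.symm.injective (Subtype.ext h)
    exact congrArg Fin.val h1
  · intro x
    constructor
    · intro hx
      refine ⟨(A.equivFin ⟨x, hx⟩ : ℕ), (A.equivFin ⟨x, hx⟩).2, ?_⟩
      simp
    · rintro ⟨k, hk, rfl⟩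
      simp only [hk, dif_pos]
      exact (A.equivFin.symm ⟨k, hk⟩).2

/-- the cells and more elements -/
def czg (n : ℕ) (c z : ℕ → P) (a : ℕ) : P := if a < n then c a else z (a - n)

lemma czg_lt {n : ℕ} {c z : ℕ → P} {a : ℕ} (ha : a < n) : czg n c z a = c a := if_pos ha

lemma czg_add {n : ℕ} {c z : ℕ → P} (k : ℕ) : czg n c z (n + k) = z k := by
  unfold czg
  rw [if_neg (by omega), Nat.add_sub_cancel_left]

lemma czg_mem {n K : ℕ} {c z : ℕ → P} {S A : Finset P} (hc : ∀ x, x ∈ S ↔ ∃ a < n, c a = x)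
    (hA : ∀ x, x ∈ A ↔ ∃ k < K, z k = x) (x : P) :
    x ∈ S ∪ A ↔ ∃ a < n + K, czg n c z a = x := by
  rw [mem_union, hA, hc]
  constructor
  · rintro (⟨a, ha, rfl⟩ | ⟨k, hk, rfl⟩)
    · exact ⟨a, by omega, czg_lt ha⟩
    · exact ⟨n + k, by omega, czg_add k⟩
  · rintro ⟨a, ha, rfl⟩
    by_cases h : a < n
    · exact Or.inl ⟨a, h, (czg_lt h).symm⟩
    · right
      refine ⟨a - n, by omega, ?_⟩
      unfold czg
      rw [if_neg h]

/-- orders from local data -/
lemma dt_loc {b n0 : ℕ} {Y : Finset P} {θ : P → ℕ} {B : P → Prop}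
    (L : LocL 6 b n0 (lowPart 12 (t : P) ∪ Y) θ B) : DT n0 t b Y θ B := by
  intro N HN hlow hN θ' B' hθ hB
  exact LocL.data (θ := θ) (B := B) (by rw [hN]; exact L) HN θ' B' hθ hB

/-- two elements above -/
lemma ct_pair {i k : ℕ} {z x x' : P} (hzx : z < x) (hzx' : z < x') (hn : ¬ x ≤ x') :
    min k (lev z - i) + min k (lev x' - i) + ct i k x ≤ ct i k z := by
  classical
  rw [ct_succ i k z, ct_eq_sum, Nat.add_assoc]
  refine Nat.add_le_add_left ?_ _
  have h1 : min k (lev x' - i) = ∑ y, (if y = x' then min k (lev y - i) else 0) := by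
    rw [Finset.sum_ite_eq' univ x' (fun y => min k (lev y - i)), if_pos (mem_univ _)]
  rw [h1, ← Finset.sum_add_distrib]
  refine Finset.sum_le_sum fun y _ => ?_
  by_cases hy : y = x'
  · subst hy
    rw [if_pos rfl, if_neg hn, if_pos hzx']
    omega
  · rw [if_neg hy, zero_add]
    by_cases hxy : x ≤ y
    · rw [if_pos hxy, if_pos (hzx.trans_le hxy)]
    · rw [if_neg hxy]
      exact Nat.zero_le _

section La5

/-- the cells of `La5` -/
def c5 (e : ℕ → ℕ → P) (a : ℕ) : P := e (La5lv.getD a 0) (La5sl.getD a 0)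

lemma La5_cod (D : WordD 12 5 wa5 lo hi) (C : Cp.Comp 12 (t : P) lo hi e)
    (h : Win.GoodTo P r 12) :
    Cod 25 (fun a => La5cv.getD a 0) (fun a => La5lv.getD a 0) (c5 e) := by
  obtain ⟨h1, h2⟩ := D.rows C
  exact La5_strip.cod C h.H h.good t.2 le_rfl h1 h2

lemma La5_low (D : WordD 12 5 wa5 lo hi) (C : Cp.Comp 12 (t : P) lo hi e) (x : P) :
    x ∈ lowPart 12 (t : P) ↔ ∃ a < 25, c5 e a = x := by
  obtain ⟨h1, h2⟩ := D.rows C
  constructor
  · exact fun hx => La5_strip.surj' C le_rfl h1 h2 hx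
  · rintro ⟨a, ha, rfl⟩
    have h3 := La5_strip.row a ha
    have h4 : La5lv.getD a 0 ≤ 12 := by
      have h : ∀ a < 25, La5lv.getD a 0 ≤ 12 := by decide +kernel
      exact h a ha
    rw [← h1 _ h4, ← h2 _ h4] at h3
    rw [mem_lowPart]
    exact ⟨C.le_t _ _ h4 h3.1 h3.2, (C.lev_e _ _ h4 h3.1 h3.2).le.trans h4⟩

/-- the pendants below an element -/
noncomputable def Pds (x : P) : Finset P := by
  classical exact univ.filter (fun z => Pend z x)

lemma mem_Pds {x z : P} : z ∈ Pds x ↔ Pend z x := by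
  classical
  unfold Pds
  simp

lemma Pds_card (H : Gr P r) (x : P) : (Pds x).card ≤ 2 := by
  refine (Finset.card_le_card (t := Win.dc x) fun y hy => ?_).trans (Win.dc_card_le H _)
  rw [Win.mem_dc]
  exact (mem_Pds.mp hy).1

/-- `La5` -/
theorem la5_ts (h : Win.GoodTo P r 12) (C : Cp.Comp 12 (t : P) lo hi e)
    (D : WordD 12 5 wa5 lo hi) :
    ∃ Y θ B, TB 28 True t (hi 6 - lo 6 + 1) Y θ ∧ DT 28 t (hi 6 - lo 6 + 1) Y θ B := by
  classical
  have H := h.H
  obtain ⟨r1, r2⟩ := D.rows C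
  have e1 : losW 5 wa5 12 = 3 ∧ hisW 5 wa5 12 = 5 ∧ losW 5 wa5 6 + 1 = hisW 5 wa5 6 := by
    decide +kernel
  have hb : hi 6 - lo 6 + 1 = 2 := by
    rw [r1 6 (by norm_num), r2 6 (by norm_num)]
    omega
  have l12 : lo 12 = 3 := by rw [r1 12 le_rfl, e1.1]
  have u12 : hi 12 = 5 := by rw [r2 12 le_rfl, e1.2.1]
  have hC := La5_cod D C h
  have hlow := La5_low D C
  have hK := Pds_card H (e 12 5)
  set A : Finset P := Pds (e 12 5) with hAdef
  obtain ⟨z, hinj, hA⟩ := enum A (t : P)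
  set K := A.card with hKdef
  have hl5 : lev (e 12 5) = 12 := C.lev_e 12 5 le_rfl (by omega) (by omega)
  have hlA : ∀ y ∈ A, lev y = 13 := by
    intro y hy
    have := (H.covBy_iff.mp (mem_Pds.mp hy).1).2
    omega
  have hzA : ∀ k < K, z k ∈ A := fun k hk => (hA _).mpr ⟨k, hk, rfl⟩
  have hcell : ∀ a < 3, c5 e (22 + a) = e 12 (3 + a) := by
    intro a ha
    obtain rfl | rfl | rfl : a = 0 ∨ a = 1 ∨ a = 2 := by omega
    · rfl
    · rfl
    · rfl
  have hcod : Cod (25 + K) (fun a => Qhcv.getD a 0) (fun a => Qhlv.getD a 0)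
      (czg 25 (c5 e) z) := by
    have g3 : ∀ k < 2, Qhcv.getD (25 + k) 0 = 16777216 := by decide +kernel
    have g4 : ∀ k < 2, Qhlv.getD (25 + k) 0 = 13 := by decide +kernel
    refine cod_append hC (cx := fun _ => 16777216) (lx := fun _ => 13) (by decide +kernel)
      (fun _ _ => by norm_num) (by decide +kernel) (by decide +kernel)
      (fun k hk => g3 k (by omega)) (fun k hk => g4 k (by omega)) hinj ?_ ?_ ?_
    · intro a ha b hb' hh
      have h2 := hlA _ (hzA b hb')
      rw [← hh, hC.lev a ha] at h2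
      have h3 : ∀ a < 25, La5lv.getD a 0 ≤ 12 := by decide +kernel
      have := h3 a ha
      omega
    · intro k hk y
      obtain ⟨g5, g6⟩ := mem_Pds.mp (hzA k hk)
      have g7 : c5 e 24 = e 12 5 := hcell 2 (by norm_num)
      constructor
      · intro hy
        exact ⟨24, by norm_num, by decide +kernel, by rw [g7, g6 y hy]⟩
      · rintro ⟨b, hb1, hb2, rfl⟩
        have h3 : ∀ b < 25, Nat.testBit 16777216 b = true → b = 24 := by decide +kernel
        rw [h3 b hb1 hb2, g7]
        exact g5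
    · exact fun k hk => hlA _ (hzA k hk)
  have hS := czg_mem (n := 25) (K := K) (c := c5 e) (z := z) hlow hA
  have hl : LocL 6 2 28 (lowPart 12 (t : P) ∪ A) (thI (25 + K) (czg 25 (c5 e) z)
      (fun a => Qhth.getD a 0)) (fun x => x = czg 25 (c5 e) z 21) :=
    cod_locL' hcod Qh_us (by omega) Qh_th (by omega) hS Qh_pol Qh_low
      (fun x hx => List.mem_append_left _ hx) Qh_bm
      (lt_of_lt_of_le (by norm_num) (Nat.pow_le_pow_right (by norm_num) (show 25 ≤ 25 + K by omega)))
  set θ := thI (25 + K) (czg 25 (c5 e) z) (fun a => Qhth.getD a 0) with hθdef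
  have hth : ∀ a < 3, θ (e 12 (3 + a)) = 3 - a := by
    intro a ha
    have h1 := thI_c hcod (fun a => Qhth.getD a 0) (a := 22 + a) (by omega)
    rw [czg_lt (by omega), hcell a ha] at h1
    rw [hθdef, h1]
    obtain rfl | rfl | rfl : a = 0 ∨ a = 1 ∨ a = 2 := by omega
    · decide +kernel
    · decide +kernel
    · decide +kernel
  have hthA : ∀ y ∈ A, θ y = 2 := by
    intro y hy
    obtain ⟨k, hk, rfl⟩ := (hA y).mp hy
    have h1 := thI_c hcod (fun a => Qhth.getD a 0) (a := 25 + k) (by omega)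
    rw [czg_add] at h1
    rw [hθdef, h1]
    have h3 : ∀ k < 2, Qhth.getD (25 + k) 0 = 2 := by decide +kernel
    exact h3 k (by omega)
  have hrow : ∀ x, x ≤ (t : P) → lev x = 12 → ∃ a < 3, x = e 12 (3 + a) := by
    intro x hx hl'
    obtain ⟨s, s1, s2, hs⟩ := C.surj x hx hl'.le
    rw [hl'] at s1 s2 hs
    exact ⟨s - 3, by omega, by rw [← hs, show 3 + (s - 3) = s by omega]⟩
  have hcost : ∀ a < 3, ∀ z : P, z ⋖ e 12 (3 + a) → a ≠ 2 →
      28 ≤ ct 6 (θ (e 12 (3 + a)) + 1) z := by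
    intro a ha z' hz' hne
    rw [hth a ha]
    have key : ∀ a < 3, a ≠ 2 → 28 ≤ min (3 - a + 1) 7 +
        ∑ l ∈ range 13, min (3 - a + 1) (l - 6) * Hc.nbw 5 wa5 (3 + a) l := by decide +kernel
    exact cell_cost D C h (by rw [e1.1]; omega) (by rw [e1.2.1]; omega) (key a ha hne) hz'
  have h24 : ct 6 2 (e 12 5) = 24 := by
    rw [Hc.ct_cell D C h.H h.good (by rw [e1.1]; norm_num) (by rw [e1.2.1])]
    decide +kernel
  refine ⟨A, θ, fun x => x = czg 25 (c5 e) z 21, ?_, ?_⟩
  · rw [hb]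
    constructor
    · norm_num
    · intro y hy
      have := hlA y hy
      omega
    · intro y hy v hyv
      rw [(mem_Pds.mp hy).2 v hyv, mem_union, mem_lowPart]
      exact Or.inl ⟨C.le_t 12 5 le_rfl (by omega) (by omega), hl5.le⟩
    · intro y hy z' hz' _
      rw [hthA y hy]
      have g1 := ct_cov (i := 6) (k := 2 + 1) hz'.1
      have g2 := ct_cov (i := 6) (k := 2 + 1) (mem_Pds.mp hy).1.1
      have g3 := ct_mono (i := 6) (le_refl (e 12 5)) (show 2 ≤ 2 + 1 by norm_num)
      have g4 := (H.covBy_iff.mp hz').2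
      rw [h24] at g3
      rw [hlA y hy] at g2 g4
      rw [g4] at g1
      omega
    · intro x z' hxt hl' hzx honly hzA'
      obtain ⟨a, ha, rfl⟩ := hrow x hxt hl'
      by_cases h2 : a = 2
      · subst h2
        exact absurd (mem_Pds.mpr ⟨hzx, honly⟩) hzA'
      · exact Or.inl (hcost a ha z' hzx h2)
    · intro x x' z' hne hxt hxt' hl' hl'' hzx hzx' _ _
      left
      obtain ⟨a, ha, rfl⟩ := hrow x hxt hl'
      by_cases h2 : a = 2
      · subst h2
        rw [hth 2 (by norm_num)]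
        have g1 := ct_pair (i := 6) (k := 2) hzx.1 hzx'.1 (fun hle => by
          rcases eq_or_lt_of_le hle with g | g
          · exact hne g
          · have := lev_strictAnti g
            omega)
        have g2 := (H.covBy_iff.mp hzx).2
        rw [hl''] at g1
        have g3 : lev z' = 13 := by omega
        rw [g3] at g1
        have g4 : ct 6 2 (e 12 (3 + 2)) = 24 := h24
        rw [g4] at g1
        show 28 ≤ ct 6 2 z'
        omega
      · exact hcost a ha z' hzx h2
    · intro x hxt hl' _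
      have := nab_le_row h C hxt hl'.le (l := 6) (by norm_num)
      refine ⟨fun h3 => by omega, fun h0 => ?_⟩
      obtain ⟨a, ha, rfl⟩ := hrow x hxt hl'
      rw [hth a ha] at h0
      omega
    · intro x hxt hl' _ _
      obtain ⟨a, ha, rfl⟩ := hrow x hxt hl'
      rw [hth a ha]
      obtain rfl | ha2 : a = 2 ∨ a < 2 := by omega
      · have g4 : ct 6 2 (e 12 (3 + 2)) = 24 := h24
        show 28 ≤ ct 6 2 (e 12 (3 + 2)) + 13
        omega
      · exact ct_three hl' (by omega)
    · intro y hy x hp hl'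
      have hxe : x = e 12 5 := ((mem_Pds.mp hy).2 x hp.1)
      have := nab_le_row h C (x := x) (by
        rw [hxe]
        exact C.le_t 12 5 le_rfl (by omega) (by omega)) hl'.le (l := 6) (by norm_num)
      omega
  · rw [hb]
    exact dt_loc hl

end La5

end Pool.Agent.GaussPoset.W6
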