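import Pool.Agent.W_448w6_h53.WdC
import Pool.Agent.W_448w6_h53.WcA
import Pool.Agent.W_448w6_h53.WcB
import Pool.Agent.W_448w6_h53.WcC
import Pool.Agent.W_448w6_h53.WcD

/-!
The components at the window 6, level 12: the elements below `La6` (MP_448cb3_co, `j = 12`).
-/

namespace Pool.Agent.GaussPoset.W6

set_option linter.unusedSectionVars false
set_option synthInstance.maxSize 1000

open Polynomial Finset Dd Wd Cl Sg

universe u

variable {P : Type u} [Fintype P] [PartialOrder P] [DecidableEq P] {r : ℕ}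
variable {t : Tops P} {lo hi : ℕ → ℕ} {e : ℕ → ℕ → P}

/-- the cells of `La6` -/
def c6 (e : ℕ → ℕ → P) (a : ℕ) : P := e (La6lv.getD a 0) (La6sl.getD a 0)

/-- the covers, 24 cells -/
def L6cv : List ℕ := [0, 1, 2, 4, 8, 16, 32, 32, 64, 192, 768, 512, 3072, 2048, 4096, 12288, 8192,
  49152, 98304, 65536, 131072, 393216, 786432, 524288]

/-- the levels, 24 cells -/
def L6lv : List ℕ := [0, 1, 2, 3, 4, 5, 6, 6, 7, 7, 8, 8, 9, 9, 10, 10, 10, 11, 11, 11, 12, 12,
  12, 12]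

/-- the cells above, 24 cells -/
def L6um : List ℕ := [1, 3, 7, 15, 31, 63, 127, 191, 383, 767, 2047, 2815, 8191, 11007, 24575,
  49151, 76543, 196607, 376831, 600831, 1245183, 2621439, 5095423, 8989439]

lemma La6_cod (D : WordD 12 6 wa6 lo hi) (C : Cp.Comp 12 (t : P) lo hi e)
    (h : Win.GoodTo P r 12) :
    Cod 24 (fun a => L6cv.getD a 0) (fun a => L6lv.getD a 0) (c6 e) := by
  obtain ⟨h1, h2⟩ := D.rows C
  have key : Cod 24 (fun a => La6cv.getD a 0) (fun a => La6lv.getD a 0) (c6 e) :=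
    La6_strip.cod C h.H h.good t.2 (by norm_num) h1 h2
  have e1 : ∀ a < 24, L6cv.getD a 0 = La6cv.getD a 0 := by decide +kernel
  have e2 : ∀ a < 24, L6lv.getD a 0 = La6lv.getD a 0 := by decide +kernel
  refine ⟨key.inj, fun a ha y => ?_, fun a ha => ?_⟩
  · rw [e1 a ha]
    exact key.cov a ha y
  · rw [e2 a ha]
    exact key.lev a ha

lemma La6_low (D : WordD 12 6 wa6 lo hi) (C : Cp.Comp 12 (t : P) lo hi e) (x : P) :
    x ∈ lowPart 12 (t : P) ↔ ∃ a < 24, c6 e a = x := by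
  obtain ⟨h1, h2⟩ := D.rows C
  constructor
  · exact fun hx => La6_strip.surj' C (by norm_num) h1 h2 hx
  · rintro ⟨a, ha, rfl⟩
    have h3 := La6_strip.row a (by omega)
    have h4 : La6lv.getD a 0 ≤ 12 := by
      have h : ∀ a < 24, La6lv.getD a 0 ≤ 12 := by decide +kernel
      exact h a ha
    rw [← h1 _ h4, ← h2 _ h4] at h3
    rw [mem_lowPart]
    exact ⟨C.le_t _ _ h4 h3.1 h3.2, (C.lev_e _ _ h4 h3.1 h3.2).le.trans h4⟩

lemma c6_20 : c6 e 20 = e 12 3 := rfl
lemma c6_21 : c6 e 21 = e 12 4 := rfl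
lemma c6_22 : c6 e 22 = e 12 5 := rfl
lemma c6_23 : c6 e 23 = e 12 6 := rfl

lemma L6_cv : ∀ a < 24, L6cv.getD a 0 < 2 ^ a := by decide +kernel

lemma L6_cv24 : ∀ a < 24, L6cv.getD a 0 < 2 ^ 24 := by decide +kernel

lemma L6_um : ∀ a < 24, L6um.getD a 0 = Nat.lor (2 ^ a)
    (orM (fun a => L6um.getD a 0) 24 (L6cv.getD a 0)) := by decide +kernel

lemma L6_lv12 : ∀ a < 24, L6lv.getD a 0 = 12 → 20 ≤ a := by decide +kernel

lemma L6_lvle : ∀ a < 24, L6lv.getD a 0 ≤ 12 := by decide +kernel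

lemma L6_lv20 : ∀ a < 24, 20 ≤ a → L6lv.getD a 0 = 12 := by decide +kernel

lemma L6_adj : ∀ a < 24, ∀ b < 24, 20 ≤ a → 20 ≤ b → a ≠ b →
    (∃ k < 24, (L6cv.getD a 0).testBit k = true ∧ (L6cv.getD b 0).testBit k = true) →
    b = a + 1 ∨ a = b + 1 := by decide +kernel

lemma L6_two : ∀ a < 24, 20 ≤ a → a ≠ 20 → a ≠ 23 → ∃ k < 24, ∃ k' < 24, k ≠ k' ∧
    (L6cv.getD a 0).testBit k = true ∧ (L6cv.getD a 0).testBit k' = true := by decide +kernel

/-- the masks of the elements of level 13 -/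
def msk : List ℕ := [8388608, 1048576, 12582912, 6291456, 3145728, 9437184]

lemma msk_two : ∀ a < 24, ∀ b < 24, 20 ≤ a → 20 ≤ b → a ≠ b →
    (b = a + 1 ∨ a = b + 1 ∨ (a = 20 ∧ b = 23) ∨ (a = 23 ∧ b = 20)) →
    Nat.lor (2 ^ a) (2 ^ b) ∈ msk := by decide +kernel

lemma c6_lev (D : WordD 12 6 wa6 lo hi) (C : Cp.Comp 12 (t : P) lo hi e)
    (h : Win.GoodTo P r 12) {a : ℕ} (ha : a < 24) : lev (c6 e a) = L6lv.getD a 0 :=
  (La6_cod D C h).lev a ha

lemma c6_le (D : WordD 12 6 wa6 lo hi) (C : Cp.Comp 12 (t : P) lo hi e) {a : ℕ} (ha : a < 24) :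
    c6 e a ≤ (t : P) :=
  (mem_lowPart.mp ((La6_low D C _).mpr ⟨a, ha, rfl⟩)).1

/-- there are no pendants below the inner cells -/
lemma La6_pen (D : WordD 12 6 wa6 lo hi) (C : Cp.Comp 12 (t : P) lo hi e)
    (h : Win.GoodTo P r 12) {a : ℕ} (ha : a = 21 ∨ a = 22) {z : P} (hz : z ⋖ c6 e a) :
    (Win.uc z).card ≠ 1 := by
  classical
  obtain ⟨r1, r2⟩ := D.rows C
  have e1 : losW 6 wa6 9 = 2 ∧ losW 6 wa6 10 = 2 ∧ losW 6 wa6 11 = 3 ∧ hisW 6 wa6 9 = 3 ∧
      hisW 6 wa6 10 = 4 ∧ hisW 6 wa6 11 = 5 := by decide +kernel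
  have l9 := r1 9 (by norm_num)
  have l10 := r1 10 (by norm_num)
  have l11 := r1 11 (by norm_num)
  have u9 := r2 9 (by norm_num)
  have u10 := r2 10 (by norm_num)
  have u11 := r2 11 (by norm_num)
  have key := (Win.near_level' (i := 11) h (by norm_num)).2 (t : P) lo hi e t.2 C.toWin
  have nL : ¬ Win.LCO lo hi 11 := by
    rintro ⟨-, g1, -⟩
    norm_num at g1
    omega
  have nR : ¬ Win.RCO lo hi 11 := by
    rintro ⟨-, g1, -⟩
    norm_num at g1
    omega
  rcases key with ⟨-, -, g⟩ | ⟨g, -⟩ | ⟨g, -⟩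
  · intro hc
    have hcard : (Win.pen (c6 e a)).card = 0 := by
      rcases ha with rfl | rfl
      · exact g 4 (by omega) (by omega)
      · exact g 5 (by omega) (by omega)
    rw [Finset.card_eq_zero] at hcard
    have hmem : z ∈ Win.pen (c6 e a) := by
      unfold Win.pen
      rw [mem_filter]
      exact ⟨mem_univ _, hz, hc⟩
    rw [hcard] at hmem
    exact absurd hmem (Finset.notMem_empty _)
  · exact absurd g nL
  · exact absurd g nR

/-- the covers of `z` are the cells of the mask `m` -/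
def Mk (e : ℕ → ℕ → P) (z : P) (m : ℕ) : Prop :=
  lev z = 13 ∧ ∀ y, z ⋖ y ↔ ∃ b < 24, m.testBit b = true ∧ c6 e b = y

/-- **The elements of level 13 below the strip only.** -/
theorem La6_msk (D : WordD 12 6 wa6 lo hi) (C : Cp.Comp 12 (t : P) lo hi e)
    (h : Win.GoodTo P r 12) {z : P} (hz : lev z = 13) (hzt : ∀ y, z ⋖ y → y ≤ (t : P)) :
    ∃ m ∈ msk, Mk e z m := by
  classical
  have hC := La6_cod D C h
  have hlev : ∀ y, z ⋖ y → lev y = 12 := by
    intro y hy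
    have := (h.H.covBy_iff.mp hy).2
    omega
  have hcell : ∀ y, z ⋖ y → ∃ a < 24, 20 ≤ a ∧ c6 e a = y := by
    intro y hy
    obtain ⟨a, ha, rfl⟩ := (La6_low D C y).mp (mem_lowPart.mpr ⟨hzt y hy, (hlev y hy).le⟩)
    refine ⟨a, ha, L6_lv12 a ha ?_, rfl⟩
    rw [← c6_lev D C h ha]
    exact hlev _ hy
  rcases Win.uc_card_cases h.H (x := z) (by omega) with h1 | h1
  · obtain ⟨y, hy⟩ := Finset.card_eq_one.mp h1
    have hzy : ∀ y', z ⋖ y' ↔ y' = y := by
      intro y'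
      rw [← Win.mem_uc, hy, mem_singleton]
    obtain ⟨a, ha, ha20, rfl⟩ := hcell y ((hzy y).mpr rfl)
    have ha2 : a = 20 ∨ a = 23 := by
      by_contra hcon
      push Not at hcon
      exact La6_pen D C h (a := a) (by omega) ((hzy _).mpr rfl) h1
    refine ⟨2 ^ a, by rcases ha2 with rfl | rfl <;> decide +kernel, hz, fun y' => ?_⟩
    rw [hzy]
    constructor
    · rintro rfl
      exact ⟨a, ha, Nat.testBit_two_pow_self, rfl⟩
    · rintro ⟨b, hb, hbit, rfl⟩
      by_cases hab : a = b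
      · rw [hab]
      · rw [Nat.testBit_two_pow_of_ne hab] at hbit
        exact absurd hbit (by simp)
  · obtain ⟨y, y', hne, hy⟩ := Finset.card_eq_two.mp h1
    have hzy : ∀ w, z ⋖ w ↔ w = y ∨ w = y' := by
      intro w
      rw [← Win.mem_uc, hy, mem_insert, mem_singleton]
    have c1 := (hzy y).mpr (Or.inl rfl)
    have c2 := (hzy y').mpr (Or.inr rfl)
    obtain ⟨a, ha, ha25, rfl⟩ := hcell y c1
    obtain ⟨b, hb, hb25, rfl⟩ := hcell y' c2
    have hab : a ≠ b := fun h => hne (by rw [h])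
    have hadj : b = a + 1 ∨ a = b + 1 ∨ (a = 20 ∧ b = 23) ∨ (a = 23 ∧ b = 20) := by
      rcases (Win.near_level' (i := 11) h (by norm_num)).1 z _ _ hz c1 c2 hne with
        h2 | ⟨h2, h3, -⟩
      · have h4 : 0 < ucv (c6 e a) (c6 e b) := by omega
        unfold ucv at h4
        obtain ⟨u, hu⟩ := Finset.card_pos.mp h4
        rw [mem_filter] at hu
        obtain ⟨k, hk, hk1, hk2⟩ := (hC.cov a ha u).mp hu.2.1
        obtain ⟨k', hk', hk3, hk4⟩ := (hC.cov b hb u).mp hu.2.2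
        have hkk : k' = k := hC.inj k' hk' k hk (hk4.trans hk2.symm)
        rw [hkk] at hk3
        rcases L6_adj a ha b hb ha25 hb25 hab ⟨k, hk, hk1, hk3⟩ with h5 | h5
        · exact Or.inl h5
        · exact Or.inr (Or.inl h5)
      · have key : ∀ d < 24, 20 ≤ d → (Win.uc (c6 e d)).card = 1 → d = 20 ∨ d = 23 := by
          intro d hd hd25 h4
          by_contra hcon
          push Not at hcon
          obtain ⟨k, hk, k', hk', hkk, b1, b2⟩ := L6_two d hd hd25 hcon.1 hcon.2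
          obtain ⟨w, hw⟩ := Finset.card_eq_one.mp h4
          have e1 : c6 e k ∈ Win.uc (c6 e d) := Win.mem_uc.mpr ((hC.cov d hd _).mpr
            ⟨k, hk, b1, rfl⟩)
          have e2 : c6 e k' ∈ Win.uc (c6 e d) := Win.mem_uc.mpr ((hC.cov d hd _).mpr
            ⟨k', hk', b2, rfl⟩)
          rw [hw, mem_singleton] at e1 e2
          exact hkk (hC.inj k hk k' hk' (e1.trans e2.symm))
        rcases key a ha ha25 h2 with h5 | h5 <;> rcases key b hb hb25 h3 with h6 | h6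
        · omega
        · exact Or.inr (Or.inr (Or.inl ⟨h5, h6⟩))
        · exact Or.inr (Or.inr (Or.inr ⟨h5, h6⟩))
        · omega
    refine ⟨Nat.lor (2 ^ a) (2 ^ b), msk_two a ha b hb ha25 hb25 hab hadj, hz, fun w => ?_⟩
    rw [hzy]
    have hbit : ∀ k, (Nat.lor (2 ^ a) (2 ^ b)).testBit k = true ↔ k = a ∨ k = b := by
      intro k
      have h5 : (Nat.lor (2 ^ a) (2 ^ b)).testBit k = ((2 ^ a).testBit k || (2 ^ b).testBit k) :=
        Nat.testBit_or _ _ _
      rw [h5, Bool.or_eq_true]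
      constructor
      · rintro (h | h)
        · left
          by_contra hne'
          rw [Nat.testBit_two_pow_of_ne (Ne.symm hne')] at h
          exact absurd h (by simp)
        · right
          by_contra hne'
          rw [Nat.testBit_two_pow_of_ne (Ne.symm hne')] at h
          exact absurd h (by simp)
      · rintro (rfl | rfl)
        · exact Or.inl Nat.testBit_two_pow_self
        · exact Or.inr Nat.testBit_two_pow_self
    constructor
    · rintro (rfl | rfl)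
      · exact ⟨a, ha, (hbit a).mpr (Or.inl rfl), rfl⟩
      · exact ⟨b, hb, (hbit b).mpr (Or.inr rfl), rfl⟩
    · rintro ⟨k, hk, hk2, rfl⟩
      rcases (hbit k).mp hk2 with rfl | rfl
      · exact Or.inl rfl
      · exact Or.inr rfl

/-- the cost of an element of level 13 -/
lemma La6_ct (D : WordD 12 6 wa6 lo hi) (C : Cp.Comp 12 (t : P) lo hi e)
    (h : Win.GoodTo P r 12) {z : P} {m : ℕ} (hm : Mk e z m) (k : ℕ) :
    ct 6 k z = min k 7 + ∑ b ∈ (range 24).filter
      (fun b => (orM (fun a => L6um.getD a 0) 24 m).testBit b = true),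
        min k (L6lv.getD b 0 - 6) := by
  rw [cod_ct (La6_cod D C h) L6_cv L6_um hm.2, hm.1]

lemma Mk.cov {z : P} {m b : ℕ} (h : Mk e z m) (hb : b < 24) (hbit : m.testBit b = true) :
    z ⋖ c6 e b := (h.2 _).mpr ⟨b, hb, hbit, rfl⟩

lemma Mk.ncov (D : WordD 12 6 wa6 lo hi) (C : Cp.Comp 12 (t : P) lo hi e)
    (hgt : Win.GoodTo P r 12) {z : P} {m b : ℕ} (h : Mk e z m) (hb : b < 24)
    (hbit : m.testBit b = false) : ¬ z ⋖ c6 e b := by
  intro hz
  obtain ⟨k, hk, h1, h2⟩ := (h.2 _).mp hz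
  rw [(La6_cod D C hgt).inj k hk b hb h2] at h1
  rw [h1] at hbit
  exact absurd hbit (by simp)

lemma Mk.ne (D : WordD 12 6 wa6 lo hi) (C : Cp.Comp 12 (t : P) lo hi e)
    (hgt : Win.GoodTo P r 12) {z z' : P} {m m' b : ℕ} (h : Mk e z m) (h' : Mk e z' m')
    (hb : b < 24) (h1 : m.testBit b = true) (h2 : m'.testBit b = false) : z ≠ z' := by
  rintro rfl
  exact h'.ncov D C hgt hb h2 (h.cov hb h1)

/-- the cost of the label one, two, three -/
lemma msk_cost2 : ∀ m ∈ msk, m.testBit 23 = false → (m = 1048576 ∨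
    26 ≤ min 2 7 + ∑ b ∈ (range 24).filter
      (fun b => (orM (fun a => L6um.getD a 0) 24 m).testBit b = true),
        min 2 (L6lv.getD b 0 - 6)) := by decide +kernel

/-- the elements with additional covers -/
theorem La6_ext (D : WordD 12 6 wa6 lo hi) (C : Cp.Comp 12 (t : P) lo hi e)
    (h : Win.GoodTo P r 12) {K : ℕ} {z : ℕ → P} {cx : ℕ → ℕ} {cvL lvL : List ℕ}
    (h1 : ∀ a < 24, cvL.getD a 0 = L6cv.getD a 0) (h2 : ∀ a < 24, lvL.getD a 0 = L6lv.getD a 0)
    (h3 : ∀ k < K, cvL.getD (24 + k) 0 = cx k) (h4 : ∀ k < K, lvL.getD (24 + k) 0 = 13)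
    (hx : ∀ k < K, cx k < 2 ^ 24) (hinj : ∀ a < K, ∀ b < K, z a = z b → a = b)
    (hz : ∀ k < K, Mk e (z k) (cx k)) :
    Cod (24 + K) (fun a => cvL.getD a 0) (fun a => lvL.getD a 0) (czg 24 (c6 e) z) := by
  refine cod_append (La6_cod D C h) L6_cv24 hx h1 h2 h3 h4 hinj ?_ (fun k hk => (hz k hk).2)
    (fun k hk => (hz k hk).1)
  intro a ha b hb hh
  have h5 := c6_lev D C h ha
  rw [hh, (hz b hb).1] at h5
  have := L6_lvle a ha
  omega

end Pool.Agent.GaussPoset.W6
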