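import Pool.Agent.W_448w6_h53.WdD

/-!
The strip `La6` with elements of level 13: patterns up to the energy 23
(MP_448cb3_co, `j = 12`).
-/

namespace Pool.Agent.GaussPoset.W6

set_option linter.unusedSectionVars false
set_option synthInstance.maxSize 1000

open Polynomial Finset Dd Wd Cl Sg

universe u

variable {P : Type u} [Fintype P] [PartialOrder P] [DecidableEq P] {r : ℕ}
variable {t : Tops P} {lo hi : ℕ → ℕ} {e : ℕ → ℕ → P}

/-- the value of the component from the value of the natural set -/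
lemma pt_of {n0 b : ℕ} {ρ : ℤ} {Y : Finset P}
    (h : ∀ f : Polynomial (PowerSeries ℤ),
      (∀ n, exq n f = Z {y : P // y ∈ lowPart 12 (t : P) ∪ Y} 6 n) → Pl n0 b ρ f) :
    PT n0 t b ρ Y := by
  intro N HN _ hN
  right
  intro f hf
  refine h f fun n => ?_
  rw [hf n]
  have hiso : {x : P // x ∈ N t} ≃o {x : {x : P // x ∉ unnat N} // topOf (x : P) = t} :=
    { toFun := fun x => ⟨⟨x, (HN.mem_iff.mp x.2).1⟩, HN.topOf_eq x.2⟩
      invFun := fun x => ⟨x.1.1, HN.mem_iff.mpr ⟨x.1.2, x.2⟩⟩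
      left_inv := fun x => rfl
      right_inv := fun x => rfl
      map_rel_iff' := Iff.rfl }
  rw [← Z_iso hiso, hN]

/-- a code of an extended strip -/
structure Cd (t : Tops P) (e : ℕ → ℕ → P) (cvL lvL : List ℕ) (K : ℕ) (c : ℕ → P)
    (S : Finset P) : Prop where
  cod : Cod (24 + K) (fun a => cvL.getD a 0) (fun a => lvL.getD a 0) c
  cell : ∀ a < 24, c a = c6 e a
  mem : ∀ x, x ∈ S ↔ ∃ a < 24 + K, c a = x

/-- the code of the strip with elements of level 13 -/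
theorem cd13 (D : WordD 12 6 wa6 lo hi) (C : Cp.Comp 12 (t : P) lo hi e)
    (h : Win.GoodTo P r 12) {K : ℕ} {z : ℕ → P} {cx : ℕ → ℕ} {cvL lvL : List ℕ}
    (h1 : ∀ a < 24, cvL.getD a 0 = L6cv.getD a 0) (h2 : ∀ a < 24, lvL.getD a 0 = L6lv.getD a 0)
    (h3 : ∀ k < K, cvL.getD (24 + k) 0 = cx k) (h4 : ∀ k < K, lvL.getD (24 + k) 0 = 13)
    (hx : ∀ k < K, cx k < 2 ^ 24) (hinj : ∀ a < K, ∀ b < K, z a = z b → a = b)
    (hz : ∀ k < K, Mk e (z k) (cx k)) {A : Finset P} (hA : ∀ x, x ∈ A ↔ ∃ k < K, z k = x) :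
    Cd t e cvL lvL K (czg 24 (c6 e) z) (lowPart 12 (t : P) ∪ A) :=
  ⟨La6_ext D C h h1 h2 h3 h4 hx hinj hz, fun _ ha => czg_lt ha, czg_mem (La6_low D C) hA⟩

section Cd

variable {cvL lvL : List ℕ} {K : ℕ} {c : ℕ → P} {S : Finset P}

/-- local data from a certificate -/
theorem Cd.loc (W : Cd t e cvL lvL K c S) {N Kc n1 : ℕ} {Us umL thL : List ℕ}
    {L PL : List (ℕ × ℕ × ℕ × ℕ × ℕ)}
    (hus : UsOK N (fun a => cvL.getD a 0) Us) (hpol : polC N (2 ^ 100) Kc Us 6 PL = true)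
    (hlow : lowC N Kc 6 n1 (fun a => lvL.getD a 0) Us 8989439 L = true)
    (hsub : ∀ x ∈ L, x ∈ PL)
    (hth : thChk N 6 23 (fun a => lvL.getD a 0) (fun a => cvL.getD a 0)
      (fun a => umL.getD a 0) (fun a => thL.getD a 0) = true)
    (hbm : bmC N 6 23 8989439 (fun a => lvL.getD a 0) (fun a => umL.getD a 0) = true)
    (hN : 24 + K ≤ N) :
    LocL 6 2 (n1 + 1) S (thI (24 + K) c (fun a => thL.getD a 0)) (fun x => x = c6 e 23) := by
  have hl := cod_locL' W.cod hus hN hth (by omega) W.mem hpol hlow hsub hbm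
    (lt_of_lt_of_le (by norm_num) (Nat.pow_le_pow_right (by norm_num)
      (show 24 ≤ 24 + K by omega)))
  rw [W.cell 23 (by norm_num)] at hl
  exact hl

lemma Cd.th (W : Cd t e cvL lvL K c S) (thL : List ℕ) {a : ℕ} (ha : a < 24) :
    thI (24 + K) c (fun a => thL.getD a 0) (c6 e a) = thL.getD a 0 := by
  have h1 := thI_c W.cod (fun a => thL.getD a 0) (a := a) (by omega)
  rwa [W.cell a ha] at h1

/-- the value of the complete set -/
theorem Cd.val (W : Cd t e cvL lvL K c S) {N Kc n0 : ℕ} {Us : List ℕ}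
    {PL F : List (ℕ × ℕ × ℕ × ℕ × ℕ)}
    (hus : UsOK N (fun a => cvL.getD a 0) Us) (hpol : polC N (2 ^ 100) Kc Us 6 PL = true)
    (hsub : ∀ x ∈ F, x ∈ PL)
    (hnum : ∀ x ∈ F, numC N Kc 6 n0 (fun a => lvL.getD a 0) x = true)
    (hmem : ∀ x ∈ F, x.1 ∈ Us) (hN : 24 + K ≤ N) {x : ℕ × ℕ × ℕ × ℕ × ℕ} (hxF : x ∈ F)
    (hxJ : x.1 = 2 ^ (24 + K) - 1) (hs : sgn x.2.1 x.2.2.1 6 = 1)
    (h7 : ((range (24 + K)).filter (fun a => lvL.getD a 0 < 6)).card = 6)
    (h8 : ((range (24 + K)).filter (fun a => lvL.getD a 0 = 6)).card = 2)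
    {f : Polynomial (PowerSeries ℤ)} (hf : ∀ n, exq n f = Z {y : P // y ∈ S} 6 n) :
    Pl n0 2 (x.2.2.2.2 : ℤ) f := by
  obtain ⟨g1, g2⟩ := toS_full hxJ W.mem
  have h10 := cod_val W.cod hus hN hpol (hsub x hxF) (hmem x hxF) g2 (hnum x hxF)
  rw [g1, hs, one_mul] at h10
  obtain ⟨k1, k2⟩ := cod_low6 W.cod W.mem h7 h8
  exact pl_of_val h10 k1 k2 hf

/-- the negative value of the complete set -/
theorem Cd.valN (W : Cd t e cvL lvL K c S) {N Kc n0 : ℕ} {Us : List ℕ}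
    {F : List (ℕ × ℕ × ℕ × ℕ × ℕ)}
    (hus : UsOK N (fun a => cvL.getD a 0) Us) (hpol : polN N (2 ^ 100) Kc Us 6 F = true)
    (hnum : ∀ x ∈ F, numC N Kc 6 n0 (fun a => lvL.getD a 0) x = true)
    (hmem : ∀ x ∈ F, x.1 ∈ Us) (hN : 24 + K ≤ N) {x : ℕ × ℕ × ℕ × ℕ × ℕ} (hxF : x ∈ F)
    (hxJ : x.1 = 2 ^ (24 + K) - 1) (hs : sgn x.2.1 x.2.2.1 6 = 1)
    (h7 : ((range (24 + K)).filter (fun a => lvL.getD a 0 < 6)).card = 6)
    (h8 : ((range (24 + K)).filter (fun a => lvL.getD a 0 = 6)).card = 2)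
    {f : Polynomial (PowerSeries ℤ)} (hf : ∀ n, exq n f = Z {y : P // y ∈ S} 6 n) :
    Pl n0 2 (-(x.2.2.2.2 : ℤ)) f := by
  obtain ⟨g1, g2⟩ := toS_full hxJ W.mem
  have h10 := cod_valN W.cod hus hN hpol hxF (hmem x hxF) g2 (hnum x hxF)
  rw [g1, hs, one_mul] at h10
  obtain ⟨k1, k2⟩ := cod_low6 W.cod W.mem h7 h8
  exact pl_of_val h10 k1 k2 hf

/-- no value at the energy `n0` -/
theorem Cd.zero (W : Cd t e cvL lvL K c S) {n0 n1 : ℕ} {θ : P → ℕ} {B : P → Prop}
    (hl : LocL 6 2 n1 S θ B) (hn : n0 < n1)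
    (h7 : ((range (24 + K)).filter (fun a => lvL.getD a 0 < 6)).card = 6)
    (h8 : ((range (24 + K)).filter (fun a => lvL.getD a 0 = 6)).card = 2)
    {f : Polynomial (PowerSeries ℤ)} (hf : ∀ n, exq n f = Z {y : P // y ∈ S} 6 n) :
    Pl n0 2 0 f := by
  have hup : ∀ x ∈ S, ∀ y, x ≤ y → y ∈ S := by
    intro x hx y hxy
    rw [W.mem] at hx ⊢
    obtain ⟨a, ha, rfl⟩ := hx
    exact cod_above W.cod ha hxy
  have hcl := hl.clean S (Finset.Subset.refl _) hup (fun x hx _ => hx) (fun x hx _ => hx)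
  obtain ⟨k1, k2⟩ := cod_low6 W.cod W.mem h7 h8
  have h0 : exq 0 f = X ^ 6 * (1 + X) ^ 2 := by
    rw [hf, Z_zero, k1, k2]
  refine ⟨fun m hm => ?_, by norm_num, X ^ 6, 0, by rw [h0, mul_comm], ?_, ?_, ?_⟩
  · rw [hf]
    exact hcl m (by omega)
  · rw [eval_pow, eval_X]
    norm_num
  · rw [mul_zero, sub_zero, hf]
    exact hcl n0 hn
  · rw [eval_zero, zero_mul]

end Cd

/-- what is used about an extended strip: local data, the value at the energy 23, the thresholds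
of the cells and of the other elements -/
structure Ext (t : Tops P) (e : ℕ → ℕ → P) (A : Finset P) (θ : P → ℕ) (ρ : ℤ) : Prop where
  loc : LocL 6 2 23 (lowPart 12 (t : P) ∪ A) θ (fun x => x = c6 e 23)
  pl : ∀ f : Polynomial (PowerSeries ℤ),
    (∀ n, exq n f = Z {y : P // y ∈ lowPart 12 (t : P) ∪ A} 6 n) → Pl 23 2 ρ f
  zero : θ (c6 e 23) = 0
  one : ∀ a < 23, 20 ≤ a → 1 ≤ θ (c6 e a)
  ex : ∀ x ∈ A, ∃ m ∈ [12582912, 9437184, 1048576], Mk e x m ∧ 1 ≤ θ x ∧
    (m = 1048576 → 2 ≤ θ x)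

section Pats

variable (D : WordD 12 6 wa6 lo hi) (C : Cp.Comp 12 (t : P) lo hi e) (h : Win.GoodTo P r 12)

include D C h in
/-- elements below the first two cells only -/
theorem pat_a {K : ℕ} (hK : K ≤ 2) {z : ℕ → P} (hinj : ∀ a < K, ∀ b < K, z a = z b → a = b)
    (hz : ∀ k < K, Mk e (z k) 12582912) {A : Finset P} (hA : ∀ x, x ∈ A ↔ ∃ k < K, z k = x) :
    ∃ θ : P → ℕ, Ext t e A θ 0 ∧ 2 ≤ θ (c6 e 20) := by
  have g3 : ∀ k < 2, Qacv.getD (24 + k) 0 = 12582912 := by decide +kernel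
  have g4 : ∀ k < 2, Qalv.getD (24 + k) 0 = 13 := by decide +kernel
  have W := cd13 D C h (K := K) (z := z) (cx := fun _ => 12582912) (cvL := Qacv)
    (lvL := Qalv) (by decide +kernel) (by decide +kernel) (fun k hk => g3 k (by omega))
    (fun k hk => g4 k (by omega)) (fun _ _ => by norm_num) hinj hz hA
  have hl := W.loc Qa_us Qa_pol Qa_low (fun x hx => hx) Qa_th Qa_bm (by omega)
  have hth' : ∀ k < K, thI (24 + K) (czg 24 (c6 e) z) (fun a => Qath.getD a 0) (z k) =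
      Qath.getD (24 + k) 0 := by
    intro k hk
    have h1 := thI_c W.cod (fun a => Qath.getD a 0) (a := 24 + k) (by omega)
    rwa [czg_add] at h1
  have h7 : ∀ K < 3, ((range (24 + K)).filter (fun a => Qalv.getD a 0 < 6)).card = 6 ∧
      ((range (24 + K)).filter (fun a => Qalv.getD a 0 = 6)).card = 2 := by decide +kernel
  refine ⟨_, ⟨⟨fun U h1 h2 h3 h4 n hn => hl.clean U h1 h2 h3 h4 n (by omega), hl.lev, hl.base,
    hl.step, hl.le⟩, ?_, ?_, ?_, ?_⟩, ?_⟩
  · intro f hf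
    exact W.zero hl (by norm_num) (h7 K (by omega)).1 (h7 K (by omega)).2 hf
  · rw [W.th Qath (by norm_num)]
    decide +kernel
  · intro a h1 h2
    rw [W.th Qath (by omega)]
    have h3 : ∀ a < 23, 20 ≤ a → 1 ≤ Qath.getD a 0 := by decide +kernel
    exact h3 a h1 h2
  · intro x hx
    obtain ⟨k, hk, rfl⟩ := (hA x).mp hx
    refine ⟨12582912, by decide, hz k hk, ?_, fun h => absurd h (by norm_num)⟩
    rw [hth' k hk]
    have h3 : ∀ k < 2, 1 ≤ Qath.getD (24 + k) 0 := by decide +kernel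
    exact h3 k (by omega)
  · rw [W.th Qath (by norm_num)]
    decide +kernel

include D C h in
/-- a pattern from a certificate -/
theorem pat_g {N Kc : ℕ} {Us cvL lvL umL thL : List ℕ} {L F : List (ℕ × ℕ × ℕ × ℕ × ℕ)}
    (hus : UsOK N (fun a => cvL.getD a 0) Us) (hpol : polC N (2 ^ 100) Kc Us 6 (L ++ F) = true)
    (hlow : lowC N Kc 6 22 (fun a => lvL.getD a 0) Us 8989439 L = true)
    (hth : thChk N 6 23 (fun a => lvL.getD a 0) (fun a => cvL.getD a 0)
      (fun a => umL.getD a 0) (fun a => thL.getD a 0) = true)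
    (hbm : bmC N 6 23 8989439 (fun a => lvL.getD a 0) (fun a => umL.getD a 0) = true)
    (hnum : ∀ x ∈ F, numC N Kc 6 23 (fun a => lvL.getD a 0) x = true)
    (hmem : ∀ x ∈ F, x.1 ∈ Us)
    (h1 : ∀ a < 24, cvL.getD a 0 = L6cv.getD a 0) (h2 : ∀ a < 24, lvL.getD a 0 = L6lv.getD a 0)
    {K : ℕ} (hN : 24 + K ≤ N) {zf : ℕ → P} {cf : ℕ → ℕ}
    (h3 : ∀ k < K, cvL.getD (24 + k) 0 = cf k) (h4 : ∀ k < K, lvL.getD (24 + k) 0 = 13)
    (hx : ∀ k < K, cf k ∈ [12582912, 9437184, 1048576])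
    (hinj : ∀ a < K, ∀ b < K, zf a = zf b → a = b)
    (hz : ∀ k < K, Mk e (zf k) (cf k)) {A : Finset P} (hA : ∀ x, x ∈ A ↔ ∃ k < K, zf k = x)
    (hthr : (∀ a < 23, 20 ≤ a → 1 ≤ thL.getD a 0) ∧ thL.getD 23 0 = 0 ∧
      ∀ k < K, 1 ≤ thL.getD (24 + k) 0 ∧ (cf k = 1048576 → 2 ≤ thL.getD (24 + k) 0))
    {x : ℕ × ℕ × ℕ × ℕ × ℕ} (hxF : x ∈ F) (hxJ : x.1 = 2 ^ (24 + K) - 1)
    (hs : sgn x.2.1 x.2.2.1 6 = 1)
    (h7 : ((range (24 + K)).filter (fun a => lvL.getD a 0 < 6)).card = 6)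
    (h8 : ((range (24 + K)).filter (fun a => lvL.getD a 0 = 6)).card = 2) :
    ∃ θ : P → ℕ, Ext t e A θ (x.2.2.2.2 : ℤ) := by
  have hx' : ∀ k < K, cf k < 2 ^ 24 := by
    intro k hk
    have h : ∀ m ∈ [12582912, 9437184, 1048576], m < 2 ^ 24 := by decide
    exact h _ (hx k hk)
  have W := cd13 D C h (K := K) (z := zf) (cx := cf) (cvL := cvL)
    (lvL := lvL) h1 h2 h3 h4 hx' hinj hz hA
  have hl := W.loc hus hpol hlow (fun x hx => List.mem_append_left _ hx) hth hbm hN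
  have hth' : ∀ k < K, thI (24 + K) (czg 24 (c6 e) zf) (fun a => thL.getD a 0) (zf k) =
      thL.getD (24 + k) 0 := by
    intro k hk
    have h1 := thI_c W.cod (fun a => thL.getD a 0) (a := 24 + k) (by omega)
    rwa [czg_add] at h1
  refine ⟨_, ⟨hl, ?_, ?_, ?_, ?_⟩⟩
  · intro f hf
    exact W.val hus hpol (fun x hx => List.mem_append_right _ hx) hnum hmem hN hxF hxJ hs h7 h8 hf
  · rw [W.th thL (by norm_num)]
    exact hthr.2.1
  · intro a h1 h2
    rw [W.th thL (by omega)]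
    exact hthr.1 a h1 h2
  · intro y hy
    obtain ⟨k, hk, rfl⟩ := (hA y).mp hy
    refine ⟨cf k, hx k hk, hz k hk, ?_, ?_⟩
    · rw [hth' k hk]
      exact (hthr.2.2 k hk).1
    · rw [hth' k hk]
      exact (hthr.2.2 k hk).2

include D C h in
/-- one element below the ends -/
theorem pat_b {z0 : P} (h0 : Mk e z0 9437184) {A : Finset P} (hA : ∀ x, x ∈ A ↔ x = z0) :
    ∃ θ : P → ℕ, Ext t e A θ 1 := by
  obtain ⟨θ, hh⟩ := pat_g D C h Qb_us Qb_pol Qb_low Qb_th Qb_bm Qb_num Qb_mem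
    (by decide +kernel) (by decide +kernel) (K := 1) (by norm_num)
    (zf := fun _ => z0)
    (cf := fun _ => 9437184) (by decide +kernel) (by decide +kernel) (by decide +kernel)
    (fun a ha b hb _ => by omega) (fun _ _ => h0) (A := A)
    (fun x => by rw [hA]; exact ⟨fun h => ⟨0, by norm_num, h.symm⟩, fun ⟨_, _, h⟩ => h.symm⟩)
    (by decide +kernel) (x := (33554431, 14, 11, 155, 1)) (by decide +kernel) (by norm_num)
    (by decide +kernel) (by decide +kernel) (by decide +kernel)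
  exact ⟨θ, hh⟩

include D C h in
/-- one element below the ends, one below the first two cells -/
theorem pat_c {z0 z1 : P} (h0 : Mk e z0 9437184) (h1 : Mk e z1 12582912) (hne : z0 ≠ z1)
    {A : Finset P} (hA : ∀ x, x ∈ A ↔ x = z0 ∨ x = z1) :
    ∃ θ : P → ℕ, Ext t e A θ 1 := by
  obtain ⟨θ, hh⟩ := pat_g D C h Qb_us Qb_pol Qb_low Qb_th Qb_bm Qb_num Qb_mem
    (by decide +kernel) (by decide +kernel) (K := 2) (by norm_num)
    (zf := two z0 z1)
    (cf := fun k => if k = 0 then 9437184 else 12582912) (by decide +kernel)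
    (by decide +kernel) (by decide +kernel)
    (two_inj hne) (two_all (p := fun (x : P) m => Mk e x m) h0 h1) (A := A)
    (fun x => by rw [hA]; exact Sg.two_mem (P := P))
    (by decide +kernel) (x := (67108863, 14, 12, 173, 1)) (by decide +kernel) (by norm_num)
    (by decide +kernel) (by decide +kernel) (by decide +kernel)
  exact ⟨θ, hh⟩

include D C h in
/-- one element below the ends, one pendant -/
theorem pat_d {z0 z1 : P} (h0 : Mk e z0 9437184) (h1 : Mk e z1 1048576) (hne : z0 ≠ z1)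
    {A : Finset P} (hA : ∀ x, x ∈ A ↔ x = z0 ∨ x = z1) :
    ∃ θ : P → ℕ, Ext t e A θ 1 := by
  obtain ⟨θ, hh⟩ := pat_g D C h Qc_us Qc_pol Qc_low Qc_th Qc_bm Qc_num Qc_mem
    (by decide +kernel) (by decide +kernel) (K := 2) (by norm_num)
    (zf := two z0 z1)
    (cf := fun k => if k = 0 then 9437184 else 1048576) (by decide +kernel)
    (by decide +kernel) (by decide +kernel)
    (two_inj hne) (two_all (p := fun (x : P) m => Mk e x m) h0 h1) (A := A)
    (fun x => by rw [hA]; exact Sg.two_mem (P := P))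
    (by decide +kernel) (x := (67108863, 14, 12, 173, 1)) (by decide +kernel) (by norm_num)
    (by decide +kernel) (by decide +kernel) (by decide +kernel)
  exact ⟨θ, hh⟩

include D C h in
/-- two elements below the ends -/
theorem pat_f {z0 z1 : P} (h0 : Mk e z0 9437184) (h1 : Mk e z1 9437184) (hne : z0 ≠ z1)
    {A : Finset P} (hA : ∀ x, x ∈ A ↔ x = z0 ∨ x = z1) :
    ∃ θ : P → ℕ, Ext t e A θ 2 := by
  obtain ⟨θ, hh⟩ := pat_g D C h Qd_us Qd_pol Qd_low Qd_th Qd_bm Qd_num Qd_mem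
    (by decide +kernel) (by decide +kernel) (K := 2) (by norm_num)
    (zf := two z0 z1)
    (cf := fun k => if k = 0 then 9437184 else 9437184) (by decide +kernel)
    (by decide +kernel) (by decide +kernel)
    (two_inj hne) (two_all (p := fun (x : P) m => Mk e x m) h0 h1) (A := A)
    (fun x => by rw [hA]; exact Sg.two_mem (P := P))
    (by decide +kernel) (x := (67108863, 14, 12, 173, 2)) (by decide +kernel) (by norm_num)
    (by decide +kernel) (by decide +kernel) (by decide +kernel)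
  exact ⟨θ, hh⟩

include D C h in
/-- one element below the ends, one pendant, one below the first two cells -/
theorem pat_h {z0 z1 z2 : P} (h0 : Mk e z0 9437184) (h1 : Mk e z1 1048576)
    (h2 : Mk e z2 12582912) (h01 : z0 ≠ z1) (h02 : z0 ≠ z2) (h12 : z1 ≠ z2)
    {A : Finset P} (hA : ∀ x, x ∈ A ↔ x = z0 ∨ x = z1 ∨ x = z2) :
    ∃ θ : P → ℕ, Ext t e A θ 1 := by
  obtain ⟨θ, hh⟩ := pat_g D C h Qc_us Qc_pol Qc_low Qc_th Qc_bm Qc_num Qc_mem
    (by decide +kernel) (by decide +kernel) (K := 3) (by norm_num)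
    (zf := three z0 z1 z2)
    (cf := fun k => if k = 0 then 9437184 else if k = 1 then 1048576 else 12582912)
    (by decide +kernel) (by decide +kernel) (by decide +kernel)
    (by
      intro i hi j hj h1
      obtain rfl | rfl | rfl : i = 0 ∨ i = 1 ∨ i = 2 := by omega
      · obtain rfl | rfl | rfl : j = 0 ∨ j = 1 ∨ j = 2 := by omega
        · rfl
        · exact absurd h1 h01
        · exact absurd h1 h02
      · obtain rfl | rfl | rfl : j = 0 ∨ j = 1 ∨ j = 2 := by omega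
        · exact absurd h1.symm h01
        · rfl
        · exact absurd h1 h12
      · obtain rfl | rfl | rfl : j = 0 ∨ j = 1 ∨ j = 2 := by omega
        · exact absurd h1.symm h02
        · exact absurd h1.symm h12
        · rfl)
    (by
      intro k hk
      obtain rfl | rfl | rfl : k = 0 ∨ k = 1 ∨ k = 2 := by omega
      · exact h0
      · exact h1
      · exact h2) (A := A)
    (by
      intro x
      rw [hA]
      constructor
      · rintro (h | h | h)
        · exact ⟨0, by norm_num, h.symm⟩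
        · exact ⟨1, by norm_num, h.symm⟩
        · exact ⟨2, by norm_num, h.symm⟩
      · rintro ⟨k, hk, h⟩
        obtain rfl | rfl | rfl : k = 0 ∨ k = 1 ∨ k = 2 := by omega
        · exact Or.inl h.symm
        · exact Or.inr (Or.inl h.symm)
        · exact Or.inr (Or.inr h.symm))
    (by decide +kernel) (x := (134217727, 14, 13, 192, 1)) (by decide +kernel) (by norm_num)
    (by decide +kernel) (by decide +kernel) (by decide +kernel)
  exact ⟨θ, hh⟩

end Pats

end Pool.Agent.GaussPoset.W6
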