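import Pool.Agent.W_448w6_h53.WdE

/-!
The strip `La6` at the window 6, level 12, up to the energy 23 (MP_448cb3_co, `j = 12`).
-/

namespace Pool.Agent.GaussPoset.W6

set_option linter.unusedSectionVars false
set_option synthInstance.maxSize 1000

open Polynomial Finset Dd Wd Cl Sg

universe u

variable {P : Type u} [Fintype P] [PartialOrder P] [DecidableEq P] {r : ℕ}
variable {t : Tops P} {lo hi : ℕ → ℕ} {e : ℕ → ℕ → P}

/-- what is used about a component `La6` up to the energy 23 -/
structure LaA (t : Tops P) (e : ℕ → ℕ → P) (A : Finset P) (θ : P → ℕ) (ρ : ℤ) : Prop where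
  ext : Ext t e A θ ρ
  nonneg : 0 ≤ ρ
  pos : (∃ z, Mk e z 9437184) → 0 < ρ
  m01 : ∀ z, Mk e z 12582912 → z ∈ A
  m03 : ∀ z, Mk e z 9437184 → z ∈ A
  m3 : ∀ z, Mk e z 1048576 → z ∈ A ∨ 2 ≤ θ (c6 e 20)

section

variable (D : WordD 12 6 wa6 lo hi) (C : Cp.Comp 12 (t : P) lo hi e) (h : Win.GoodTo P r 12)

include D C h in
/-- **The data of a component `La6`.** -/
theorem laA : ∃ (A : Finset P) (θ : P → ℕ) (ρ : ℤ), LaA t e A θ ρ := by
  classical
  have H := h.H
  by_cases h04 : ∃ z0, Mk e z0 9437184
  · obtain ⟨z0, h0⟩ := h04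
    have c0 := h0.cov (b := 23) (by norm_num) (by decide +kernel)
    have d0 := h0.cov (b := 20) (by norm_num) (by decide +kernel)
    -- from a pattern to the data
    have fin : ∀ (A : Finset P) (ρ : ℤ), 0 < ρ → (∀ z, z ∈ A ↔ Mk e z 9437184 ∨
        Mk e z 1048576 ∨ Mk e z 12582912) → (∃ θ : P → ℕ, Ext t e A θ ρ) →
        ∃ (A : Finset P) (θ : P → ℕ) (ρ : ℤ), LaA t e A θ ρ := by
      rintro A ρ hρ hA ⟨θ, E⟩
      exact ⟨A, θ, ρ, E, hρ.le, fun _ => hρ, fun z hz => (hA z).mpr (Or.inr (Or.inr hz)),
        fun z hz => (hA z).mpr (Or.inl hz), fun z hz => Or.inl ((hA z).mpr (Or.inr (Or.inl hz)))⟩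
    by_cases h04' : ∃ z1, Mk e z1 9437184 ∧ z0 ≠ z1
    · obtain ⟨z1, h1, hne⟩ := h04'
      have c1 := h1.cov (b := 23) (by norm_num) (by decide +kernel)
      have d1 := h1.cov (b := 20) (by norm_num) (by decide +kernel)
      refine fin {z0, z1} 2 (by norm_num) ?_ (pat_f D C h h0 h1 hne fun x => by simp)
      intro z
      rw [mem_insert, mem_singleton]
      constructor
      · rintro (rfl | rfl)
        · exact Or.inl h0
        · exact Or.inl h1
      · intro h
        by_contra hcon
        push Not at hcon
        rcases h with h | h | h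
        · exact Win.dc_three H c0 c1 (h.cov (b := 23) (by norm_num) (by decide +kernel)) hne
            (Ne.symm hcon.1) (Ne.symm hcon.2)
        · exact Win.dc_three H d0 d1 (h.cov (b := 20) (by norm_num) (by decide +kernel)) hne
            (Ne.symm hcon.1) (Ne.symm hcon.2)
        · exact Win.dc_three H c0 c1 (h.cov (b := 23) (by norm_num) (by decide +kernel)) hne
            (Ne.symm hcon.1) (Ne.symm hcon.2)
    · have u0 : ∀ z, Mk e z 9437184 → z = z0 := by
        intro z h
        by_contra hne
        exact h04' ⟨z, h, Ne.symm hne⟩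
      have hA4 : ∀ z z', Mk e z 1048576 → Mk e z' 1048576 → z = z' := by
        intro z z' h1 h1'
        by_contra hne
        exact Win.dc_three H d0 (h1.cov (b := 20) (by norm_num) (by decide +kernel))
          (h1'.cov (b := 20) (by norm_num) (by decide +kernel))
          (h0.ne D C h h1 (b := 23) (by norm_num) (by decide +kernel) (by decide +kernel))
          (h0.ne D C h h1' (b := 23) (by norm_num) (by decide +kernel) (by decide +kernel)) hne
      have hA1 : ∀ z z', Mk e z 12582912 → Mk e z' 12582912 → z = z' := by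
        intro z z' h1 h1'
        by_contra hne
        exact Win.dc_three H c0 (h1.cov (b := 23) (by norm_num) (by decide +kernel))
          (h1'.cov (b := 23) (by norm_num) (by decide +kernel))
          (h0.ne D C h h1 (b := 20) (by norm_num) (by decide +kernel) (by decide +kernel))
          (h0.ne D C h h1' (b := 20) (by norm_num) (by decide +kernel) (by decide +kernel)) hne
      by_cases h4 : ∃ z1, Mk e z1 1048576
      · obtain ⟨z1, h4⟩ := h4
        have n01 : z0 ≠ z1 := h0.ne D C h h4 (b := 23) (by norm_num) (by decide +kernel)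
          (by decide +kernel)
        by_cases h1 : ∃ z2, Mk e z2 12582912
        · obtain ⟨z2, h1⟩ := h1
          have n02 : z0 ≠ z2 := h0.ne D C h h1 (b := 20) (by norm_num) (by decide +kernel)
            (by decide +kernel)
          have n12 : z1 ≠ z2 := h4.ne D C h h1 (b := 20) (by norm_num) (by decide +kernel)
            (by decide +kernel)
          refine fin {z0, z1, z2} 1 (by norm_num) ?_
            (pat_h D C h h0 h4 h1 n01 n02 n12 fun x => by simp)
          intro z
          rw [mem_insert, mem_insert, mem_singleton]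
          constructor
          · rintro (rfl | rfl | rfl)
            · exact Or.inl h0
            · exact Or.inr (Or.inl h4)
            · exact Or.inr (Or.inr h1)
          · rintro (h | h | h)
            · exact Or.inl (u0 z h)
            · exact Or.inr (Or.inl (hA4 z z1 h h4))
            · exact Or.inr (Or.inr (hA1 z z2 h h1))
        · refine fin {z0, z1} 1 (by norm_num) ?_ (pat_d D C h h0 h4 n01 fun x => by simp)
          intro z
          rw [mem_insert, mem_singleton]
          constructor
          · rintro (rfl | rfl)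
            · exact Or.inl h0
            · exact Or.inr (Or.inl h4)
          · rintro (h | h | h)
            · exact Or.inl (u0 z h)
            · exact Or.inr (hA4 z z1 h h4)
            · exact absurd ⟨z, h⟩ h1
      · by_cases h1 : ∃ z2, Mk e z2 12582912
        · obtain ⟨z2, h1⟩ := h1
          have n02 : z0 ≠ z2 := h0.ne D C h h1 (b := 20) (by norm_num) (by decide +kernel)
            (by decide +kernel)
          refine fin {z0, z2} 1 (by norm_num) ?_ (pat_c D C h h0 h1 n02 fun x => by simp)
          intro z
          rw [mem_insert, mem_singleton]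
          constructor
          · rintro (rfl | rfl)
            · exact Or.inl h0
            · exact Or.inr (Or.inr h1)
          · rintro (h | h | h)
            · exact Or.inl (u0 z h)
            · exact absurd ⟨z, h⟩ h4
            · exact Or.inr (hA1 z z2 h h1)
        · refine fin {z0} 1 (by norm_num) ?_ (pat_b D C h h0 fun x => by simp)
          intro z
          rw [mem_singleton]
          constructor
          · rintro rfl
            exact Or.inl h0
          · rintro (h | h | h)
            · exact u0 z h
            · exact absurd ⟨z, h⟩ h4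
            · exact absurd ⟨z, h⟩ h1
  · -- no element below the ends
    obtain ⟨A, hA⟩ : ∃ A : Finset P, ∀ z, z ∈ A ↔ Mk e z 12582912 :=
      ⟨univ.filter (fun z => Mk e z 12582912), fun z => by simp⟩
    have hc : A.card ≤ 2 := by
      refine (Finset.card_le_card (t := Win.dc (c6 e 23)) fun y hy => ?_).trans
        (Win.dc_card_le H _)
      rw [Win.mem_dc]
      exact ((hA y).mp hy).cov (by norm_num) (by decide +kernel)
    obtain ⟨z, hinj, hz⟩ := enum A (t : P)
    obtain ⟨θ, E, h20⟩ := pat_a D C h hc hinj (fun k hk => (hA _).mp ((hz _).mpr ⟨k, hk, rfl⟩)) hz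
    exact ⟨A, θ, 0, E, le_rfl, fun h1 => absurd h1 h04, fun z hz => (hA z).mpr hz,
      fun z hz => absurd ⟨z, hz⟩ h04, fun _ _ => Or.inr h20⟩

/-- the costs of the elements of level 14 -/
lemma costA_chk : ∀ m ∈ [12582912, 9437184, 1048576], 24 ≤
    min (if m = 1048576 then 3 else 2) 8 + (min (if m = 1048576 then 3 else 2) 7 +
      ∑ b ∈ (range 24).filter (fun b => (orM (fun a => L6um.getD a 0) 24 m).testBit b = true),
        min (if m = 1048576 then 3 else 2) (L6lv.getD b 0 - 6)) := by decide +kernel

lemma msk_cost3 : 24 ≤ min 3 7 + ∑ b ∈ (range 24).filter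
      (fun b => (orM (fun a => L6um.getD a 0) 24 1048576).testBit b = true),
        min 3 (L6lv.getD b 0 - 6) := by decide +kernel

include D C h in
lemma La6_b : hi 6 - lo 6 + 1 = 2 := by
  obtain ⟨r1, r2⟩ := D.rows C
  have e1 : losW 6 wa6 6 + 1 = hisW 6 wa6 6 := by decide +kernel
  rw [r1 6 (by norm_num), r2 6 (by norm_num)]
  omega

include D C h in
/-- the profile of the first cell -/
lemma La6_prof : Qp (c6 e 23) := by
  have e1 : losW 6 wa6 12 ≤ 6 ∧ 6 ≤ hisW 6 wa6 12 := by decide +kernel
  have q : ∀ l ≤ 12, nab l (c6 e 23) = Hc.nbw 6 wa6 6 l := fun l hl =>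
    Hc.nab_cell D C h.H h.good e1.1 e1.2 hl
  refine ⟨?_, ?_, ?_, ?_, ?_, ?_⟩
  · rw [q 6 (by norm_num)]; decide +kernel
  · rw [q 7 (by norm_num)]; decide +kernel
  · rw [q 8 (by norm_num)]; decide +kernel
  · rw [q 9 (by norm_num)]; decide +kernel
  · rw [q 10 (by norm_num)]; decide +kernel
  · rw [q 11 (by norm_num)]; decide +kernel

include D C h in
/-- the costs of the elements of level 13 below the strip: first cell excluded -/
lemma La6_cost2 {z : P} {m : ℕ} (hm : m ∈ msk) (hz : Mk e z m) (hb : m.testBit 23 = false)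
    (h3 : m ≠ 1048576) : 26 ≤ ct 6 2 z := by
  rcases msk_cost2 m hm hb with h5 | h5
  · exact absurd h5 h3
  · rw [La6_ct D C h hz]
    exact h5

include D C h in
/-- `La6` up to the energy 23 -/
theorem la6A_ts (q : Prop) : ∃ (Y : Finset P) (θ : P → ℕ) (B : P → Prop) (ρ : ℤ),
    TS 24 23 q t (hi 6 - lo 6 + 1) ρ Y θ B ∧ 0 ≤ ρ ∧
    ((∃ z, z ⋖ e 12 6 ∧ z ⋖ e 12 3) → 0 < ρ) := by
  classical
  have H := h.H
  obtain ⟨A, θ, ρ, L⟩ := laA D C h
  have E := L.ext
  have hb := La6_b D C h
  have hmsk : ∀ m ∈ [12582912, 9437184, 1048576], m ∈ msk := by decide +kernel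
  -- the elements of level 13
  have key : ∀ z x, lev z = 13 → (∀ y, z ⋖ y → y ≤ (t : P)) → z ∉ A → z ⋖ x →
      24 ≤ ct 6 (θ x + 1) z ∨ (Pend z x ∧ x = c6 e 23) := by
    intro z x hlz hzt hzA hzx
    obtain ⟨m, hm, hmk⟩ := La6_msk D C h hlz hzt
    obtain ⟨b, hb1, hb2, rfl⟩ := (hmk.2 x).mp hzx
    by_cases h23 : m.testBit 23 = true
    · have h1 : ∀ m ∈ msk, m.testBit 23 = true → m = 8388608 ∨ m = 12582912 ∨ m = 9437184 := by
        decide +kernel
      rcases h1 m hm h23 with rfl | rfl | rfl
      · right
        have h2 : ∀ b < 24, Nat.testBit 8388608 b = true → b = 23 := by decide +kernel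
        rw [h2 b hb1 hb2]
        refine ⟨⟨hmk.cov (by norm_num) (by decide +kernel), fun y hy => ?_⟩, rfl⟩
        obtain ⟨b', hb1', hb2', rfl⟩ := (hmk.2 y).mp hy
        rw [h2 b' hb1' hb2']
      · exact absurd (L.m01 z hmk) hzA
      · exact absurd (L.m03 z hmk) hzA
    · left
      have h23' : m.testBit 23 = false := by simpa using h23
      have hb20 : 20 ≤ b := by
        refine L6_lv12 b hb1 ?_
        rw [← c6_lev D C h hb1]
        have := (H.covBy_iff.mp hzx).2
        omega
      have hb23 : b < 23 := by
        have : b ≠ 23 := by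
          rintro rfl
          exact h23 hb2
        omega
      have h1 := E.one b hb23 hb20
      by_cases h3 : m = 1048576
      · subst h3
        rcases L.m3 z hmk with h4 | h4
        · exact absurd h4 hzA
        · have h2 : ∀ b < 24, Nat.testBit 1048576 b = true → b = 20 := by decide +kernel
          rw [h2 b hb1 hb2]
          have h5 := msk_cost3
          rw [← La6_ct D C h hmk 3] at h5
          exact h5.trans (ct_mono le_rfl (by omega))
      · have h5 := La6_cost2 D C h hm hmk h23' h3
        exact (by norm_num : 24 ≤ 26).trans (h5.trans (ct_mono le_rfl (by omega)))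
  refine ⟨A, θ, fun x => x = c6 e 23, ρ, ⟨?_, ?_, ?_⟩, L.nonneg, ?_⟩
  · rw [hb]
    constructor
    · norm_num
    · intro y hy
      obtain ⟨m, hm, hmk, -⟩ := E.ex y hy
      have := hmk.1
      omega
    · intro y hy v hyv
      obtain ⟨m, hm, hmk, -⟩ := E.ex y hy
      rw [mem_union]
      exact Or.inl ((La6_low D C v).mpr (by
        obtain ⟨b, hb1, -, hb3⟩ := (hmk.2 v).mp hyv
        exact ⟨b, hb1, hb3⟩))
    · intro y hy z hzy _
      obtain ⟨m, hm, hmk, h1, h2⟩ := E.ex y hy
      have h3 := costA_chk m hm
      have h4 := La6_ct D C h hmk (if m = 1048576 then 3 else 2)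
      rw [← h4] at h3
      have hlz := (H.covBy_iff.mp hzy).2
      have h5 := ct_cov (i := 6) (k := if m = 1048576 then 3 else 2) hzy.1
      rw [hlz, hmk.1] at h5
      have h6 : ct 6 (if m = 1048576 then 3 else 2) z ≤ ct 6 (θ y + 1) z := by
        refine ct_mono le_rfl ?_
        split_ifs with h
        · have := h2 h
          omega
        · omega
      omega
    · intro x z hxt hl hzx honly hzA
      have hlz := (H.covBy_iff.mp hzx).2
      rcases key z x (by omega) (fun y hy => by rw [honly y hy]; exact hxt) hzA hzx with h1 | h1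
      · exact Or.inl h1
      · right
        rw [h1.2]
        exact ⟨E.zero, Or.inr (La6_prof D C h)⟩
    · intro x x' z hne hxt hxt' hl hl' hzx hzx' hzA _
      have hlz := (H.covBy_iff.mp hzx).2
      rcases key z x (by omega) (fun y hy => by
        rcases uc_pair H hzx hzx' hne hy with h1 | h1
        · rw [h1]; exact hxt
        · rw [h1]; exact hxt') hzA hzx with h1 | h1
      · exact Or.inl h1
      · exact absurd (h1.1.2 x' hzx').symm hne
    · intro x hxt hl _
      have := nab_le_row h C hxt hl.le (l := 6) (by norm_num)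
      refine ⟨fun h3 => by omega, fun h0 => ?_⟩
      right
      obtain ⟨a, ha, rfl⟩ := (La6_low D C x).mp (mem_lowPart.mpr ⟨hxt, hl.le⟩)
      have h20 := L6_lv12 a ha (by rw [← c6_lev D C h ha]; exact hl)
      by_cases h23 : a = 23
      · rw [h23]
        exact La6_prof D C h
      · have := E.one a (by omega) h20
        omega
    · intro x hxt hl _ h0
      exact ct_two hl (by omega)
    · intro y hy x hp hl
      obtain ⟨m, hm, hmk, -⟩ := E.ex y hy
      obtain ⟨b, hb1, -, hb3⟩ := (hmk.2 x).mp hp.1
      have := nab_le_row h C (x := x) (by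
        rw [← hb3]
        exact c6_le D C hb1) hl.le (l := 6) (by norm_num)
      omega
  · rw [hb]
    exact dt_loc E.loc
  · rw [hb]
    exact pt_of E.pl
  · rintro ⟨z, hz6, hz3⟩
    refine L.pos ⟨z, ?_⟩
    have hl6 : lev (e 12 6) = 12 := by
      have h1 := c6_lev D C h (a := 23) (by norm_num)
      rw [L6_lv20 23 (by norm_num) (by norm_num)] at h1
      exact h1
    have hl3 : lev (e 12 3) = 12 := by
      have h1 := c6_lev D C h (a := 20) (by norm_num)
      rw [L6_lv20 20 (by norm_num) (by norm_num)] at h1
      exact h1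
    have hlz := (H.covBy_iff.mp hz6).2
    have hne : c6 e 23 ≠ c6 e 20 := fun hh => by
      have := (La6_cod D C h).inj 23 (by norm_num) 20 (by norm_num) hh
      omega
    obtain ⟨m, hm, hmk⟩ := La6_msk D C h (z := z) (by omega) (fun y hy => by
      rcases uc_pair H (x := c6 e 23) (x' := c6 e 20) hz6 hz3 hne hy with h1 | h1
      · rw [h1]; exact c6_le D C (by norm_num)
      · rw [h1]; exact c6_le D C (by norm_num))
    have h1 : ∀ m ∈ msk, m.testBit 23 = true → m.testBit 20 = true → m = 9437184 := by
      decide +kernel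
    have b23 : m.testBit 23 = true := by
      by_contra hcon
      exact hmk.ncov D C h (b := 23) (by norm_num) (by simpa using hcon) hz6
    have b20 : m.testBit 20 = true := by
      by_contra hcon
      exact hmk.ncov D C h (b := 20) (by norm_num) (by simpa using hcon) hz3
    rw [h1 m hm b23 b20] at hmk
    exact hmk

end

end Pool.Agent.GaussPoset.W6
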