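import Pool.Agent.W_448w6_h53.WdF
import Pool.Agent.W_448w6_h53.WcE
import Pool.Agent.W_448w6_h53.WcF
import Pool.Agent.W_448w6_h53.WcG

/-!
The strip `La6` at the window 6, level 12, up to the energy 27: elements of the levels 13 and 14
(MP_448cb3_co, `j = 12`).
-/

namespace Pool.Agent.GaussPoset.W6

set_option linter.unusedSectionVars false
set_option synthInstance.maxSize 1000

open Polynomial Finset Dd Wd Cl Sg

universe u

variable {P : Type u} [Fintype P] [PartialOrder P] [DecidableEq P] {r : ℕ}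
variable {t : Tops P} {lo hi : ℕ → ℕ} {e : ℕ → ℕ → P}

/-- the code of the strip with elements of level 14 -/
theorem cd14 {cvL lvL : List ℕ} {K1 K2 : ℕ} {c1 v : ℕ → P} {S1 V : Finset P}
    (W : Cd t e cvL lvL K1 c1 S1) {cx : ℕ → ℕ}
    (hn : ∀ a < 24 + K1, cvL.getD a 0 < 2 ^ (24 + K1))
    (hx : ∀ k < K2, cx k < 2 ^ (24 + K1))
    (h3 : ∀ k < K2, cvL.getD (24 + K1 + k) 0 = cx k)
    (h4 : ∀ k < K2, lvL.getD (24 + K1 + k) 0 = 14)
    (hl : ∀ a < 24 + K1, lvL.getD a 0 ≤ 13)
    (hinj : ∀ a < K2, ∀ b < K2, v a = v b → a = b)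
    (hcov : ∀ k < K2, ∀ y, v k ⋖ y ↔ ∃ b < 24 + K1, (cx k).testBit b = true ∧ c1 b = y)
    (hlev : ∀ k < K2, lev (v k) = 14) (hV : ∀ x, x ∈ V ↔ ∃ k < K2, v k = x) :
    Cd t e cvL lvL (K1 + K2) (czg (24 + K1) c1 v) (S1 ∪ V) := by
  have key : Cod (24 + K1 + K2) (fun a => cvL.getD a 0) (fun a => lvL.getD a 0)
      (czg (24 + K1) c1 v) := by
    refine cod_append W.cod hn hx (fun _ _ => rfl) (fun _ _ => rfl) h3 h4 hinj ?_ hcov hlev
    intro a ha b hb hh
    have h5 := W.cod.lev a ha
    rw [hh, hlev b hb] at h5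
    have := hl a ha
    omega
  refine ⟨?_, ?_, ?_⟩
  · rw [← Nat.add_assoc]
    exact key
  · intro a ha
    rw [czg_lt (by omega)]
    exact W.cell a ha
  · intro x
    rw [← Nat.add_assoc]
    exact czg_mem W.mem hV x

/-- the pendants below the elements of a set -/
noncomputable def PdV (A : Finset P) : Finset P := by
  classical exact univ.filter (fun v => ∃ z ∈ A, Pend v z)

lemma mem_PdV {A : Finset P} {v : P} : v ∈ PdV A ↔ ∃ z ∈ A, Pend v z := by
  classical
  unfold PdV
  simp

/-- local data, value at the energy 27, thresholds -/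
structure ExtC (t : Tops P) (e : ℕ → ℕ → P) (A : Finset P) (θ : P → ℕ) (ρ : ℤ) : Prop where
  loc : LocL 6 2 27 (lowPart 12 (t : P) ∪ (A ∪ PdV A)) θ (fun x => x = c6 e 23)
  pl : ∀ f : Polynomial (PowerSeries ℤ),
    (∀ n, exq n f = Z {y : P // y ∈ lowPart 12 (t : P) ∪ (A ∪ PdV A)} 6 n) → Pl 27 2 ρ f
  cell : ∀ a < 24, 20 ≤ a → θ (c6 e a) = 23 - a
  ex : ∀ x ∈ A ∪ PdV A, 1 ≤ θ x

/-- thresholds from a code -/
lemma Cd.thr {cvL lvL : List ℕ} {K : ℕ} {c : ℕ → P} {S : Finset P}
    (W : Cd t e cvL lvL K c S) (thL : List ℕ)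
    (h1 : ∀ a < 24, 20 ≤ a → thL.getD a 0 = 23 - a) (h2 : ∀ k < K, 1 ≤ thL.getD (24 + k) 0) :
    (∀ a < 24, 20 ≤ a → thI (24 + K) c (fun a => thL.getD a 0) (c6 e a) = 23 - a) ∧
    ∀ x ∈ S, x ∉ lowPart 12 (t : P) → (∀ a < 24, c6 e a ∈ lowPart 12 (t : P)) →
      1 ≤ thI (24 + K) c (fun a => thL.getD a 0) x := by
  constructor
  · intro a ha h3
    rw [W.th thL ha]
    exact h1 a ha h3
  · intro x hx hxn hlow
    obtain ⟨a, ha, rfl⟩ := (W.mem x).mp hx
    rw [thI_c W.cod (fun a => thL.getD a 0) ha]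
    have h3 : 24 ≤ a := by
      by_contra hcon
      apply hxn
      rw [W.cell a (by omega)]
      exact hlow a (by omega)
    have h4 := h2 (a - 24) (by omega)
    rwa [show 24 + (a - 24) = a by omega] at h4

section

variable (D : WordD 12 6 wa6 lo hi) (C : Cp.Comp 12 (t : P) lo hi e) (h : Win.GoodTo P r 12)

include D C h in
/-- at most one element below the first two cells -/
theorem patC_one {A : Finset P} (hA : ∀ z ∈ A, Mk e z 12582912) (hc : A.card ≤ 1) :
    ∃ θ : P → ℕ, ExtC t e A θ 0 := by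
  classical
  have H := h.H
  obtain ⟨z, hinj, hz⟩ := enum A (t : P)
  set K := A.card with hK
  have hzA : ∀ k < K, z k ∈ A := fun k hk => (hz _).mpr ⟨k, hk, rfl⟩
  have g3 : ∀ k < 1, Qgcv.getD (24 + k) 0 = 12582912 := by decide +kernel
  have g4 : ∀ k < 1, Qglv.getD (24 + k) 0 = 13 := by decide +kernel
  have W := cd13 D C h (K := K) (z := z) (cx := fun _ => 12582912) (cvL := Qgcv)
    (lvL := Qglv) (by decide +kernel) (by decide +kernel) (fun k hk => g3 k (by omega))
    (fun k hk => g4 k (by omega)) (fun _ _ => by norm_num) hinj (fun k hk => hA _ (hzA k hk)) hz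
  have hlow : ∀ a < 24, c6 e a ∈ lowPart 12 (t : P) := fun a ha =>
    (La6_low D C _).mpr ⟨a, ha, rfl⟩
  -- the elements of level 14
  obtain ⟨v, hvinj, hv⟩ := enum (PdV A) (t : P)
  set K2 := (PdV A).card with hK2
  have hvV : ∀ k < K2, v k ∈ PdV A := fun k hk => (hv _).mpr ⟨k, hk, rfl⟩
  have hsingle : ∀ x ∈ PdV A, K = 1 ∧ Pend x (z 0) := by
    intro x hx
    obtain ⟨y, hy, hxy⟩ := mem_PdV.mp hx
    obtain ⟨k, hk, rfl⟩ := (hz y).mp hy
    have hk0 : k = 0 := by omega
    subst hk0
    exact ⟨by omega, hxy⟩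
  have hcard : K2 ≤ 2 := by
    by_cases h1 : K = 1
    · refine (Finset.card_le_card (t := Win.dc (z 0)) fun y hy => ?_).trans
        (Win.dc_card_le H _)
      rw [Win.mem_dc]
      exact (hsingle y hy).2.1
    · have : PdV A = ∅ := by
        rw [Finset.eq_empty_iff_forall_notMem]
        intro x hx
        exact h1 (hsingle x hx).1
      rw [hK2, this, Finset.card_empty]
      norm_num
  have hK2K : 0 < K2 → K = 1 := fun h0 => (hsingle _ (hvV 0 h0)).1
  have q1 : ∀ k < 2, Qgcv.getD (25 + k) 0 = 16777216 := by decide +kernel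
  have q2 : ∀ k < 2, Qglv.getD (25 + k) 0 = 14 := by decide +kernel
  have W2 : Cd t e Qgcv Qglv (K + K2) (czg (24 + K) (czg 24 (c6 e) z) v)
      (lowPart 12 (t : P) ∪ A ∪ PdV A) := by
    refine cd14 W (cx := fun _ => 16777216) ?_ ?_ ?_ ?_ ?_ hvinj ?_ ?_ hv
    · have : ∀ K < 2, ∀ a < 24 + K, Qgcv.getD a 0 < 2 ^ (24 + K) := by decide +kernel
      exact this K (by omega)
    · intro k hk
      rw [hK2K (by omega)]
      norm_num
    · intro k hk
      rw [hK2K (by omega)]
      exact q1 k (by omega)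
    · intro k hk
      rw [hK2K (by omega)]
      exact q2 k (by omega)
    · have : ∀ K < 2, ∀ a < 24 + K, Qglv.getD a 0 ≤ 13 := by decide +kernel
      exact this K (by omega)
    · intro k hk y
      have hK1 := hK2K (by omega)
      obtain ⟨-, g5, g6⟩ := hsingle _ (hvV k hk)
      have g7 : czg 24 (c6 e) z 24 = z 0 := czg_add 0
      constructor
      · intro hy
        exact ⟨24, by omega, by decide +kernel, by rw [g7, g6 y hy]⟩
      · rintro ⟨b, hb1, hb2, rfl⟩
        have h3 : ∀ b < 25, Nat.testBit 16777216 b = true → b = 24 := by decide +kernel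
        rw [h3 b (by omega) hb2, g7]
        exact g5
    · intro k hk
      have hK1 := hK2K (by omega)
      have g1 := (H.covBy_iff.mp (hsingle _ (hvV k hk)).2.1).2
      rw [(hA _ (hzA 0 (by omega))).1] at g1
      exact g1
  rw [Finset.union_assoc] at W2
  have hl := W2.loc Qg_us Qg_pol Qg_low (fun x hx => List.mem_append_left _ hx) Qg_th Qg_bm
    (by omega)
  have t2 : ∀ K < 4, ∀ k < K, 1 ≤ Qgth.getD (24 + k) 0 := by decide +kernel
  obtain ⟨k1, k2⟩ := W2.thr Qgth (by decide +kernel) (t2 _ (by omega))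
  have h7 : ∀ K < 4, ((range (24 + K)).filter (fun a => Qglv.getD a 0 < 6)).card = 6 ∧
      ((range (24 + K)).filter (fun a => Qglv.getD a 0 = 6)).card = 2 := by decide +kernel
  refine ⟨_, ⟨fun U h1 h2 h3 h4 n hn => hl.clean U h1 h2 h3 h4 n (by omega), hl.lev, hl.base,
    hl.step, hl.le⟩, ?_, k1, ?_⟩
  · intro f hf
    exact W2.zero hl (by norm_num) (h7 _ (by omega)).1 (h7 _ (by omega)).2 hf
  · intro x hx
    refine k2 x (mem_union_right _ hx) ?_ hlow
    intro hxl
    have h1 := (mem_lowPart.mp hxl).2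
    rcases mem_union.mp hx with hx | hx
    · have := (hA x hx).1
      omega
    · obtain ⟨y, hy, hxy⟩ := mem_PdV.mp hx
      have h2 := (H.covBy_iff.mp hxy.1).2
      have := (hA y hy).1
      omega

/-- the order of the pendants in the code -/
def alt (a b : ℕ → P) (k : ℕ) : P := if k % 2 = 0 then a (k / 2) else b (k / 2)

include D C h in
/-- two elements below the first two cells, the numbers of the pendants differ by at most one -/
theorem patC_two {z0 z1 : P} (h0 : Mk e z0 12582912) (h1 : Mk e z1 12582912) (hne : z0 ≠ z1)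
    {A : Finset P} (hA : ∀ x, x ∈ A ↔ x = z0 ∨ x = z1) (hpq : (Pds z1).card ≤ (Pds z0).card)
    (hpq' : (Pds z0).card ≤ (Pds z1).card + 1) : ∃ θ : P → ℕ, ExtC t e A θ (-1) := by
  classical
  have H := h.H
  have W := cd13 D C h (K := 2) (z := two z0 z1) (cx := fun _ => 12582912) (cvL := Qecv)
    (lvL := Qelv) (by decide +kernel) (by decide +kernel) (by decide +kernel)
    (by decide +kernel) (fun _ _ => by norm_num) (two_inj hne) (fun k hk => by
      obtain rfl | rfl : k = 0 ∨ k = 1 := by omega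
      · exact h0
      · exact h1) (A := A) (fun x => by rw [hA]; exact Sg.two_mem (P := P))
  have hlow : ∀ a < 24, c6 e a ∈ lowPart 12 (t : P) := fun a ha =>
    (La6_low D C _).mpr ⟨a, ha, rfl⟩
  obtain ⟨a, ainj, ha⟩ := enum (Pds z0) (t : P)
  obtain ⟨b, binj, hb⟩ := enum (Pds z1) (t : P)
  have cp := Pds_card H z0
  set p := (Pds z0).card with hp
  set q := (Pds z1).card with hq
  have haP : ∀ k < p, Pend (a k) z0 := fun k hk => mem_Pds.mp ((ha _).mpr ⟨k, hk, rfl⟩)
  have hbP : ∀ k < q, Pend (b k) z1 := fun k hk => mem_Pds.mp ((hb _).mpr ⟨k, hk, rfl⟩)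
  have hab : ∀ i < p, ∀ j < q, a i ≠ b j := by
    intro i hi j hj hh
    have h2 := haP i hi
    have h3 := hbP j hj
    rw [← hh] at h3
    exact hne (h3.2 z0 h2.1)
  have hV : ∀ x, x ∈ PdV A ↔ ∃ k < p + q, alt a b k = x := by
    intro x
    rw [mem_PdV]
    constructor
    · rintro ⟨z, hz, hx⟩
      rcases (hA z).mp hz with rfl | rfl
      · obtain ⟨i, hi, rfl⟩ := (ha x).mp (mem_Pds.mpr hx)
        refine ⟨2 * i, by omega, ?_⟩
        unfold alt
        rw [if_pos (by omega), show 2 * i / 2 = i by omega]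
      · obtain ⟨i, hi, rfl⟩ := (hb x).mp (mem_Pds.mpr hx)
        refine ⟨2 * i + 1, by omega, ?_⟩
        unfold alt
        rw [if_neg (by omega), show (2 * i + 1) / 2 = i by omega]
    · rintro ⟨k, hk, rfl⟩
      unfold alt
      split_ifs with hk2
      · exact ⟨z0, (hA z0).mpr (Or.inl rfl), haP _ (by omega)⟩
      · exact ⟨z1, (hA z1).mpr (Or.inr rfl), hbP _ (by omega)⟩
  have W2 : Cd t e Qecv Qelv (2 + (p + q)) (czg (24 + 2) (czg 24 (c6 e) (two z0 z1)) (alt a b))
      (lowPart 12 (t : P) ∪ A ∪ PdV A) := by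
    have q1 : ∀ k < 4, Qecv.getD (24 + 2 + k) 0 = if k % 2 = 0 then 16777216 else 33554432 := by
      decide +kernel
    have q2 : ∀ k < 4, Qelv.getD (24 + 2 + k) 0 = 14 := by decide +kernel
    refine cd14 W (cx := fun k => if k % 2 = 0 then 16777216 else 33554432) (by decide +kernel)
      ?_ (fun k hk => q1 k (by omega)) (fun k hk => q2 k (by omega)) (by decide +kernel) ?_ ?_ ?_
      hV
    · intro k _
      show (if k % 2 = 0 then 16777216 else 33554432) < 2 ^ (24 + 2)
      split_ifs <;> norm_num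
    · intro i hi j hj hh
      unfold alt at hh
      split_ifs at hh with c1 c2 c2
      · have := ainj _ (by omega) _ (by omega) hh
        omega
      · exact absurd hh (hab _ (by omega) _ (by omega))
      · exact absurd hh.symm (hab _ (by omega) _ (by omega))
      · have := binj _ (by omega) _ (by omega) hh
        omega
    · intro k hk y
      have g24 : czg 24 (c6 e) (two z0 z1) 24 = z0 := czg_add 0
      have g25 : czg 24 (c6 e) (two z0 z1) 25 = z1 := czg_add 1
      unfold alt
      split_ifs with hk2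
      · obtain ⟨g5, g6⟩ := haP (k / 2) (by omega)
        constructor
        · intro hy
          exact ⟨24, by norm_num, by decide +kernel, by rw [g24, g6 y hy]⟩
        · rintro ⟨b, hb1, hb2, rfl⟩
          have h3 : ∀ b < 24 + 2, Nat.testBit 16777216 b = true → b = 24 := by decide +kernel
          rw [h3 b hb1 hb2, g24]
          exact g5
      · obtain ⟨g5, g6⟩ := hbP (k / 2) (by omega)
        constructor
        · intro hy
          exact ⟨25, by norm_num, by decide +kernel, by rw [g25, g6 y hy]⟩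
        · rintro ⟨b, hb1, hb2, rfl⟩
          have h3 : ∀ b < 24 + 2, Nat.testBit 33554432 b = true → b = 25 := by decide +kernel
          rw [h3 b hb1 hb2, g25]
          exact g5
    · intro k hk
      unfold alt
      split_ifs with hk2
      · have g1 := (H.covBy_iff.mp (haP (k / 2) (by omega)).1).2
        rw [h0.1] at g1
        exact g1
      · have g1 := (H.covBy_iff.mp (hbP (k / 2) (by omega)).1).2
        rw [h1.1] at g1
        exact g1
  rw [Finset.union_assoc] at W2
  have hl := W2.loc Qe_us Qe_pol Qe_low (fun x hx => hx) Qe_th Qe_bm (by omega)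
  have t2 : ∀ K < 7, ∀ k < K, 1 ≤ Qeth.getD (24 + k) 0 := by decide +kernel
  obtain ⟨k1, k2⟩ := W2.thr Qeth (by decide +kernel) (t2 _ (by omega))
  have h7 : ∀ K < 7, ((range (24 + K)).filter (fun a => Qelv.getD a 0 < 6)).card = 6 ∧
      ((range (24 + K)).filter (fun a => Qelv.getD a 0 = 6)).card = 2 := by decide +kernel
  have hF : ∀ K < 5, ∃ x ∈ QeF, x.1 = 2 ^ (24 + (2 + K)) - 1 ∧ sgn x.2.1 x.2.2.1 6 = 1 ∧
      x.2.2.2.2 = 1 := by decide +kernel
  obtain ⟨x, hxF, hxJ, hs, hx1⟩ := hF (p + q) (by omega)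
  refine ⟨_, hl, ?_, k1, ?_⟩
  · intro f hf
    have := W2.valN Qe_us Qe_neg Qe_num Qe_mem (by omega) hxF hxJ hs (h7 _ (by omega)).1
      (h7 _ (by omega)).2 hf
    rw [hx1] at this
    exact_mod_cast this
  · intro x hx
    refine k2 x (mem_union_right _ hx) ?_ hlow
    intro hxl
    have g1 := (mem_lowPart.mp hxl).2
    have hA13 : ∀ y ∈ A, lev y = 13 := by
      intro y hy
      rcases (hA y).mp hy with rfl | rfl
      · exact h0.1
      · exact h1.1
    rcases mem_union.mp hx with hx | hx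
    · have := hA13 x hx
      omega
    · obtain ⟨y, hy, hxy⟩ := mem_PdV.mp hx
      have h2 := (H.covBy_iff.mp hxy.1).2
      have := hA13 y hy
      omega

include D C h in
/-- two elements below the first two cells, two pendants below one of them -/
theorem patC_two' {z0 z1 : P} (h0 : Mk e z0 12582912) (h1 : Mk e z1 12582912) (hne : z0 ≠ z1)
    {A : Finset P} (hA : ∀ x, x ∈ A ↔ x = z0 ∨ x = z1) (hp2 : (Pds z0).card = 2)
    (hq0 : (Pds z1).card = 0) : ∃ θ : P → ℕ, ExtC t e A θ (-1) := by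
  classical
  have H := h.H
  have W := cd13 D C h (K := 2) (z := two z0 z1) (cx := fun _ => 12582912) (cvL := Qfcv)
    (lvL := Qflv) (by decide +kernel) (by decide +kernel) (by decide +kernel)
    (by decide +kernel) (fun _ _ => by norm_num) (two_inj hne) (fun k hk => by
      obtain rfl | rfl : k = 0 ∨ k = 1 := by omega
      · exact h0
      · exact h1) (A := A) (fun x => by rw [hA]; exact Sg.two_mem (P := P))
  have hlow : ∀ a < 24, c6 e a ∈ lowPart 12 (t : P) := fun a ha =>
    (La6_low D C _).mpr ⟨a, ha, rfl⟩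
  obtain ⟨a, ainj, ha⟩ := enum (Pds z0) (t : P)
  rw [hp2] at ainj ha
  have haP : ∀ k < 2, Pend (a k) z0 := fun k hk => mem_Pds.mp ((ha _).mpr ⟨k, hk, rfl⟩)
  rw [Finset.card_eq_zero] at hq0
  have hV : ∀ x, x ∈ PdV A ↔ ∃ k < 2, a k = x := by
    intro x
    rw [mem_PdV]
    constructor
    · rintro ⟨z, hz, hx⟩
      rcases (hA z).mp hz with rfl | rfl
      · exact (ha x).mp (mem_Pds.mpr hx)
      · have := mem_Pds.mpr hx
        rw [hq0] at this
        exact absurd this (Finset.notMem_empty _)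
    · rintro ⟨k, hk, rfl⟩
      exact ⟨z0, (hA z0).mpr (Or.inl rfl), haP _ hk⟩
  have W2 : Cd t e Qfcv Qflv (2 + 2) (czg (24 + 2) (czg 24 (c6 e) (two z0 z1)) a)
      (lowPart 12 (t : P) ∪ A ∪ PdV A) := by
    refine cd14 W (cx := fun k => 16777216) (by decide +kernel)
      (fun _ _ => by norm_num) (by decide +kernel) (by decide +kernel) (by decide +kernel)
      ainj ?_ ?_ hV
    · intro k hk y
      have g24 : czg 24 (c6 e) (two z0 z1) 24 = z0 := czg_add 0
      obtain ⟨g5, g6⟩ := haP k hk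
      constructor
      · intro hy
        exact ⟨24, by norm_num, by decide +kernel, by rw [g24, g6 y hy]⟩
      · rintro ⟨b, hb1, hb2, rfl⟩
        have h3 : ∀ b < 24 + 2, Nat.testBit 16777216 b = true → b = 24 := by decide +kernel
        rw [h3 b hb1 hb2, g24]
        exact g5
    · intro k hk
      have g1 := (H.covBy_iff.mp (haP k hk).1).2
      rw [h0.1] at g1
      exact g1
  rw [Finset.union_assoc] at W2
  have hl := W2.loc Qf_us Qf_pol Qf_low (fun x hx => hx) Qf_th Qf_bm (by norm_num)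
  obtain ⟨k1, k2⟩ := W2.thr Qfth (by decide +kernel) (by decide +kernel)
  refine ⟨_, hl, ?_, k1, ?_⟩
  · intro f hf
    have := W2.valN Qf_us Qf_neg Qf_num Qf_mem (by norm_num)
      (x := (268435455, 15, 13, 196, 1)) (by decide +kernel) (by norm_num) (by decide +kernel)
      (by decide +kernel) (by decide +kernel) hf
    exact_mod_cast this
  · intro x hx
    refine k2 x (mem_union_right _ hx) ?_ hlow
    intro hxl
    have g1 := (mem_lowPart.mp hxl).2
    have hA13 : ∀ y ∈ A, lev y = 13 := by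
      intro y hy
      rcases (hA y).mp hy with rfl | rfl
      · exact h0.1
      · exact h1.1
    rcases mem_union.mp hx with hx | hx
    · have := hA13 x hx
      omega
    · obtain ⟨y, hy, hxy⟩ := mem_PdV.mp hx
      have h2 := (H.covBy_iff.mp hxy.1).2
      have := hA13 y hy
      omega

include D C h in
/-- **The data of a component `La6` without elements below the ends.** -/
theorem laC {A : Finset P} (hA : ∀ z, z ∈ A ↔ Mk e z 12582912) :
    ∃ (θ : P → ℕ) (ρ : ℤ), ExtC t e A θ ρ ∧ ρ ≤ 0 ∧ (2 ≤ A.card → ρ < 0) := by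
  classical
  have H := h.H
  have hc : A.card ≤ 2 := by
    refine (Finset.card_le_card (t := Win.dc (c6 e 23)) fun y hy => ?_).trans
      (Win.dc_card_le H _)
    rw [Win.mem_dc]
    exact ((hA y).mp hy).cov (by norm_num) (by decide +kernel)
  rcases Nat.lt_or_ge A.card 2 with h1 | h1
  · obtain ⟨θ, E⟩ := patC_one D C h (fun z hz => (hA z).mp hz) (by omega)
    exact ⟨θ, 0, E, le_rfl, fun h => absurd h (by omega)⟩
  · obtain ⟨z0, z1, hne, hA2⟩ := Finset.card_eq_two.mp (le_antisymm hc h1)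
    have key : ∀ z0 z1 : P, z0 ≠ z1 → A = {z0, z1} → (Pds z1).card ≤ (Pds z0).card →
        ∃ θ : P → ℕ, ExtC t e A θ (-1) := by
      intro z0 z1 hne hA2 hpq
      have hm : ∀ x, x ∈ A ↔ x = z0 ∨ x = z1 := fun x => by rw [hA2]; simp
      have m0 := (hA z0).mp ((hm z0).mpr (Or.inl rfl))
      have m1 := (hA z1).mp ((hm z1).mpr (Or.inr rfl))
      by_cases h2 : (Pds z0).card ≤ (Pds z1).card + 1
      · exact patC_two D C h m0 m1 hne hm hpq h2
      · have := Pds_card H z0
        exact patC_two' D C h m0 m1 hne hm (by omega) (by omega)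
    rcases le_total (Pds z1).card (Pds z0).card with h2 | h2
    · obtain ⟨θ, E⟩ := key z0 z1 hne hA2 h2
      exact ⟨θ, -1, E, by norm_num, fun _ => by norm_num⟩
    · obtain ⟨θ, E⟩ := key z1 z0 (Ne.symm hne) (by rw [hA2, Finset.pair_comm]) h2
      exact ⟨θ, -1, E, by norm_num, fun _ => by norm_num⟩

end

end Pool.Agent.GaussPoset.W6
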