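import Pool.Agent.W_448w6_h53.WdG

/-!
The strip `La6` at the window 6, level 12, up to the energy 27: the costs
(MP_448cb3_co, `j = 12`).
-/

namespace Pool.Agent.GaussPoset.W6

set_option linter.unusedSectionVars false
set_option synthInstance.maxSize 1000

open Polynomial Finset Dd Wd Cl Sg

universe u

variable {P : Type u} [Fintype P] [PartialOrder P] [DecidableEq P] {r : ℕ}
variable {t : Tops P} {lo hi : ℕ → ℕ} {e : ℕ → ℕ → P}

lemma costC_chk : ∀ m ∈ msk, m.testBit 23 = false → ∀ b < 24, m.testBit b = true →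
    28 ≤ min (23 - b + 1) 7 + ∑ b' ∈ (range 24).filter
      (fun b' => (orM (fun a => L6um.getD a 0) 24 m).testBit b' = true),
        min (23 - b + 1) (L6lv.getD b' 0 - 6) := by decide +kernel

lemma cost01_chk : min 2 7 + ∑ b ∈ (range 24).filter
      (fun b => (orM (fun a => L6um.getD a 0) 24 12582912).testBit b = true),
        min 2 (L6lv.getD b 0 - 6) = 24 := by decide +kernel

lemma msk_20 : ∀ m ∈ msk, ∀ b < 24, m.testBit b = true → 20 ≤ b := by decide +kernel

section

variable (D : WordD 12 6 wa6 lo hi) (C : Cp.Comp 12 (t : P) lo hi e) (h : Win.GoodTo P r 12)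

include D C h in
/-- the mask from two covers -/
lemma msk_of {z : P} {a b : ℕ} (ha : a < 24) (hb : b < 24) (hab : a ≠ b) (h20 : 20 ≤ a)
    (hza : z ⋖ c6 e a) (hzb : z ⋖ c6 e b) :
    ∃ m ∈ msk, Mk e z m ∧ m.testBit a = true ∧ m.testBit b = true := by
  have H := h.H
  have hla : lev (c6 e a) = 12 := by
    rw [c6_lev D C h ha]
    exact L6_lv20 a ha h20
  have hlz := (H.covBy_iff.mp hza).2
  have hne : c6 e a ≠ c6 e b := fun hh => hab ((La6_cod D C h).inj a ha b hb hh)
  obtain ⟨m, hm, hmk⟩ := La6_msk D C h (z := z) (by omega) (fun y hy => by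
    rcases uc_pair H hza hzb hne hy with h1 | h1
    · rw [h1]; exact c6_le D C ha
    · rw [h1]; exact c6_le D C hb)
  refine ⟨m, hm, hmk, ?_, ?_⟩
  · by_contra hcon
    exact hmk.ncov D C h ha (by simpa using hcon) hza
  · by_contra hcon
    exact hmk.ncov D C h hb (by simpa using hcon) hzb

include D C h in
/-- `La6` up to the energy 27 -/
theorem la6C_ts (q : Prop) (hno : ∀ z, z ⋖ e 12 6 → z ⋖ e 12 3 → False) :
    ∃ (Y : Finset P) (θ : P → ℕ) (B : P → Prop) (ρ : ℤ),
    TS 28 27 q t (hi 6 - lo 6 + 1) ρ Y θ B ∧ ρ ≤ 0 ∧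
    (∀ z z', z ≠ z' → z ⋖ e 12 6 → z ⋖ e 12 5 → z' ⋖ e 12 6 → z' ⋖ e 12 5 → ρ < 0) := by
  classical
  have H := h.H
  obtain ⟨A, hA⟩ : ∃ A : Finset P, ∀ z, z ∈ A ↔ Mk e z 12582912 :=
    ⟨univ.filter (fun z => Mk e z 12582912), fun z => by simp⟩
  obtain ⟨θ, ρ, E, hρ, hρ2⟩ := laC D C h hA
  have hb := La6_b D C h
  have hno' : ∀ z, ¬ Mk e z 9437184 := fun z hz =>
    hno z (hz.cov (b := 23) (by norm_num) (by decide +kernel))
      (hz.cov (b := 20) (by norm_num) (by decide +kernel))
  have hA13 : ∀ y ∈ A, lev y = 13 := fun y hy => ((hA y).mp hy).1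
  have hc24 : ∀ y ∈ A, ct 6 2 y = 24 := fun y hy => by
    rw [La6_ct D C h ((hA y).mp hy)]
    exact cost01_chk
  -- the elements of level 13
  have key : ∀ z x, lev z = 13 → (∀ y, z ⋖ y → y ≤ (t : P)) → z ∉ A → z ⋖ x →
      28 ≤ ct 6 (θ x + 1) z ∨ (Pend z x ∧ x = c6 e 23) := by
    intro z x hlz hzt hzA hzx
    obtain ⟨m, hm, hmk⟩ := La6_msk D C h hlz hzt
    obtain ⟨b, hb1, hb2, rfl⟩ := (hmk.2 x).mp hzx
    by_cases h23 : m.testBit 23 = true
    · have h1 : ∀ m ∈ msk, m.testBit 23 = true → m = 8388608 ∨ m = 12582912 ∨ m = 9437184 := by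
        decide +kernel
      rcases h1 m hm h23 with rfl | rfl | rfl
      · right
        have h2 : ∀ b < 24, Nat.testBit 8388608 b = true → b = 23 := by decide +kernel
        rw [h2 b hb1 hb2]
        refine ⟨⟨hmk.cov (by norm_num) (by decide +kernel), fun y hy => ?_⟩, rfl⟩
        obtain ⟨b', hb1', hb2', rfl⟩ := (hmk.2 y).mp hy
        rw [h2 b' hb1' hb2']
      · exact absurd ((hA z).mpr hmk) hzA
      · exact absurd hmk (hno' z)
    · left
      have h23' : m.testBit 23 = false := by simpa using h23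
      rw [E.cell b hb1 (msk_20 m hm b hb1 hb2), La6_ct D C h hmk]
      exact costC_chk m hm h23' b hb1 hb2
  refine ⟨A ∪ PdV A, θ, fun x => x = c6 e 23, ρ, ⟨?_, ?_, ?_⟩, hρ, ?_⟩
  · rw [hb]
    constructor
    · norm_num
    · intro y hy
      rcases mem_union.mp hy with hy | hy
      · have := hA13 y hy
        omega
      · obtain ⟨z, hz, hyz⟩ := mem_PdV.mp hy
        have h1 := (H.covBy_iff.mp hyz.1).2
        have := hA13 z hz
        omega
    · intro y hy v hyv
      rw [mem_union]
      rcases mem_union.mp hy with hy | hy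
      · left
        obtain ⟨b, hb1, -, hb3⟩ := (((hA y).mp hy).2 v).mp hyv
        exact (La6_low D C v).mpr ⟨b, hb1, hb3⟩
      · right
        obtain ⟨z, hz, hyz⟩ := mem_PdV.mp hy
        rw [hyz.2 v hyv]
        exact mem_union_left _ hz
    · intro y hy z hzy hzY
      have hθ := E.ex y hy
      have hmono : ct 6 2 z ≤ ct 6 (θ y + 1) z := ct_mono le_rfl (by omega)
      have hlz := (H.covBy_iff.mp hzy).2
      rcases mem_union.mp hy with hy | hy
      · -- a second cover
        have hnp : ¬ Pend z y := fun hp => hzY (mem_union_right _ (mem_PdV.mpr ⟨y, hy, hp⟩))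
        obtain ⟨y', hy', hne⟩ : ∃ y', z ⋖ y' ∧ y' ≠ y := by
          by_contra hcon
          push Not at hcon
          exact hnp ⟨hzy, hcon⟩
        have hly := hA13 y hy
        have hly' := (H.covBy_iff.mp hy').2
        have h1 := ct_pair (i := 6) (k := 2) hzy.1 hy'.1 (fun hle => by
          rcases eq_or_lt_of_le hle with g | g
          · exact hne g.symm
          · have := lev_strictAnti g
            omega)
        rw [hc24 y hy, show lev z = 14 by omega, show lev y' = 13 by omega] at h1
        omega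
      · obtain ⟨w, hw, hyw⟩ := mem_PdV.mp hy
        have h1 := ct_cov (i := 6) (k := 2) hzy.1
        have h2 := ct_cov (i := 6) (k := 2) hyw.1.1
        have hlw := hA13 w hw
        have hly := (H.covBy_iff.mp hyw.1).2
        rw [hc24 w hw, show lev y = 14 by omega] at h2
        rw [show lev z = 15 by omega] at h1
        omega
    · intro x z hxt hl hzx honly hzY
      have hlz := (H.covBy_iff.mp hzx).2
      rcases key z x (by omega) (fun y hy => by rw [honly y hy]; exact hxt)
        (fun hzA => hzY (mem_union_left _ hzA)) hzx with h1 | h1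
      · exact Or.inl h1
      · right
        rw [h1.2]
        exact ⟨by rw [E.cell 23 (by norm_num) (by norm_num)], Or.inr (La6_prof D C h)⟩
    · intro x x' z hne hxt hxt' hl hl' hzx hzx' hzY _
      have hlz := (H.covBy_iff.mp hzx).2
      rcases key z x (by omega) (fun y hy => by
        rcases uc_pair H hzx hzx' hne hy with h1 | h1
        · rw [h1]; exact hxt
        · rw [h1]; exact hxt') (fun hzA => hzY (mem_union_left _ hzA)) hzx with h1 | h1
      · exact Or.inl h1
      · exact absurd (h1.1.2 x' hzx').symm hne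
    · intro x hxt hl _
      have := nab_le_row h C hxt hl.le (l := 6) (by norm_num)
      refine ⟨fun h3 => by omega, fun h0 => ?_⟩
      right
      obtain ⟨a, ha, rfl⟩ := (La6_low D C x).mp (mem_lowPart.mpr ⟨hxt, hl.le⟩)
      have h20 := L6_lv12 a ha (by rw [← c6_lev D C h ha]; exact hl)
      by_cases h23 : a = 23
      · rw [h23]
        exact La6_prof D C h
      · have := E.cell a ha h20
        omega
    · intro x hxt hl hu h0
      obtain ⟨a, ha, rfl⟩ := (La6_low D C x).mp (mem_lowPart.mpr ⟨hxt, hl.le⟩)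
      have h20 := L6_lv12 a ha (by rw [← c6_lev D C h ha]; exact hl)
      rw [E.cell a ha h20] at h0 ⊢
      obtain rfl | ha2 : a = 22 ∨ a < 22 := by omega
      · exfalso
        obtain ⟨k, hk, k', hk', hne, b1, b2⟩ := L6_two 22 (by norm_num) (by norm_num)
          (by norm_num) (by norm_num)
        have hc := (La6_cod D C h).cov 22 (by norm_num)
        have c1 := (hc (c6 e k)).mpr ⟨k, hk, b1, rfl⟩
        have c2 := (hc (c6 e k')).mpr ⟨k', hk', b2, rfl⟩
        obtain ⟨y, hy⟩ := Finset.card_eq_one.mp hu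
        have m1 : c6 e k ∈ Win.uc (c6 e 22) := Win.mem_uc.mpr c1
        have m2 : c6 e k' ∈ Win.uc (c6 e 22) := Win.mem_uc.mpr c2
        rw [hy, mem_singleton] at m1 m2
        exact hne ((La6_cod D C h).inj k hk k' hk' (m1.trans m2.symm))
      · exact ct_three hl (by omega)
    · intro y hy x hp hl
      have hxY : x ∈ lowPart 12 (t : P) := by
        rcases mem_union.mp hy with hy | hy
        · obtain ⟨b, hb1, -, hb3⟩ := (((hA y).mp hy).2 x).mp hp.1
          exact (La6_low D C x).mpr ⟨b, hb1, hb3⟩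
        · obtain ⟨z, hz, hyz⟩ := mem_PdV.mp hy
          have h1 := hyz.2 x hp.1
          have h2 := hA13 z hz
          rw [← h1, hl] at h2
          omega
      have := nab_le_row h C (x := x) (mem_lowPart.mp hxY).1 hl.le (l := 6) (by norm_num)
      omega
  · rw [hb]
    exact dt_loc E.loc
  · rw [hb]
    exact pt_of E.pl
  · intro z z' hne h6 h5 h6' h5'
    refine hρ2 ?_
    have hz : ∀ z, z ⋖ e 12 6 → z ⋖ e 12 5 → z ∈ A := by
      intro z h6 h5
      obtain ⟨m, hm, hmk, b1, b2⟩ := msk_of D C h (a := 23) (b := 22) (by norm_num)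
        (by norm_num) (by norm_num) (by norm_num) h6 h5
      have h1 : ∀ m ∈ msk, m.testBit 23 = true → m.testBit 22 = true → m = 12582912 := by
        decide +kernel
      rw [h1 m hm b1 b2] at hmk
      exact (hA z).mpr hmk
    have h1 : ({z, z'} : Finset P) ⊆ A := by
      intro x hx
      rw [mem_insert, mem_singleton] at hx
      rcases hx with rfl | rfl
      · exact hz _ h6 h5
      · exact hz _ h6' h5'
    have h2 := Finset.card_le_card h1
    rw [Finset.card_pair hne] at h2
    exact h2

end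

end Pool.Agent.GaussPoset.W6
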