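import Pool.Agent.W_448w6_h53.WdH

/-!
Level 12, window 6: all components, the context (MP_448cb3_co, `j = 12`).
-/

namespace Pool.Agent.GaussPoset.W6

set_option linter.unusedSectionVars false

open Polynomial Finset Dd Wd Cl

universe u

variable {P : Type u} [Fintype P] [PartialOrder P] [DecidableEq P] {r : ℕ}

section

variable {t : Tops P} {lo hi : ℕ → ℕ} {e : ℕ → ℕ → P}

/-- **the data of a component different from `La6`.** -/
theorem exists_com (h : Win.GoodTo P r 12) (C : Cp.Comp 12 (t : P) lo hi e)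
    (S : Wd.Shape 12 lo hi) (hn : ¬ WordD 12 6 wa6 lo hi) :
    ∃ Y θ B, (TB 28 True t (hi 6 - lo 6 + 1) Y θ ∧ DT 28 t (hi 6 - lo 6 + 1) Y θ B) ∧
      (StairShape 12 lo hi → lo 12 = 0 → ∀ z, z ⋖ e 12 6 → z ⋖ e 12 0 →
        z ∉ Y ∧ IsCx t (hi 6 - lo 6 + 1) θ z) := by
  rcases S with h1 | ⟨h1, h2⟩ | ⟨h0, h2⟩ | ⟨h0, h1, h2⟩ | ⟨h0, h1⟩ | ⟨a, h0, h1, h2, h3, hN, h4⟩
  · -- light
    have e6 := h1 6 (by norm_num)
    obtain ⟨g1, g2⟩ := light_ts (t := t) h C (by omega)
    rw [show hi 6 - lo 6 + 1 = 1 by omega]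
    refine ⟨_, _, _, ⟨g1, g2⟩, fun S => ?_⟩
    have := S.hi 12 le_rfl
    have := h1 12 le_rfl
    omega
  · -- rectangle
    obtain ⟨θ, B, T⟩ := rect_ts h C h1 h2
    refine ⟨∅, θ, B, T, fun S => ?_⟩
    have := S.hi 1 (by norm_num)
    omega
  · -- stair
    obtain ⟨Y, θ, B, T, hx⟩ := stair_ts h C h2
    exact ⟨Y, θ, B, T, fun _ => hx⟩
  · omega
  · omega
  · -- late
    have hns : StairShape 12 lo hi → False := by
      intro S
      have e1 := S.hi 2 (by norm_num)
      have e2 := h2 2 (by omega)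
      omega
    have D : LateD 12 a lo hi := ⟨h0, h1, h2, h3, h4⟩
    rcases Nat.lt_or_ge 6 a with ha | ha
    · have e6 := h2 6 ha
      obtain ⟨g1, g2⟩ := light_ts (t := t) h C (by omega)
      rw [show hi 6 - lo 6 + 1 = 1 by omega]
      exact ⟨_, _, _, ⟨g1, g2⟩, fun S => (hns S).elim⟩
    · rcases h4 with ⟨⟨g1, g2⟩, g3⟩ | g3
      · have hq := D.quad C g3
        obtain rfl : a = 6 := by omega
        obtain ⟨θ, B, T⟩ := quad_ts h C ⟨D.h2, D.h3, by
          intro k hk hk2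
          have := hq (k - 6) (by omega) (by omega)
          rwa [show 6 + (k - 6) = k by omega] at this⟩
        exact ⟨∅, θ, B, T, fun S => (hns S).elim⟩
      · have hlen : (word lo hi a (12 - a)).length = 12 - a := word_length
        obtain rfl | rfl | rfl | rfl : a = 3 ∨ a = 4 ∨ a = 5 ∨ a = 6 := by omega
        · exact absurd hlen (Hc.late12_3 _ g3)
        · obtain ⟨θ, B, T⟩ := e7_ts h C (⟨D.h2, D.h3, Hc.late12_4 _ g3 hlen⟩ :
            WordD 12 4 w7 lo hi)
          exact ⟨∅, θ, B, T, fun S => (hns S).elim⟩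
        · obtain ⟨Y, θ, B, T⟩ := la5_ts h C (⟨D.h2, D.h3, Hc.late12_5 _ g3 hlen⟩ :
            WordD 12 5 wa5 lo hi)
          exact ⟨Y, θ, B, T, fun S => (hns S).elim⟩
        · exact absurd (⟨D.h2, D.h3, Hc.late12_6 _ g3 hlen⟩ : WordD 12 6 wa6 lo hi) hn

end

/-! ### the context -/

/-- the context at level 12 -/
structure C12 (P : Type u) [Fintype P] [PartialOrder P] [DecidableEq P] (r : ℕ)
    (lo hi : Tops P → ℕ → ℕ) (e : Tops P → ℕ → ℕ → P) (T n0 : ℕ) (q : Prop) (ρ : Tops P → ℤ)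
    (Y : Tops P → Finset P) (θ : Tops P → P → ℕ) (B : Tops P → P → Prop) : Prop where
  K : Sm.Ctx P r 12 lo hi e
  ts : ∀ t, TS T n0 q t (hi t 6 - lo t 6 + 1) (ρ t) (Y t) (θ t) (B t)

/-- the natural sets -/
noncomputable def N12 (Y : Tops P → Finset P) (t : Tops P) : Finset P := lowPart 12 (t : P) ∪ Y t

/-- the thresholds -/
noncomputable def th12 (θ : Tops P → P → ℕ) (x : P) : ℕ := θ (topOf x) x

/-- the base elements -/
def B12 (Y : Tops P → Finset P) (B : Tops P → P → Prop) (x : P) : Prop :=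
  x ∉ unnat (N12 Y) ∧ B (topOf x) x

/-- the orders -/
def b12 (lo hi : Tops P → ℕ → ℕ) (t : Tops P) : ℕ := hi t 6 - lo t 6 + 1

/-- the labels -/
noncomputable def h12 (Y : Tops P → Finset P) (θ : Tops P → P → ℕ) : P → ℕ :=
  hcan (unnat (N12 Y)) (th12 θ)

section

variable {lo hi : Tops P → ℕ → ℕ} {e : Tops P → ℕ → ℕ → P} {T n0 : ℕ} {q : Prop}
  {ρ : Tops P → ℤ} {Y : Tops P → Finset P} {θ : Tops P → P → ℕ} {B : Tops P → P → Prop}

lemma low12 (Y : Tops P → Finset P) (t : Tops P) : lowPart 12 (t : P) ⊆ N12 Y t :=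
  Finset.subset_union_left

lemma C12.sys (W : C12 P r lo hi e T n0 q ρ Y θ B) : NatSys (N12 Y) := by
  have hup : ∀ t : Tops P, ∀ n, ∀ x ∈ N12 Y t, lev x ≤ n → x ≤ (t : P) ∧
      ∀ y, x ≤ y → y ∈ N12 Y t := by
    intro t n
    induction n with
    | zero =>
      intro x hx hl
      have hx12 : x ∈ lowPart 12 (t : P) := by
        rcases mem_union.mp hx with hx | hx
        · exact hx
        · have := (W.ts t).cost.Ylev x hx
          omega
      exact ⟨(mem_lowPart.mp hx12).1, fun y hxy => low12 Y t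
        (lowPart_up W.K.gt.H W.K.gt.good t.2 hxy hx12)⟩
    | succ n ih =>
      intro x hx hl
      rcases mem_union.mp hx with hx' | hx'
      · exact ⟨(mem_lowPart.mp hx').1, fun y hxy => low12 Y t
          (lowPart_up W.K.gt.H W.K.gt.good t.2 hxy hx')⟩
      · have h2 := (W.ts t).cost.Ylev x hx'
        have hcov : ∀ v, x ⋖ v → v ≤ (t : P) ∧ ∀ y, v ≤ y → y ∈ N12 Y t := by
          intro v hv
          have h3 := (W.K.gt.H.covBy_iff.mp hv).2
          exact ih v ((W.ts t).cost.Yup x hx' v hv) (by omega)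
        have hlt : x < (topOf x : P) := lt_of_le_of_ne (le_topOf x) (by
          intro h
          have h3 := (topOf x).2
          rw [← h] at h3
          omega)
        obtain ⟨v, hv, -⟩ := Hul.exists_cov hlt
        refine ⟨hv.1.le.trans (hcov v hv).1, fun y hxy => ?_⟩
        rcases eq_or_lt_of_le hxy with h | h
        · rw [← h]; exact hx
        · obtain ⟨v', hv', hvy⟩ := Hul.exists_cov h
          exact (hcov v' hv').2 y hvy
  exact ⟨fun t x hx y hxy => (hup t (lev x) x hx le_rfl).2 y hxy,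
    fun t x hx => (hup t (lev x) x hx le_rfl).1⟩

lemma C12.lev13 (_W : C12 P r lo hi e T n0 q ρ Y θ B) {x : P} (hx : x ∈ unnat (N12 Y)) :
    12 < lev x := unnat_lev12 (low12 Y) hx

lemma C12.nat12 (W : C12 P r lo hi e T n0 q ρ Y θ B) {x : P} (hx : lev x ≤ 12) :
    x ∉ unnat (N12 Y) := fun h => by
  have := W.lev13 h
  omega

/-- natural elements -/
lemma C12.nat_cases (W : C12 P r lo hi e T n0 q ρ Y θ B) {x : P} (hx : x ∉ unnat (N12 Y)) :
    lev x ≤ 12 ∨ x ∈ Y (topOf x) := by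
  have h1 : x ∈ N12 Y (topOf x) := W.sys.mem_iff.mpr ⟨hx, rfl⟩
  unfold N12 at h1
  rw [mem_union, mem_lowPart] at h1
  rcases h1 with h1 | h1
  · exact Or.inl h1.2
  · exact Or.inr h1

/-- **The ladder data.** -/
lemma C12.lad (W : C12 P r lo hi e T n0 q ρ Y θ B) :
    J8.Lad 6 n0 (unnat (N12 Y)) (b12 lo hi) (th12 θ) (B12 Y B) where
  gr := W.K.gt.H.gradedBelow
  low := W.sys.lower
  lev := fun x hx => by
    have := W.lev13 hx
    omega
  cp := W.sys.cp
  base := fun x hx h => h.1 hx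
  data := fun t => by
    have HN := W.sys
    refine (W.ts t).data (N12 Y) HN (low12 Y) rfl _ _ ?_ ?_
    · intro x hx
      unfold th12
      rw [HN.topOf_eq hx]
    · intro x hx
      unfold B12
      rw [HN.topOf_eq hx]
      exact and_iff_right (HN.mem_iff.mp hx).1

lemma C12.sum_b (W : C12 P r lo hi e T n0 q ρ Y θ B) : ∑ t, b12 lo hi t = (lv P 6).card :=
  (card_level W.K.gt.H W.K.gt.good W.K.comp (i := 6) (by norm_num)).symm

lemma C12.top_of (W : C12 P r lo hi e T n0 q ρ Y θ B) {t : Tops P} {x : P} (hx : x ≤ (t : P))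
    (hl : lev x ≤ 12) : topOf x = t :=
  W.sys.topOf_eq (low12 Y t (mem_lowPart.mpr ⟨hx, hl⟩))

/-- the label is at most one more than the threshold of each cover -/
lemma C12.h_le (W : C12 P r lo hi e T n0 q ρ Y θ B) {t : Tops P} {z x : P} (hzx : z ⋖ x)
    (hx : x ≤ (t : P)) (hl : lev x ≤ 12) : h12 Y θ z ≤ θ t x + 1 := by
  have h1 := hcan_le (θ := th12 θ) (W.nat12 hl) hzx
  unfold th12 at h1
  rw [W.top_of hx hl] at h1
  exact h1

/-- the sides of a join -/
structure Jo (Y : Tops P → Finset P) (θ : Tops P → P → ℕ) (z x x' : P) : Prop where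
  cov : z ⋖ x
  cov' : z ⋖ x'
  ne : topOf x ≠ topOf x'
  lz : lev z = 13
  lx : lev x = 12
  lx' : lev x' = 12
  lab : h12 Y θ z = θ (topOf x) x + 1
  le : h12 Y θ z ≤ θ (topOf x') x' + 1
  uc : (Win.uc x).card = 1
  uc' : (Win.uc x').card = 1
  sum : ∀ k, k ≤ 12 → nab k z = nab k x + nab k x'

/-- the boundary elements -/
inductive Kd (lo hi : Tops P → ℕ → ℕ) (T : ℕ) (q : Prop) (Y : Tops P → Finset P)
    (θ : Tops P → P → ℕ) (z : P) : Prop
  | far (hc : T ≤ cst 6 (h12 Y θ) z)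
  | pen (x : P) (hp : Pend z x) (hh : h12 Y θ z = 1) (h0 : θ (topOf x) x = 0)
      (hx : Fp x ∨ Qp x) (hl : lev x = 12)
  | jo (x x' : P) (hj : Jo Y θ z x x')
  | cx (t : Tops P) (hq : q) (hh : h12 Y θ z = 1) (hx : IsCx t (b12 lo hi t) (θ t) z)

/-- **The kinds of the boundary elements.** -/
theorem C12.kind (W : C12 P r lo hi e T n0 q ρ Y θ B) {z : P} (hz : z ∈ bdR (unnat (N12 Y))) :
    Kd lo hi T q Y θ z := by
  classical
  have H := W.K.gt.H
  have HN := W.sys
  obtain ⟨x, hx, hzx, hh⟩ := hcan_spec (θ := th12 θ) hz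
  have hh' : h12 Y θ z = θ (topOf x) x + 1 := hh
  have hzR := (mem_filter.mp hz).1
  have hz13 := W.lev13 hzR
  have hzl := (H.covBy_iff.mp hzx).2
  have hzY : z ∉ Y (topOf x) := fun h => mem_unnat.mp hzR (topOf x) (by
    unfold N12
    rw [mem_union]
    exact Or.inr h)
  rcases W.nat_cases hx with h1 | h1
  · -- level 13
    have hlz : lev z = 13 := by omega
    have hlx : lev x = 12 := by omega
    by_cases hp : ∀ y, z ⋖ y → y = x
    · -- pendants
      rcases (W.ts (topOf x)).cost.pend x z (le_topOf x) hlx hzx hp hzY with h2 | ⟨h2, h3⟩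
      · exact Kd.far (by rw [cst_ct hh']; exact h2)
      · exact Kd.pen x ⟨hzx, hp⟩ (by rw [hh', h2]) h2 h3 hlx
    push Not at hp
    obtain ⟨y, hzy, hyx⟩ := hp
    have hly := (H.covBy_iff.mp hzy).2
    have hly12 : lev y = 12 := by omega
    have hle : h12 Y θ z ≤ θ (topOf y) y + 1 := W.h_le hzy (le_topOf y) hly12.le
    by_cases ht : topOf x = topOf y
    · -- own elements
      have hyt : y ≤ (topOf x : P) := by rw [ht]; exact le_topOf y
      have hle' : θ (topOf x) x ≤ θ (topOf x) y := by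
        rw [← ht] at hle
        omega
      rcases (W.ts (topOf x)).cost.own x y z (Ne.symm hyx) (le_topOf x) hyt hlx hly12 hzx hzy hzY
        hle' with h2 | ⟨hq, h2⟩
      · exact Kd.far (by rw [cst_ct hh']; exact h2)
      · refine Kd.cx (topOf x) hq ?_ h2
        obtain ⟨Nc, co, F, S, C, hb, hF⟩ := h2
        have h3 := W.h_le C.zF (C.chart.le_t F C.F_mem) C.lev_F.le
        omega
    · -- joins
      have hon : ∀ v : P, lev v = 12 → v ∈ onlyB (topOf v) := fun v hv =>
        only_low W.K.gt v (le_topOf v) hv.le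
      have hcg : Sm.Cg z x y := Sm.Cg.mk' hzx hzy (hon x hlx) (hon y hly12) ht
      obtain ⟨u1, u2⟩ := W.K.ends hcg hlz
      exact Kd.jo x y ⟨hzx, hzy, ht, hlz, hlx, hly12, hh', hle, u1, u2,
        fun k hk => hcg.sum H (by omega)⟩
  · -- higher levels
    exact Kd.far (by rw [cst_ct hh']; exact (W.ts (topOf x)).cost.costY x h1 z hzx hzY)

end

end Pool.Agent.GaussPoset.W6
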