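import Pool.Agent.W_448w6_h53.WeA

/-!
Level 12, window 6: the steps of the ladder (MP_448cb3_co, `j = 12`).
-/

namespace Pool.Agent.GaussPoset.W6

set_option linter.unusedSectionVars false

open Polynomial Finset Dd Wd Cl J8

universe u

variable {P : Type u} [Fintype P] [PartialOrder P] [DecidableEq P] {r : ℕ}

/-- **The values of one sign at one energy vanish.** -/
theorem kill {i n0 n B' : ℕ} {R : Finset P} {b : Tops P → ℕ} {θ : P → ℕ} {B : P → Prop}
    (L : Lad i n0 R b θ B) (hq : IsGaussian P) (hsum : ∑ t, b t = (lv P i).card)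
    (hn : n ≤ n0) (hB1 : 1 ≤ B') (hB' : B' ≤ (lv P i).card) (Fam : Finset (Finset P))
    (hFam : ∀ A ∈ Fam, ∀ z ∈ A, z ∈ bdR R)
    (hcost : ∀ z ∈ bdR R, (∀ A ∈ Fam, z ∉ A) → n ≤ cst i (hcan R θ) z)
    (hpair : ∀ A ∈ Fam, ∀ z ∈ A, ∀ z' ∈ bdR R, z' ∉ A →
      n < ∑ x, max (ez i (hcan R θ) z x) (ez i (hcan R θ) z' x))
    (hdis : ∀ A ∈ Fam, ∀ A' ∈ Fam, A ≠ A' → ∀ z ∈ A, z ∉ A') {s ν : ℤ} (hs : s ≠ 0)
    (hν : 0 ≤ ν) (hnat : Lv B' (Z {x : P // x ∉ R} i n) (ν * s)) (cA : Finset P → ℤ)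
    (hA : ∀ A ∈ Fam, 0 ≤ cA A ∧ Lv B' (ZF i (hcan R θ) A n) (cA A * s)) (cz : P → ℤ)
    (hz : ∀ z ∈ bdR R, (∀ A ∈ Fam, z ∉ A) → cst i (hcan R θ) z = n →
      0 ≤ cz z ∧ Lv B' (Lt i (hcan R θ) z) (cz z * s)) :
    ν = 0 ∧ (∀ A ∈ Fam, cA A = 0) ∧ ∀ z ∈ bdR R, (∀ A ∈ Fam, z ∉ A) →
      cst i (hcan R θ) z = n → cz z = 0 := by
  classical
  have hplus := L.plus0 hn Fam hFam hcost hpair hdis
  rw [hsum] at hplus
  have hplus' := (pow_dvd_pow _ hB').trans hplus
  set T := (bdR R).filter (fun z => (∀ A ∈ Fam, z ∉ A) ∧ cst i (hcan R θ) z = n) with hT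
  have hTm : ∀ z ∈ T, z ∈ bdR R ∧ (∀ A ∈ Fam, z ∉ A) ∧ cst i (hcan R θ) z = n := by
    intro z hz
    rw [hT, mem_filter] at hz
    exact hz
  have v5 := hnat.add ((Lv.sum Fam fun A hA' => (hA A hA').2).add
    (Lv.sum T fun z hz' => (hz z (hTm z hz').1 (hTm z hz').2.1 (hTm z hz').2.2).2))
  have v6 := Lv.congr hplus' v5
  have v7 := v6.eq_zero hB1 ((pow_dvd_pow _ hB').trans (dvd_Z hq i n))
  rw [← Finset.sum_mul, ← Finset.sum_mul, ← add_mul, ← add_mul] at v7
  have v8 := (mul_eq_zero.mp v7).resolve_right hs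
  have n2 : 0 ≤ ∑ A ∈ Fam, cA A := Finset.sum_nonneg fun A hA' => (hA A hA').1
  have n3 : 0 ≤ ∑ z ∈ T, cz z := Finset.sum_nonneg fun z hz' =>
    (hz z (hTm z hz').1 (hTm z hz').2.1 (hTm z hz').2.2).1
  have m2 : ∑ A ∈ Fam, cA A = 0 := by omega
  have m3 : ∑ z ∈ T, cz z = 0 := by omega
  refine ⟨by omega, ?_, ?_⟩
  · exact (Finset.sum_eq_zero_iff_of_nonneg fun A hA' => (hA A hA').1).mp m2
  · intro z h1 h2 h3
    exact (Finset.sum_eq_zero_iff_of_nonneg fun z hz' =>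
      (hz z (hTm z hz').1 (hTm z hz').2.1 (hTm z hz').2.2).1).mp m3 z
      (by rw [hT, mem_filter]; exact ⟨h1, h2, h3⟩)

/-- the leading term of the label one -/
lemma lt_h1 {h : P → ℕ} {z : P} (hh : h z = 1) : Lt 6 h z =
    X ^ (below P 6 + nab 6 z) * (1 + X) ^ ((lv P 6).card + nab 7 z - nab 6 z) := by
  unfold Lt
  rw [nst_one hh, hh]

lemma lv_lt {h : P → ℕ} {z : P} (hh : h z = 1) {B' : ℕ}
    (hB : B' + nab 6 z = (lv P 6).card + nab 7 z + 1) :
    Lv B' (Lt 6 h z) ((-1) ^ (below P 6 + nab 6 z)) := by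
  have h1 := nab_le z 6
  rw [lt_h1 hh, show (lv P 6).card + nab 7 z - nab 6 z = B' - 1 by omega]
  exact Lv.mono _ _

lemma lv_lt0 {h : P → ℕ} {z : P} (hh : h z = 1) {B' : ℕ}
    (hB : B' + nab 6 z ≤ (lv P 6).card + nab 7 z) : Lv B' (Lt 6 h z) 0 := by
  rw [lt_h1 hh]
  exact Lv.zero ((pow_dvd_pow _ (by omega)).trans (dvd_mul_left _ _))

/-- the cost of a (C) element -/
lemma cx_cost (hgr : GradedBelow P) {t : Tops P} {b : ℕ} {θ : P → ℕ} {h : P → ℕ} {z : P}
    (h0 : h z = 1) (hx : IsCx t b θ z) : cst 6 h z = 19 := by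
  obtain ⟨Nc, co, F, S, C, -⟩ := hx
  have h1 := C.cst_eq hgr (by norm_num)
  have h2 : hh 6 = 1 := rfl
  rw [h2] at h1
  rw [cst_ct h0]
  have h3 : E0 6 = 19 := by decide +kernel
  rw [← h3]
  exact h1

section

variable {lo hi : Tops P → ℕ → ℕ} {e : Tops P → ℕ → ℕ → P} {T n0 : ℕ} {q : Prop}
  {ρ : Tops P → ℤ} {Y : Tops P → Finset P} {θ : Tops P → P → ℕ} {B : Tops P → P → Prop}

/-- the (C) elements -/
noncomputable def CX (lo hi : Tops P → ℕ → ℕ) (Y : Tops P → Finset P)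
    (θ : Tops P → P → ℕ) : Finset P := by
  classical exact (bdR (unnat (N12 Y))).filter (fun z => h12 Y θ z = 1 ∧
    ∃ t, IsCx t (b12 lo hi t) (θ t) z)

lemma mem_CX {z : P} : z ∈ CX lo hi Y θ ↔ z ∈ bdR (unnat (N12 Y)) ∧ h12 Y θ z = 1 ∧
    ∃ t, IsCx t (b12 lo hi t) (θ t) z := by
  classical
  unfold CX
  rw [mem_filter]

/-- the families of the (C) elements -/
noncomputable def FX (lo hi : Tops P → ℕ → ℕ) (Y : Tops P → Finset P)
    (θ : Tops P → P → ℕ) : Finset (Finset P) := by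
  classical exact (CX lo hi Y θ).image (J8.fam (unnat (N12 Y)))

lemma mem_FX {A : Finset P} : A ∈ FX lo hi Y θ ↔ ∃ z ∈ CX lo hi Y θ, J8.fam (unnat (N12 Y)) z = A := by
  classical
  unfold FX
  rw [mem_image]

/-- the elements of a family of (C) elements -/
lemma C12.fam_cx (W : C12 P r lo hi e T n0 q ρ Y θ B) {z y : P} {t : Tops P}
    (hx : IsCx t (b12 lo hi t) (θ t) z) (hy : y ∈ J8.fam (unnat (N12 Y)) z) :
    h12 Y θ y = 1 ∧ IsCx t (b12 lo hi t) (θ t) y := by
  obtain ⟨Nc, co, F, S, C, hb, hF⟩ := hx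
  obtain ⟨hyR, hup⟩ := J8.mem_fam.mp hy
  have hyF := (cov_of_up hup).mp C.zF
  have hyS := (cov_of_up hup).mp C.zS
  have C' : CEl t Nc co 6 y F S := ⟨C.chart, C.strip, C.F_mem, C.S_mem, C.co_F, C.co_S, hyF,
    hyS, fun w hw => C.only w ((cov_of_up hup).mpr hw)⟩
  have h1 := W.h_le hyF (C.chart.le_t F C.F_mem) C.lev_F.le
  have h2 := W.lad.one_le hyR
  have h2' : 1 ≤ h12 Y θ y := h2
  exact ⟨by omega, Nc, co, F, S, C', hb, hF⟩

lemma C12.fam_sub (W : C12 P r lo hi e T n0 q ρ Y θ B) {A : Finset P} (hA : A ∈ FX lo hi Y θ)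
    {z : P} (hz : z ∈ A) : z ∈ CX lo hi Y θ := by
  obtain ⟨y, hy, rfl⟩ := mem_FX.mp hA
  obtain ⟨-, -, t, h3⟩ := mem_CX.mp hy
  obtain ⟨h4, h5⟩ := W.fam_cx h3 hz
  exact mem_CX.mpr ⟨(J8.mem_fam.mp hz).1, h4, t, h5⟩

lemma C12.not_fam (_W : C12 P r lo hi e T n0 q ρ Y θ B) {z : P}
    (hz : ∀ A ∈ FX lo hi Y θ, z ∉ A) : z ∉ CX lo hi Y θ := fun h =>
  hz _ (mem_FX.mpr ⟨z, h, rfl⟩) (J8.fam_self (mem_CX.mp h).1)

/-- a (C) element and another boundary element -/
lemma C12.pair (W : C12 P r lo hi e T n0 q ρ Y θ B)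
    (h713 : ∀ z ∈ bdR (unnat (N12 Y)), cst 6 (h12 Y θ) z ≠ 7 ∧ cst 6 (h12 Y θ) z ≠ 13)
    (hT : 21 ≤ T) {z z' : P} (hzR : z ∈ unnat (N12 Y)) (hz : h12 Y θ z = 1)
    {t : Tops P} (hx : IsCx t (b12 lo hi t) (θ t) z) (hz' : z' ∈ bdR (unnat (N12 Y)))
    (hne : z' ∉ J8.fam (unnat (N12 Y)) z) :
    20 < ∑ x, max (ez 6 (h12 Y θ) z x) (ez 6 (h12 Y θ) z' x) := by
  classical
  have H := W.K.gt.H
  have hc := cx_cost H.gradedBelow hz hx
  obtain ⟨Nc, co, F, S, C, hb, hF⟩ := hx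
  have hlz := C.lev_z H.gradedBelow
  have hlz' := W.lev13 (mem_filter.mp hz').1
  have hle : ¬ z ≤ z' := by
    intro h
    rcases eq_or_lt_of_le h with h1 | h1
    · apply hne
      rw [← h1]
      exact J8.mem_fam.mpr ⟨by rw [h1]; exact hz', fun _ => Iff.rfl⟩
    · have := lev_strictAnti h1
      omega
  have h0 : ez 6 (h12 Y θ) z z' = 0 := by
    unfold ez
    rw [if_neg hle]
  have h1 : ez 6 (h12 Y θ) z' z' = h12 Y θ z' := ez_self (W.lad.le_lev hz')
  have hone := W.lad.one_le hz'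
  have hone' : 1 ≤ h12 Y θ z' := hone
  have hgen : cst 6 (h12 Y θ) z' ≤
      ∑ x, max (ez 6 (h12 Y θ) z x) (ez 6 (h12 Y θ) z' x) :=
    Finset.sum_le_sum fun x _ => le_max_right _ _
  -- the sum
  have hsum : ∀ T : Finset P, (∀ x ∈ T, ¬ z ≤ x) →
      19 + ∑ x ∈ T, ez 6 (h12 Y θ) z' x ≤
        ∑ x, max (ez 6 (h12 Y θ) z x) (ez 6 (h12 Y θ) z' x) := by
    intro T hT
    have e1 : cst 6 (h12 Y θ) z = ∑ x, ez 6 (h12 Y θ) z x := rfl
    rw [← hc, e1, ← Finset.sum_add_sum_compl T (fun x => max (ez 6 (h12 Y θ) z x) _),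
      ← Finset.sum_add_sum_compl T (fun x => ez 6 (h12 Y θ) z x)]
    have e2 : ∑ x ∈ T, ez 6 (h12 Y θ) z x = 0 := by
      refine Finset.sum_eq_zero fun x hx => ?_
      unfold ez
      rw [if_neg (hT x hx)]
    have e3 : ∑ x ∈ Tᶜ, ez 6 (h12 Y θ) z x ≤
        ∑ x ∈ Tᶜ, max (ez 6 (h12 Y θ) z x) (ez 6 (h12 Y θ) z' x) :=
      Finset.sum_le_sum fun x _ => le_max_left _ _
    have e4 : ∑ x ∈ T, ez 6 (h12 Y θ) z' x ≤
        ∑ x ∈ T, max (ez 6 (h12 Y θ) z x) (ez 6 (h12 Y θ) z' x) :=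
      Finset.sum_le_sum fun x _ => le_max_right _ _
    omega
  rcases Nat.lt_or_ge (h12 Y θ z') 2 with h2 | h2
  swap
  · have h3 := hsum {z'} (fun x hx => by rw [mem_singleton.mp hx]; exact hle)
    rw [Finset.sum_singleton, h1] at h3
    omega
  have h3 : h12 Y θ z' = 1 := by omega
  by_cases hcost : 21 ≤ cst 6 (h12 Y θ) z'
  · omega
  -- a cover which is not above `z`
  have hcov : ∃ y, z' ⋖ y ∧ ¬ z ≤ y ∧ 7 ≤ lev y := by
    by_contra hcon
    push Not at hcon
    obtain ⟨x, hx, hzx, hh⟩ := hcan_spec (θ := th12 θ) hz'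
    have hlx := (H.covBy_iff.mp hzx).2
    have hzx' : z ≤ x := by
      by_contra h6
      have := hcon x hzx h6
      omega
    have hx12 : lev x = 12 := by
      have h4 : lev x ≤ 13 := by
        rcases eq_or_lt_of_le hzx' with h5 | h5
        · rw [← h5, hlz]
        · have := lev_strictAnti h5
          omega
      rcases Nat.lt_or_ge (lev x) 13 with h5 | h5
      · omega
      · exfalso
        have h6 : z = x := by
          rcases eq_or_lt_of_le hzx' with h7 | h7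
          · exact h7
          · have := lev_strictAnti h7
            omega
        exact hx (by rw [← h6]; exact hzR)
    have hly : ∀ y, z' ⋖ y → lev y = 12 := fun y hy => by
      have := (H.covBy_iff.mp hy).2
      omega
    have hFS : ∀ y, z' ⋖ y → y = F ∨ y = S := by
      intro y hy
      have h5 : z ≤ y := by
        by_contra h6
        have := hcon y hy h6
        have := hly y hy
        omega
      have h6 : z < y := lt_of_le_of_ne h5 (by
        rintro rfl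
        have := hly z hy
        omega)
      have hyl := hly y hy
      rcases C.lt_iff.mp h6 with h7 | h7
      · left
        rcases eq_or_lt_of_le h7 with h8 | h8
        · exact h8.symm
        · have := lev_strictAnti h8
          have := C.lev_F
          omega
      · right
        rcases eq_or_lt_of_le h7 with h8 | h8
        · exact h8.symm
        · have := lev_strictAnti h8
          have := C.lev_S
          omega
    by_cases hp : ∀ y, z' ⋖ y → y = x
    · -- a pendant with label one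
      rcases W.kind hz' with h5 | ⟨x', hp', -, -, h6, h7⟩ | ⟨x', x'', hj⟩ | ⟨t', hq', h8, h9⟩
      · omega
      · have hn : ∀ k, k ≤ 12 → nab k z' = nab k x' := fun k hk => nab_pend hp' (by
          have := (H.covBy_iff.mp hp'.1).2
          omega)
        have n12 : nab 12 z' = 1 := by
          rw [hn 12 le_rfl]
          have := nab_self (z := x')
          rwa [h7] at this
        have hl13 : lev z' = 13 := by omega
        have hct := ct_one13 hl13
        have h5 := h713 z' hz'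
        rw [cst_ct h3] at h5
        rcases h6 with ⟨g6, g7, g8, g9, g10, g11⟩ | ⟨g6, g7, g8, g9, g10, g11⟩
        · rw [← hn _ (by norm_num)] at g6 g7 g8 g9 g10 g11
          omega
        · rw [← hn _ (by norm_num)] at g6 g7 g8 g9 g10 g11
          omega
      · refine hj.ne ?_
        rw [hp x' hj.cov, hp x'' hj.cov']
      · obtain ⟨Nc', co', F', S', C', -⟩ := h9
        have e1 := hp F' C'.zF
        have e2 := hp S' C'.zS
        have e3 := C'.co_F
        have e4 := C'.co_S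
        rw [e1] at e3
        rw [e2, e3] at e4
        exact absurd e4 (by decide)
    · -- the same covers
      push Not at hp
      obtain ⟨y, hzy, hyx⟩ := hp
      apply hne
      rw [J8.mem_fam]
      refine ⟨hz', ?_⟩
      have hFz : z' ⋖ F ∧ z' ⋖ S := by
        rcases hFS x hzx with h5 | h5 <;> rcases hFS y hzy with h6 | h6
        · exact absurd (h6.trans h5.symm) hyx
        · rw [h5] at hzx; rw [h6] at hzy; exact ⟨hzx, hzy⟩
        · rw [h5] at hzx; rw [h6] at hzy; exact ⟨hzy, hzx⟩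
        · exact absurd (h6.trans h5.symm) hyx
      refine up_of_cov fun v => ?_
      constructor
      · intro hv
        rcases C.only v hv with h5 | h5
        · rw [h5]; exact hFz.1
        · rw [h5]; exact hFz.2
      · intro hv
        rcases hFS v hv with h5 | h5
        · rw [h5]; exact C.zF
        · rw [h5]; exact C.zS
  obtain ⟨y, hy1, hy2, hy3⟩ := hcov
  have hyz : z' ≠ y := hy1.1.ne
  have h4 := hsum {z', y} (fun x hx => by
    rw [mem_insert, mem_singleton] at hx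
    rcases hx with rfl | rfl
    · exact hle
    · exact hy2)
  rw [Finset.sum_pair hyz, h1] at h4
  have h5 : ez 6 (h12 Y θ) z' y = 1 := by
    unfold ez
    rw [if_pos hy1.1.le, h3]
    omega
  omega

end

end Pool.Agent.GaussPoset.W6
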