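import Pool.Agent.W_448w6_h53.WeB

/-!
Level 12, window 6: the energies below `n0`, the energies 20 and `n0` (MP_448cb3_co, `j = 12`).
-/

namespace Pool.Agent.GaussPoset.W6

set_option linter.unusedSectionVars false

open Polynomial Finset Dd Wd Cl J8

universe u

variable {P : Type u} [Fintype P] [PartialOrder P] [DecidableEq P] {r : ℕ}

section

variable {lo hi : Tops P → ℕ → ℕ} {e : Tops P → ℕ → ℕ → P} {T n0 : ℕ} {q : Prop}
  {ρ : Tops P → ℤ} {Y : Tops P → Finset P} {θ : Tops P → P → ℕ} {B : Tops P → P → Prop}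

/-- the families of the (C) elements at the energies up to 20 -/
theorem C12.famZ (W : C12 P r lo hi e T n0 q ρ Y θ B) (h2 : 2 ≤ n0) {A : Finset P}
    (hA : A ∈ FX lo hi Y θ) :
    (∀ n < 20, (1 + X : ℤ[X]) ^ (lv P 6).card ∣ ZF 6 (h12 Y θ) A n) ∧
      Lv (lv P 6).card (ZF 6 (h12 Y θ) A 20) ((A.card : ℤ) * (-1) ^ (below P 6 + 3)) := by
  classical
  have H := W.K.gt.H
  have L := W.lad
  obtain ⟨z, hz, rfl⟩ := mem_FX.mp hA
  obtain ⟨h1, h2', t, h3⟩ := mem_CX.mp hz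
  obtain ⟨Nc, co, F, S, C, hb, hF⟩ := h3
  have key := J8.fam_poleT C (g := 3) (u := 0) (b := b12 lo hi) H W.sys (fun x hx => W.lev13 hx)
    (fun n hn => J8.dvd_restL L W.sys t (by omega)) rfl (by norm_num) (by norm_num)
    (by norm_num) hb (h := h12 Y θ) (A := J8.fam (unnat (N12 Y)) z) (J8.fam_self h1)
    (fun y hy => (J8.mem_fam.mp hy).2)
    (fun y hy => (W.fam_cx ⟨Nc, co, F, S, C, hb, hF⟩ hy).1)
  have e1 : E0 6 + hh 6 ^ 2 = 20 := by decide +kernel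
  rw [e1, W.sum_b] at key
  refine ⟨key.1, Lv.congr key.2 ?_⟩
  have e2 : (((J8.fam (unnat (N12 Y)) z).card : ℕ) : ℤ) * (-1) ^ (below P 6 + 3) =
      ∑ _y ∈ J8.fam (unnat (N12 Y)) z, (-1 : ℤ) ^ (below P 6 + (0 + 1) * 3) := by
    rw [Finset.sum_const, nsmul_eq_mul]
  rw [e2]
  exact Lv.sum _ fun y _ => Lv.mono _ _

lemma C12.card_pos (W : C12 P r lo hi e T n0 q ρ Y θ B) (t : Tops P) : 1 ≤ (lv P 6).card := by
  rw [← W.sum_b]
  have h1 : b12 lo hi t ≤ ∑ t, b12 lo hi t :=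
    Finset.single_le_sum (f := b12 lo hi) (fun _ _ => Nat.zero_le _) (mem_univ t)
  have h2 : 1 ≤ b12 lo hi t := (W.ts t).cost.b_one
  omega

lemma C12.off (W : C12 P r lo hi e T n0 q ρ Y θ B) {z : P} (hz : z ∉ CX lo hi Y θ) :
    ∀ A ∈ FX lo hi Y θ, z ∉ A := fun _ hA hzA => hz (W.fam_sub hA hzA)

/-- one energy: the general form -/
theorem C12.gen (W : C12 P r lo hi e T n0 q ρ Y θ B) {n B' : ℕ} (hn : n ≤ n0)
    (hX : n < 19 ∨ (n ≤ 20 ∧ 21 ≤ T ∧ ∀ z ∈ bdR (unnat (N12 Y)),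
      cst 6 (h12 Y θ) z ≠ 7 ∧ cst 6 (h12 Y θ) z ≠ 13) ∨ CX lo hi Y θ = ∅)
    (hB1 : 1 ≤ B') (hB' : B' ≤ (lv P 6).card)
    (hcost : ∀ z ∈ bdR (unnat (N12 Y)), z ∉ CX lo hi Y θ → n ≤ cst 6 (h12 Y θ) z)
    {s ν : ℤ} (hs : s ≠ 0) (hν : 0 ≤ ν)
    (hnat : Lv B' (Z {x : P // x ∉ unnat (N12 Y)} 6 n) (ν * s)) (cA : Finset P → ℤ)
    (hA : ∀ A ∈ FX lo hi Y θ, 0 ≤ cA A ∧ Lv B' (ZF 6 (h12 Y θ) A n) (cA A * s)) (cz : P → ℕ)
    (hz : ∀ z ∈ bdR (unnat (N12 Y)), z ∉ CX lo hi Y θ → cst 6 (h12 Y θ) z = n →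
      Lv B' (Lt 6 (h12 Y θ) z) ((cz z : ℤ) * s)) :
    ν = 0 ∧ (∀ A ∈ FX lo hi Y θ, cA A = 0) ∧ ∀ z ∈ bdR (unnat (N12 Y)), z ∉ CX lo hi Y θ →
      cst 6 (h12 Y θ) z = n → cz z = 0 := by
  classical
  have hgr := W.K.gt.H.gradedBelow
  obtain ⟨k1, k2, k3⟩ := kill W.lad W.K.gt.H.gauss W.sum_b hn hB1 hB' (FX lo hi Y θ)
    (fun A hA z hz => (mem_CX.mp (W.fam_sub hA hz)).1)
    (fun z hz hno => hcost z hz (W.not_fam hno))
    (by
      intro A hA z hz z' hz' hne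
      obtain ⟨hzb, hz1, t, hx⟩ := mem_CX.mp (W.fam_sub hA hz)
      rcases hX with hX | ⟨hX, hT, h713⟩ | hX
      · have h1 := cx_cost hgr hz1 hx
        have h2 : cst 6 (h12 Y θ) z ≤
            ∑ x, max (ez 6 (h12 Y θ) z x) (ez 6 (h12 Y θ) z' x) :=
          Finset.sum_le_sum fun x _ => le_max_left _ _
        refine lt_of_lt_of_le ?_ h2
        omega
      · have h1 := W.pair h713 hT (mem_filter.mp hzb).1 hz1 hx hz' (by
          intro hcon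
          apply hne
          obtain ⟨y, hy, rfl⟩ := mem_FX.mp hA
          rwa [J8.fam_eq hz (J8.fam_self hzb)])
        exact lt_of_le_of_lt hX h1
      · have := W.fam_sub hA hz
        rw [hX] at this
        exact absurd this (Finset.notMem_empty _))
    (by
      intro A hA A' hA' hne' z hz hz'
      obtain ⟨y, -, rfl⟩ := mem_FX.mp hA
      obtain ⟨y', -, rfl⟩ := mem_FX.mp hA'
      exact hne' (J8.fam_eq hz hz'))
    hs hν hnat cA hA (fun z => (cz z : ℤ))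
    (fun z hz' hno hc => ⟨by positivity, hz z hz' (W.not_fam hno) hc⟩)
  refine ⟨k1, k2, fun z hz1 hz2 hz3 => ?_⟩
  have := k3 z hz1 (W.off hz2) hz3
  exact_mod_cast this

/-- **The energies below `n0`, different from 20.** -/
theorem C12.step (W : C12 P r lo hi e T n0 q ρ Y θ B) {n s B' : ℕ} (hn : n < n0) (h2 : 2 ≤ n0)
    (hX : n < 19 ∨ (n = 19 ∧ 21 ≤ T ∧ ∀ z ∈ bdR (unnat (N12 Y)),
      cst 6 (h12 Y θ) z ≠ 7 ∧ cst 6 (h12 Y θ) z ≠ 13) ∨ CX lo hi Y θ = ∅)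
    (hB1 : 1 ≤ B') (hB' : B' ≤ (lv P 6).card)
    (hcost : ∀ z ∈ bdR (unnat (N12 Y)), z ∉ CX lo hi Y θ → n ≤ cst 6 (h12 Y θ) z)
    (cz : P → ℕ)
    (hz : ∀ z ∈ bdR (unnat (N12 Y)), z ∉ CX lo hi Y θ → cst 6 (h12 Y θ) z = n →
      Lv B' (Lt 6 (h12 Y θ) z) ((cz z : ℤ) * (-1) ^ s)) :
    ∀ z ∈ bdR (unnat (N12 Y)), z ∉ CX lo hi Y θ → cst 6 (h12 Y θ) z = n → cz z = 0 := by
  have h1 := W.lad.nat_low hn
  rw [W.sum_b] at h1
  refine (W.gen hn.le ?_ hB1 hB' hcost (s := (-1) ^ s) (ν := 0)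
    (pow_ne_zero _ (by norm_num)) le_rfl ?_ (fun _ => 0) ?_ cz hz).2.2
  · rcases hX with hX | ⟨hX, h3⟩ | hX
    · exact Or.inl hX
    · exact Or.inr (Or.inl ⟨by omega, h3⟩)
    · exact Or.inr (Or.inr hX)
  · rw [zero_mul]
    exact Lv.zero ((pow_dvd_pow _ hB').trans h1)
  · intro A hA
    refine ⟨le_rfl, ?_⟩
    rw [zero_mul]
    have h20 : n < 20 := by
      rcases hX with hX | ⟨hX, h3⟩ | hX
      · omega
      · omega
      · obtain ⟨y, hy, -⟩ := mem_FX.mp hA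
        rw [hX] at hy
        exact absurd hy (Finset.notMem_empty _)
    exact Lv.zero ((pow_dvd_pow _ hB').trans ((W.famZ h2 hA).1 n h20))

/-- **The energy 20.** -/
theorem C12.twenty (W : C12 P r lo hi e T n0 q ρ Y θ B) (hn : 20 < n0) (hT : 21 ≤ T)
    (h713 : ∀ z ∈ bdR (unnat (N12 Y)), cst 6 (h12 Y θ) z ≠ 7 ∧ cst 6 (h12 Y θ) z ≠ 13)
    (hcost : ∀ z ∈ bdR (unnat (N12 Y)), z ∉ CX lo hi Y θ → 20 ≤ cst 6 (h12 Y θ) z)
    (cz : P → ℕ)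
    (hz : ∀ z ∈ bdR (unnat (N12 Y)), z ∉ CX lo hi Y θ → cst 6 (h12 Y θ) z = 20 →
      Lv (lv P 6).card (Lt 6 (h12 Y θ) z) ((cz z : ℤ) * (-1) ^ (below P 6 + 3))) :
    CX lo hi Y θ = ∅ ∧ ∀ z ∈ bdR (unnat (N12 Y)), cst 6 (h12 Y θ) z = 20 → cz z = 0 := by
  classical
  rcases isEmpty_or_nonempty (Tops P) with he | ⟨⟨t⟩⟩
  · have h0 : ∀ z : P, False := fun z => he.elim (topOf z)
    exact ⟨Finset.eq_empty_of_forall_notMem fun z _ => h0 z, fun z => (h0 z).elim⟩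
  have h1 := W.lad.nat_low hn
  rw [W.sum_b] at h1
  obtain ⟨-, k2, k3⟩ := W.gen hn.le (Or.inr (Or.inl ⟨le_rfl, hT, h713⟩)) (W.card_pos t) le_rfl
    hcost (s := (-1) ^ (below P 6 + 3)) (ν := 0) (pow_ne_zero _ (by norm_num)) le_rfl
    (by rw [zero_mul]; exact Lv.zero h1) (fun A => (A.card : ℤ))
    (fun A hA => ⟨by positivity, (W.famZ (by omega) hA).2⟩) cz hz
  have hX : CX lo hi Y θ = ∅ := by
    refine Finset.eq_empty_of_forall_notMem fun z hz' => ?_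
    have h3 := k2 _ (mem_FX.mpr ⟨z, hz', rfl⟩)
    have h4 : 0 < (J8.fam (unnat (N12 Y)) z).card :=
      Finset.card_pos.mpr ⟨z, J8.fam_self (mem_CX.mp hz').1⟩
    omega
  refine ⟨hX, fun z h3 h4 => k3 z h3 ?_ h4⟩
  rw [hX]
  exact Finset.notMem_empty _

/-- **The energy `n0`.** -/
theorem C12.last (W : C12 P r lo hi e T n0 q ρ Y θ B) (h1 : 1 ≤ n0)
    (hX : CX lo hi Y θ = ∅) {σ : ℤ} (hσ : σ ≠ 0) (hρ : ∀ t, 0 ≤ σ * ρ t) (hσ1 : σ * σ = 1)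
    (hcost : ∀ z ∈ bdR (unnat (N12 Y)), n0 ≤ cst 6 (h12 Y θ) z) (cz : P → ℕ)
    (hz : ∀ z ∈ bdR (unnat (N12 Y)), cst 6 (h12 Y θ) z = n0 →
      Lv (lv P 6).card (Lt 6 (h12 Y θ) z) ((cz z : ℤ) * (σ * (-1) ^ below P 6))) :
    (∀ t, ρ t = 0) ∧ ∀ z ∈ bdR (unnat (N12 Y)), cst 6 (h12 Y θ) z = n0 → cz z = 0 := by
  classical
  rcases isEmpty_or_nonempty (Tops P) with he | ⟨⟨t⟩⟩
  · have h0 : ∀ z : P, False := fun z => he.elim (topOf z)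
    exact ⟨fun t => he.elim t, fun z => (h0 z).elim⟩
  have hnat := W.lad.nat_lv h1 (fun t => (W.ts t).cost.b_one) ⟨t⟩ W.sum_b ρ (fun t =>
    (W.ts t).pl (N12 Y) W.sys (low12 Y) rfl)
  have hν : 0 ≤ ∑ t, σ * ρ t := Finset.sum_nonneg fun t _ => hρ t
  obtain ⟨k1, -, k3⟩ := W.gen (n := n0) (B' := (lv P 6).card) le_rfl (Or.inr (Or.inr hX))
    (W.card_pos t) le_rfl (fun z h _ => hcost z h) (s := σ * (-1) ^ below P 6)
    (ν := ∑ t, σ * ρ t) (mul_ne_zero hσ (pow_ne_zero _ (by norm_num))) hν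
    (by
      have e1 : (∑ t, σ * ρ t) * (σ * (-1) ^ below P 6) = (∑ t, ρ t) * (-1) ^ below P 6 := by
        rw [← Finset.mul_sum]
        calc σ * (∑ t, ρ t) * (σ * (-1) ^ below P 6) =
            (σ * σ) * ((∑ t, ρ t) * (-1) ^ below P 6) := by ring
          _ = _ := by rw [hσ1, one_mul]
      rw [e1]
      exact hnat)
    (fun _ => 0)
    (by
      intro A hA
      obtain ⟨y, hy, -⟩ := mem_FX.mp hA
      rw [hX] at hy
      exact absurd hy (Finset.notMem_empty _)) cz (fun z h _ h3 => hz z h h3)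
  refine ⟨fun t => ?_, fun z h3 h4 => k3 z h3 (by rw [hX]; exact Finset.notMem_empty _) h4⟩
  have h2 := (Finset.sum_eq_zero_iff_of_nonneg (fun t _ => hρ t)).mp k1 t (mem_univ t)
  exact (mul_eq_zero.mp h2).resolve_left hσ

end

end Pool.Agent.GaussPoset.W6
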