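import Pool.Agent.W_448w6_h53.WeC

/-!
Level 12, window 6: the costs of the joins; the energies 7 and 13
(MP_448cb3_co, `j = 12`).
-/

namespace Pool.Agent.GaussPoset.W6

set_option linter.unusedSectionVars false

open Polynomial Finset Dd Wd Cl J8

universe u

variable {P : Type u} [Fintype P] [PartialOrder P] [DecidableEq P] {r : ℕ}

/-- the cost of an element of level 13 with label one -/
noncomputable def S13 (z : P) : ℕ :=
  nab 7 z + nab 8 z + nab 9 z + nab 10 z + nab 11 z + nab 12 z + 1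

lemma cst_S13 {h : P → ℕ} {z : P} (hh : h z = 1) (hl : lev z = 13) : cst 6 h z = S13 z := by
  rw [cst_ct hh]
  exact ct_one13 hl

/-- pendants below the fold end and below a quadric -/
lemma pen_cost {h : P → ℕ} {z x : P} (H : Gr P r) (hp : Pend z x) (hl : lev x = 12)
    (hh : h z = 1) : (Fp x → cst 6 h z = 13 ∧ nab 6 z = 4 ∧ nab 7 z = 3) ∧
      (Qp x → cst 6 h z = 7 ∧ nab 6 z = 2 ∧ nab 7 z = 1) := by
  have hlz := (H.covBy_iff.mp hp.1).2
  have hn : ∀ k, k ≤ 12 → nab k z = nab k x := fun k hk => nab_pend hp (by omega)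
  have n12 : nab 12 z = 1 := by
    rw [hn 12 le_rfl]
    have := nab_self (z := x)
    rwa [hl] at this
  have hct := cst_S13 (h := h) (z := z) hh (by omega)
  unfold S13 at hct
  constructor
  · rintro ⟨g6, g7, g8, g9, g10, g11⟩
    rw [← hn _ (by norm_num)] at g6 g7 g8 g9 g10 g11
    exact ⟨by omega, g6, g7⟩
  · rintro ⟨g6, g7, g8, g9, g10, g11⟩
    rw [← hn _ (by norm_num)] at g6 g7 g8 g9 g10 g11
    exact ⟨by omega, g6, g7⟩

section

variable {lo hi : Tops P → ℕ → ℕ} {e : Tops P → ℕ → ℕ → P} {T n0 : ℕ} {q : Prop}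
  {ρ : Tops P → ℤ} {Y : Tops P → Finset P} {θ : Tops P → P → ℕ} {B : Tops P → P → Prop}

/-- the cost of a join -/
lemma Jo.ct_le {z x x' : P} (hj : Jo Y θ z x x') (k : ℕ) :
    ct 6 k x + ct 6 k x' + min k 7 ≤ ct 6 k z := by
  have h13 : nab 13 z = 1 := by
    have := nab_self (z := z)
    rwa [hj.lz] at this
  unfold ct
  rw [cst_eq, cst_eq, cst_eq, hj.lz, hj.lx, hj.lx']
  rw [Finset.sum_range_succ _ 13, h13, ← Finset.sum_add_distrib]
  norm_num
  refine Finset.sum_le_sum fun l hl => ?_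
  rw [mem_range] at hl
  rw [hj.sum l (by omega), Nat.mul_add]

/-- joins with a label different from one -/
lemma C12.jo2 (W : C12 P r lo hi e T n0 q ρ Y θ B) {z x x' : P} (hj : Jo Y θ z x x')
    (hh : h12 Y θ z ≠ 1) : T ≤ cst 6 (h12 Y θ) z := by
  have h0 : θ (topOf x) x ≠ 0 := fun h => hh (by rw [hj.lab, h])
  have h1 := (W.ts (topOf x)).cost.endc x (le_topOf x) hj.lx hj.uc h0
  have h2 := hj.ct_le (θ (topOf x) x + 1)
  have h3 := ct_two (k := θ (topOf x) x + 1) hj.lx' (by omega)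
  rw [cst_ct hj.lab]
  have h4 : 2 ≤ min (θ (topOf x) x + 1) 7 := by omega
  omega

/-- **The kinds of the boundary elements with their costs.** -/
theorem C12.kd (W : C12 P r lo hi e T n0 q ρ Y θ B) {z : P} (hz : z ∈ bdR (unnat (N12 Y))) :
    T ≤ cst 6 (h12 Y θ) z ∨
    (h12 Y θ z = 1 ∧ cst 6 (h12 Y θ) z = 7 ∧ nab 6 z = 2 ∧ nab 7 z = 1) ∨
    (h12 Y θ z = 1 ∧ cst 6 (h12 Y θ) z = 13 ∧ nab 6 z = 4 ∧ nab 7 z = 3) ∨
    (h12 Y θ z = 1 ∧ cst 6 (h12 Y θ) z = S13 z ∧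
      ∃ x x', Jo Y θ z x x' ∧ (Fp x ∨ Qp x)) ∨
    (q ∧ z ∈ CX lo hi Y θ) := by
  rcases W.kind hz with h1 | ⟨x, hp, hh, h0, hx, hl⟩ | ⟨x, x', hj⟩ | ⟨t, hq, hh, hx⟩
  · exact Or.inl h1
  · rcases hx with hx | hx
    · obtain ⟨a, b, c⟩ := (pen_cost W.K.gt.H hp hl hh).1 hx
      exact Or.inr (Or.inr (Or.inl ⟨hh, a, b, c⟩))
    · obtain ⟨a, b, c⟩ := (pen_cost W.K.gt.H hp hl hh).2 hx
      exact Or.inr (Or.inl ⟨hh, a, b, c⟩)
  · by_cases hh : h12 Y θ z = 1
    · right; right; right; left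
      refine ⟨hh, cst_S13 hh hj.lz, x, x', hj, ?_⟩
      refine ((W.ts (topOf x)).cost.ends x (le_topOf x) hj.lx hj.uc).2 ?_
      have := hj.lab
      omega
    · exact Or.inl (W.jo2 hj hh)
  · exact Or.inr (Or.inr (Or.inr (Or.inr ⟨hq, mem_CX.mpr ⟨hz, hh, t, hx⟩⟩)))

/-- elements of cost 7 and 13 -/
theorem C12.no713 (W : C12 P r lo hi e T n0 q ρ Y θ B) (hn : 13 < n0) (hT : 14 ≤ T)
    (hJ : ∀ z x x', Jo Y θ z x x' → h12 Y θ z = 1 → (Fp x ∨ Qp x) → 14 ≤ S13 z) :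
    ∀ z ∈ bdR (unnat (N12 Y)), cst 6 (h12 Y θ) z ≠ 7 ∧ cst 6 (h12 Y θ) z ≠ 13 := by
  classical
  have hgr := W.K.gt.H.gradedBelow
  have hcx : ∀ z ∈ CX lo hi Y θ, cst 6 (h12 Y θ) z = 19 := by
    intro z hz
    obtain ⟨-, h1, t, h2⟩ := mem_CX.mp hz
    exact cx_cost hgr h1 h2
  -- the kinds
  have key : ∀ z ∈ bdR (unnat (N12 Y)), 14 ≤ cst 6 (h12 Y θ) z ∨
      (h12 Y θ z = 1 ∧ cst 6 (h12 Y θ) z = 7 ∧ nab 6 z = 2 ∧ nab 7 z = 1) ∨
      (h12 Y θ z = 1 ∧ cst 6 (h12 Y θ) z = 13 ∧ nab 6 z = 4 ∧ nab 7 z = 3) := by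
    intro z hz
    rcases W.kd hz with h1 | h1 | h1 | ⟨h1, h2, x, x', h3, h4⟩ | ⟨-, h1⟩
    · exact Or.inl (by omega)
    · exact Or.inr (Or.inl h1)
    · exact Or.inr (Or.inr h1)
    · have := hJ z x x' h3 h1 h4
      exact Or.inl (by omega)
    · have := hcx z h1
      exact Or.inl (by omega)
  have n7 : ∀ z ∈ bdR (unnat (N12 Y)), cst 6 (h12 Y θ) z ≠ 7 := by
    intro z hz h7
    have hzX : z ∉ CX lo hi Y θ := fun h => by
      have := hcx z h
      omega
    refine absurd (W.step (n := 7) (s := below P 6 + 2) (by omega) (by omega)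
      (Or.inl (by norm_num)) (W.card_pos (topOf z)) le_rfl ?_ (fun _ => 1) ?_ z hz hzX h7)
      one_ne_zero
    · intro y hy _
      rcases key y hy with h1 | ⟨-, h1, -⟩ | ⟨-, h1, -⟩ <;> omega
    · intro y hy _ hc
      rcases key y hy with h1 | ⟨h1, -, h2, h3⟩ | ⟨-, h1, -⟩
      · omega
      · have h4 := lv_lt (h := h12 Y θ) (z := y) h1 (B' := (lv P 6).card) (by omega)
        rw [h2] at h4
        rw [Nat.cast_one, one_mul]
        exact h4
      · omega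
  have n13 : ∀ z ∈ bdR (unnat (N12 Y)), cst 6 (h12 Y θ) z ≠ 13 := by
    intro z hz h13
    have hzX : z ∉ CX lo hi Y θ := fun h => by
      have := hcx z h
      omega
    refine absurd (W.step (n := 13) (s := below P 6 + 4) (by omega) (by omega)
      (Or.inl (by norm_num)) (W.card_pos (topOf z)) le_rfl ?_ (fun _ => 1) ?_ z hz hzX h13)
      one_ne_zero
    · intro y hy _
      have h0 := n7 y hy
      rcases key y hy with h1 | ⟨-, h1, -⟩ | ⟨-, h1, -⟩ <;> omega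
    · intro y hy _ hc
      rcases key y hy with h1 | ⟨-, h1, -⟩ | ⟨h1, -, h2, h3⟩
      · omega
      · omega
      · have h4 := lv_lt (h := h12 Y θ) (z := y) h1 (B' := (lv P 6).card) (by omega)
        rw [h2] at h4
        rw [Nat.cast_one, one_mul]
        exact h4
  exact fun z hz => ⟨n7 z hz, n13 z hz⟩

/-- the costs of joins with a fold end -/
lemma Jo.fold {z x x' : P} (hj : Jo Y θ z x x') (hx : Fp x) :
    nab 7 z + 15 ≤ S13 z ∧ 5 ≤ nab 6 z ∧ 4 ≤ nab 7 z := by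
  obtain ⟨g6, g7, g8, g9, g10, g11⟩ := hx
  have n12 : nab 12 x = 1 := by
    have := nab_self (z := x)
    rwa [hj.lx] at this
  have hn : ∀ k, k ≤ 12 → nab k x + 1 ≤ nab k z := fun k hk => by
    have h1 := one_le_nab (z := x') (l := k) (by rw [hj.lx']; exact hk)
    have h2 := hj.sum k hk
    omega
  have m6 := hn 6 (by norm_num)
  have m7 := hn 7 (by norm_num)
  have m8 := hn 8 (by norm_num)
  have m9 := hn 9 (by norm_num)
  have m10 := hn 10 (by norm_num)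
  have m11 := hn 11 (by norm_num)
  have m12 := hn 12 (by norm_num)
  unfold S13
  exact ⟨by omega, by omega, by omega⟩

/-- the covers of a join are in the boundary -/
lemma C12.jn_bd (W : C12 P r lo hi e T n0 q ρ Y θ B) {z x x' : P} (hl : lev z = 13)
    (hzx : z ⋖ x) (hzx' : z ⋖ x') (hne : topOf x ≠ topOf x') : z ∈ bdR (unnat (N12 Y)) := by
  classical
  have H := W.K.gt.H
  have l1 := (H.covBy_iff.mp hzx).2
  have l2 := (H.covBy_iff.mp hzx').2
  have hzR : z ∈ unnat (N12 Y) := by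
    rw [mem_unnat]
    intro s hs
    have h1 := W.sys.topOf_eq (W.sys.up s z hs x hzx.1.le)
    have h2 := W.sys.topOf_eq (W.sys.up s z hs x' hzx'.1.le)
    exact hne (h1.trans h2.symm)
  unfold bdR
  rw [mem_filter]
  exact ⟨hzR, x, W.nat12 (by omega), hzx⟩

/-- joins as boundary elements -/
lemma C12.jn_jo (W : C12 P r lo hi e T n0 q ρ Y θ B) {z x x' : P} (hl : lev z = 13)
    (hzx : z ⋖ x) (hzx' : z ⋖ x') (hne : topOf x ≠ topOf x') (h0 : θ (topOf x) x = 0) :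
    h12 Y θ z = 1 ∧ Jo Y θ z x x' := by
  have H := W.K.gt.H
  have l1 := (H.covBy_iff.mp hzx).2
  have l2 := (H.covBy_iff.mp hzx').2
  have hzb := W.jn_bd hl hzx hzx' hne
  have h1 := W.h_le hzx (le_topOf x) (by omega)
  have h1' := W.h_le hzx' (le_topOf x') (by omega)
  have h2 := W.lad.one_le hzb
  have h2' : 1 ≤ h12 Y θ z := h2
  have hh : h12 Y θ z = 1 := by omega
  have hon : ∀ v : P, lev v = 12 → v ∈ onlyB (topOf v) := fun v hv =>
    only_low W.K.gt v (le_topOf v) hv.le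
  have hcg : Sm.Cg z x x' := Sm.Cg.mk' hzx hzx' (hon x (by omega)) (hon x' (by omega)) hne
  obtain ⟨u1, u2⟩ := W.K.ends hcg hl
  exact ⟨hh, ⟨hzx, hzx', hne, hl, by omega, by omega, by omega, h1', u1, u2,
    fun k hk => hcg.sum H (by omega)⟩⟩

/-- (C) elements of a stair -/
lemma C12.cx_mem (W : C12 P r lo hi e T n0 q ρ Y θ B) {t : Tops P} {z : P} (hzY : z ∉ Y t)
    (hx : IsCx t (b12 lo hi t) (θ t) z) : z ∈ CX lo hi Y θ := by
  classical
  have hgr := W.K.gt.H.gradedBelow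
  obtain ⟨Nc, co, F, S', C, hb, hF⟩ := hx
  have hlz := C.lev_z hgr
  have hFt := C.chart.le_t F C.F_mem
  have hzR : z ∈ unnat (N12 Y) := by
    rw [mem_unnat]
    intro s hs
    have h2 := W.sys.topOf_eq (W.sys.up s z hs F C.zF.1.le)
    have h3 := W.top_of hFt C.lev_F.le
    have h4 : s = t := h2.symm.trans h3
    subst h4
    unfold N12 at hs
    rw [mem_union, mem_lowPart] at hs
    rcases hs with hs | hs
    · have := hs.2
      omega
    · exact hzY hs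
  have hzb : z ∈ bdR (unnat (N12 Y)) := by
    unfold bdR
    rw [mem_filter]
    exact ⟨hzR, F, W.nat12 C.lev_F.le, C.zF⟩
  have h1 := W.h_le C.zF hFt C.lev_F.le
  have h2 := W.lad.one_le hzb
  have h2' : 1 ≤ h12 Y θ z := h2
  exact mem_CX.mpr ⟨hzb, by omega, t, Nc, co, F, S', C, hb, hF⟩

end

end Pool.Agent.GaussPoset.W6
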