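import Pool.Agent.W_448w6_h53.WeD

/-!
**Level 12, window 6, up to the energy 20**: no (C), no pendant below a fold end, no joins
`(5, 4)` of cost at most 20 and `(6, 4)` of cost 19 (MP_448cb3_co, `j = 12`).
-/

namespace Pool.Agent.GaussPoset.W6

set_option linter.unusedSectionVars false

open Polynomial Finset Dd Wd Cl J8

universe u

variable {P : Type u} [Fintype P] [PartialOrder P] [DecidableEq P] {r : ℕ}

/-- **the data of a component up to the energy 23.** -/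
theorem exists_A {t : Tops P} {lo hi : ℕ → ℕ} {e : ℕ → ℕ → P} (h : Win.GoodTo P r 12)
    (C : Cp.Comp 12 (t : P) lo hi e) (S : Wd.Shape 12 lo hi) :
    ∃ Y θ B ρ, TS 24 23 True t (hi 6 - lo 6 + 1) ρ Y θ B ∧ 0 ≤ ρ ∧
      (¬ WordD 12 6 wa6 lo hi → TB 28 True t (hi 6 - lo 6 + 1) Y θ ∧
        DT 28 t (hi 6 - lo 6 + 1) Y θ B) ∧
      (StairShape 12 lo hi → lo 12 = 0 → ∀ z, z ⋖ e 12 6 → z ⋖ e 12 0 →
        z ∉ Y ∧ IsCx t (hi 6 - lo 6 + 1) θ z) ∧
      (WordD 12 6 wa6 lo hi → (∃ z, z ⋖ e 12 6 ∧ z ⋖ e 12 3) → 0 < ρ) := by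
  by_cases D : WordD 12 6 wa6 lo hi
  · obtain ⟨Y, θ, B, ρ, h1, h2, h3⟩ := la6A_ts D C h True
    refine ⟨Y, θ, B, ρ, h1, h2, fun hn => absurd D hn, fun S' => ?_, fun _ => h3⟩
    have e1 := S'.hi 2 (by norm_num)
    have e2 := (D.trunk 2 (by norm_num)).2
    omega
  · obtain ⟨Y, θ, B, ⟨h1, h2⟩, h3⟩ := exists_com h C S D
    exact ⟨Y, θ, B, 0, TS.of h1 h2 (by norm_num) (by norm_num), le_rfl, fun _ => ⟨h1, h2⟩, h3,
      fun hD => absurd hD D⟩

section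

variable {lo hi : Tops P → ℕ → ℕ} {e : Tops P → ℕ → ℕ → P} {T n0 : ℕ} {q : Prop}
  {ρ : Tops P → ℤ} {Y : Tops P → Finset P} {θ : Tops P → P → ℕ} {B : Tops P → P → Prop}

/-- the costs of the joins with `nab 6 = 5` -/
lemma C12.jo5 (W : C12 P r lo hi e T n0 q ρ Y θ B) {z x x' : P} (hj : Jo Y θ z x x')
    (hx : Fp x ∨ Qp x) (h5 : nab 6 z = 5) : 19 ≤ S13 z ∧ (nab 7 z = 5 → 20 ≤ S13 z) := by
  rcases hx with hx | hx
  · have := hj.fold hx
    exact ⟨by omega, fun h => by omega⟩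
  · exfalso
    have h1 := hj.sum 6 (by norm_num)
    have h2 := hx.1
    have h3 := ((W.ts (topOf x')).cost.ends x' (le_topOf x') hj.lx' hj.uc').1 (by omega)
    have h4 := h3.2.1
    omega

/-- **The energies 19 and 20.** -/
theorem C12.upto20 (W : C12 P r lo hi e T n0 q ρ Y θ B) (hn : 20 < n0) (hT : 21 ≤ T)
    (hJ : ∀ z x x', Jo Y θ z x x' → (Fp x ∨ Qp x) → 21 ≤ S13 z ∨ (nab 6 z = 5 ∧ nab 7 z = 4) ∨
      (nab 6 z = 6 ∧ nab 7 z = 4 ∧ S13 z = 19) ∨ (nab 6 z = 5 ∧ nab 7 z = 5)) :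
    (∀ z ∈ bdR (unnat (N12 Y)), cst 6 (h12 Y θ) z ≠ 7 ∧ cst 6 (h12 Y θ) z ≠ 13) ∧
    CX lo hi Y θ = ∅ ∧ ∀ z ∈ bdR (unnat (N12 Y)), h12 Y θ z = 1 →
      ¬ (nab 6 z = 5 ∧ nab 7 z = 4 ∧ cst 6 (h12 Y θ) z ≤ 20) ∧
      ¬ (nab 6 z = 6 ∧ nab 7 z = 4 ∧ cst 6 (h12 Y θ) z ≤ 20) := by
  classical
  have h713 := W.no713 (by omega) (by omega) (by
    intro z x x' hj _ hx
    rcases hJ z x x' hj hx with h | ⟨h, -⟩ | ⟨-, -, h⟩ | ⟨h, -⟩
    · omega
    · have := W.jo5 hj hx h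
      omega
    · omega
    · have := W.jo5 hj hx h
      omega)
  -- the kinds
  have key : ∀ z ∈ bdR (unnat (N12 Y)), z ∉ CX lo hi Y θ → 21 ≤ cst 6 (h12 Y θ) z ∨
      (h12 Y θ z = 1 ∧ 19 ≤ cst 6 (h12 Y θ) z ∧ nab 6 z = 5 ∧ nab 7 z = 4) ∨
      (h12 Y θ z = 1 ∧ cst 6 (h12 Y θ) z = 19 ∧ nab 6 z = 6 ∧ nab 7 z = 4) ∨
      (h12 Y θ z = 1 ∧ 20 ≤ cst 6 (h12 Y θ) z ∧ nab 6 z = 5 ∧ nab 7 z = 5) := by
    intro z hz hX
    obtain ⟨n7, n13⟩ := h713 z hz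
    rcases W.kd hz with h1 | ⟨-, h1, -⟩ | ⟨-, h1, -⟩ | ⟨h1, h2, x, x', hj, hx⟩ | ⟨-, h1⟩
    · exact Or.inl (by omega)
    · exact absurd h1 n7
    · exact absurd h1 n13
    · rcases hJ z x x' hj hx with h | ⟨h, h'⟩ | ⟨h, h', h3⟩ | ⟨h, h'⟩
      · exact Or.inl (by omega)
      · have := W.jo5 hj hx h
        exact Or.inr (Or.inl ⟨h1, by omega, h, h'⟩)
      · exact Or.inr (Or.inr (Or.inl ⟨h1, by omega, h, h'⟩))
      · have := (W.jo5 hj hx h).2 h'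
        exact Or.inr (Or.inr (Or.inr ⟨h1, by omega, h, h'⟩))
    · exact absurd h1 hX
  have hcost : ∀ z ∈ bdR (unnat (N12 Y)), z ∉ CX lo hi Y θ → 19 ≤ cst 6 (h12 Y θ) z := by
    intro z hz hX
    rcases key z hz hX with h1 | ⟨-, h1, -⟩ | ⟨-, h1, -⟩ | ⟨-, h1, -⟩ <;> omega
  have hCX : ∀ z ∈ CX lo hi Y θ, cst 6 (h12 Y θ) z = 19 ∧ nab 6 z = 4 := by
    intro z hz
    obtain ⟨-, h1, t, h2⟩ := mem_CX.mp hz
    refine ⟨cx_cost W.K.gt.H.gradedBelow h1 h2, ?_⟩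
    obtain ⟨Nc, co, F, S, C, -, -⟩ := h2
    have h3 := C.nab_z.1
    rw [h3]
    decide +kernel
  -- the joins (6, 4)
  have n64 : ∀ z ∈ bdR (unnat (N12 Y)), h12 Y θ z = 1 →
      ¬ (nab 6 z = 6 ∧ nab 7 z = 4 ∧ cst 6 (h12 Y θ) z ≤ 20) := by
    rintro z hz hh ⟨h6, h4, hc⟩
    have hX : z ∉ CX lo hi Y θ := fun h => by
      have := (hCX z h).2
      omega
    have h19 : cst 6 (h12 Y θ) z = 19 := by
      rcases key z hz hX with h1 | ⟨-, -, h1, -⟩ | ⟨-, h1, -⟩ | ⟨-, -, h1, -⟩ <;> omega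
    have hle := nab_le z 6
    have h3 := W.step (n := 19) (s := below P 6 + 6) (B' := (lv P 6).card - 1) (by omega)
      (by omega) (Or.inr (Or.inl ⟨rfl, hT, h713⟩)) (by omega) (by omega) hcost
      (fun z => if nab 6 z = 6 ∧ nab 7 z = 4 then 1 else 0) (by
        intro y hy hyX hc
        have hle := nab_le y 6
        rcases key y hy hyX with h1 | ⟨h1, -, h2, h3⟩ | ⟨h1, -, h2, h3⟩ | ⟨h1, -, h2, h3⟩
        · omega
        · rw [if_neg (by omega), Nat.cast_zero, zero_mul]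
          exact lv_lt0 h1 (by omega)
        · rw [if_pos ⟨h2, h3⟩, Nat.cast_one, one_mul]
          have h4 := lv_lt (h := h12 Y θ) (z := y) h1 (B' := (lv P 6).card - 1) (by omega)
          rwa [h2] at h4
        · rw [if_neg (by omega), Nat.cast_zero, zero_mul]
          exact lv_lt0 h1 (by omega)) z hz hX h19
    simp only [h6, h4, and_self, if_true] at h3
    exact absurd h3 one_ne_zero
  -- the joins (5, 4) of cost 19
  have n54 : ∀ z ∈ bdR (unnat (N12 Y)), z ∉ CX lo hi Y θ → cst 6 (h12 Y θ) z = 19 →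
      ¬ (nab 6 z = 5 ∧ nab 7 z = 4) := by
    rintro z hz hX hc ⟨h5, h4⟩
    have h3 := W.step (n := 19) (s := below P 6 + 5) (B' := (lv P 6).card) (by omega)
      (by omega) (Or.inr (Or.inl ⟨rfl, hT, h713⟩)) (W.card_pos (topOf z)) le_rfl hcost
      (fun z => if nab 6 z = 5 ∧ nab 7 z = 4 then 1 else 0) (by
        intro y hy hyX hc
        have hle := nab_le y 6
        rcases key y hy hyX with h1 | ⟨h1, -, h2, h3⟩ | ⟨h1, h1', h2, h3⟩ | ⟨h1, -, h2, h3⟩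
        · omega
        · rw [if_pos ⟨h2, h3⟩, Nat.cast_one, one_mul]
          have h4 := lv_lt (h := h12 Y θ) (z := y) h1 (B' := (lv P 6).card) (by omega)
          rwa [h2] at h4
        · exact absurd ⟨h2, h3, by omega⟩ (n64 y hy h1)
        · rw [if_neg (by omega), Nat.cast_zero, zero_mul]
          exact lv_lt0 h1 (by omega)) z hz hX hc
    simp only [h5, h4, and_self, if_true] at h3
    exact absurd h3 one_ne_zero
  -- the energy 20
  obtain ⟨k1, k2⟩ := W.twenty hn hT h713 (by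
      intro z hz hX
      have h0 := hcost z hz hX
      by_contra hcon
      have h19 : cst 6 (h12 Y θ) z = 19 := by omega
      rcases key z hz hX with h1 | ⟨-, -, h2, h3⟩ | ⟨h1, -, h2, h3⟩ | ⟨h1, h5, h2, h3⟩
      · omega
      · exact n54 z hz hX h19 ⟨h2, h3⟩
      · exact n64 z hz h1 ⟨h2, h3, by omega⟩
      · omega)
    (fun z => if nab 6 z = 5 ∧ nab 7 z = 4 then 1 else 0) (by
      intro y hy hyX hc
      have hle := nab_le y 6
      rcases key y hy hyX with h1 | ⟨h1, -, h2, h3⟩ | ⟨h1, h1', h2, h3⟩ | ⟨h1, -, h2, h3⟩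
      · omega
      · rw [if_pos ⟨h2, h3⟩, Nat.cast_one, one_mul]
        have h4 := lv_lt (h := h12 Y θ) (z := y) h1 (B' := (lv P 6).card) (by omega)
        rw [h2] at h4
        have h5 : (-1 : ℤ) ^ (below P 6 + 5) = (-1) ^ (below P 6 + 3) := by
          rw [pow_add, pow_add]
          norm_num
        rwa [h5] at h4
      · omega
      · rw [if_neg (by omega), Nat.cast_zero, zero_mul]
        exact lv_lt0 h1 (by omega))
  refine ⟨h713, k1, fun z hz hh => ⟨?_, n64 z hz hh⟩⟩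
  rintro ⟨h5, h4, hc⟩
  have hX : z ∉ CX lo hi Y θ := by
    rw [k1]
    exact Finset.notMem_empty _
  have h0 := hcost z hz hX
  rcases Nat.lt_or_ge (cst 6 (h12 Y θ) z) 20 with h1 | h1
  · exact n54 z hz hX (by omega) ⟨h5, h4⟩
  · have h2 := k2 z hz (by omega)
    simp only [h5, h4, and_self, if_true] at h2
    exact absurd h2 one_ne_zero

end

end Pool.Agent.GaussPoset.W6
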